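import Mathlib

/-!
Words in operators which satisfy the 0-Hecke relations: abstract form of the extraction of the
maximum and of the minimum (paper: `/team-store/h69_count.md`, (2) and (2')).
-/

namespace MP967.Cnt

variable {α : Type*}

/-- The relations of the 0-Hecke monoid. -/
structure Hecke (P : ℕ → α → α) : Prop where
  idem : ∀ i x, P i (P i x) = P i x
  comm : ∀ i j, i + 1 < j → ∀ x, P i (P j x) = P j (P i x)
  braid : ∀ i x, P i (P (i + 1) (P i x)) = P (i + 1) (P i (P (i + 1) x))

/-- `up P j x = P (j-1) ⋯ P 1 (P 0 x)`. -/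
def up (P : ℕ → α → α) : ℕ → α → α
  | 0, x => x
  | j + 1, x => P j (up P j x)

/-- `dn P j k x = P j (P (j+1) ⋯ (P (j+k-1) x))`. -/
def dn (P : ℕ → α → α) : ℕ → ℕ → α → α
  | _, 0, x => x
  | j, k + 1, x => P j (dn P (j + 1) k x)

theorem Hecke.comm' {P : ℕ → α → α} (h : Hecke P) (i j : ℕ) (hij : i + 1 < j ∨ j + 1 < i)
    (x : α) : P i (P j x) = P j (P i x) := by
  rcases hij with h1 | h1
  · exact h.comm i j h1 x
  · exact (h.comm j i h1 x).symm

theorem Hecke.up_far {P : ℕ → α → α} (h : Hecke P) (i j : ℕ) (hij : j < i) (x : α) :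
    P i (up P j x) = up P j (P i x) := by
  induction j with
  | zero => rfl
  | succ j ih =>
    rw [up, up, h.comm' i j (Or.inr (by omega)), ih (by omega)]

theorem Hecke.up_near {P : ℕ → α → α} (h : Hecke P) (i j : ℕ) (hij : i + 1 < j) (x : α) :
    P i (up P j x) = up P j (P (i + 1) x) := by
  induction j with
  | zero => omega
  | succ j ih =>
    rcases Nat.lt_or_ge (i + 1) j with h1 | h1
    · rw [up, up, h.comm i j h1, ih h1]
    · have hj : j = i + 1 := by omega
      subst hj
      rw [up, up, up, up, h.braid, h.up_far (i + 1) i (by omega)]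

theorem Hecke.up_last {P : ℕ → α → α} (h : Hecke P) (j : ℕ) (x : α) :
    P j (up P (j + 1) x) = up P (j + 1) x := by
  rw [up, h.idem]

/-- Extraction at the left end, one step: an operator either changes the length of the word or
passes to the argument, where it acts on the slots `1, …, N - 1`. -/
theorem Hecke.up_step {P : ℕ → α → α} (h : Hecke P) (N i j : ℕ) (hi : i + 1 < N) (hj : j < N)
    (x : α) : (∃ j' < N, P i (up P j x) = up P j' x) ∨
      ∃ k, k + 2 < N ∧ P i (up P j x) = up P j (P (k + 1) x) := by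
  rcases lt_trichotomy i j with h1 | h1 | h1
  · rcases Nat.lt_or_ge (i + 1) j with h2 | h2
    · exact Or.inr ⟨i, by omega, h.up_near i j h2 x⟩
    · have hj' : j = i + 1 := by omega
      subst hj'
      exact Or.inl ⟨i + 1, hj, h.up_last i x⟩
  · subst h1
    exact Or.inl ⟨i + 1, hi, rfl⟩
  · obtain ⟨k, rfl⟩ : ∃ k, i = k + 1 := ⟨i - 1, by omega⟩
    exact Or.inr ⟨k, by omega, h.up_far (k + 1) j h1 x⟩

theorem Hecke.dn_far {P : ℕ → α → α} (h : Hecke P) (i j k : ℕ) (hij : i + 1 < j) (x : α) :
    P i (dn P j k x) = dn P j k (P i x) := by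
  induction k generalizing j with
  | zero => rfl
  | succ k ih =>
    rw [dn, dn, h.comm i j hij, ih (j + 1) (by omega)]

theorem Hecke.dn_near {P : ℕ → α → α} (h : Hecke P) (i j k : ℕ) (hij : j < i) (hik : i < j + k)
    (x : α) : P i (dn P j k x) = dn P j k (P (i - 1) x) := by
  induction k generalizing j with
  | zero => omega
  | succ k ih =>
    rcases Nat.lt_or_ge (j + 1) i with h1 | h1
    · rw [dn, dn, h.comm' i j (Or.inr h1), ih (j + 1) h1 (by omega)]
    · have hi : i = j + 1 := by omega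
      subst hi
      obtain ⟨k, rfl⟩ : ∃ l, k = l + 1 := ⟨k - 1, by omega⟩
      have e : j + 1 - 1 = j := by omega
      rw [dn, dn, dn, dn, ← h.braid, h.dn_far j (j + 1 + 1) k (by omega), e]

theorem Hecke.dn_first {P : ℕ → α → α} (h : Hecke P) (j k : ℕ) (x : α) :
    P j (dn P j (k + 1) x) = dn P j (k + 1) x := by
  rw [dn, h.idem]

/-- Extraction at the right end, one step. -/
theorem Hecke.dn_step {P : ℕ → α → α} (h : Hecke P) (N i j : ℕ) (hi : i < N) (hj : j ≤ N)
    (x : α) : (∃ j' ≤ N, P i (dn P j (N - j) x) = dn P j' (N - j') x) ∨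
      ∃ k, k + 1 < N ∧ P i (dn P j (N - j) x) = dn P j (N - j) (P k x) := by
  rcases lt_trichotomy i j with h1 | h1 | h1
  · rcases Nat.lt_or_ge (i + 1) j with h2 | h2
    · exact Or.inr ⟨i, by omega, h.dn_far i j _ h2 x⟩
    · have hj' : j = i + 1 := by omega
      subst hj'
      refine Or.inl ⟨i, by omega, ?_⟩
      have e : N - i = N - (i + 1) + 1 := by omega
      rw [e, dn]
  · subst h1
    refine Or.inl ⟨i, by omega, ?_⟩
    obtain ⟨l, hl⟩ : ∃ l, N - i = l + 1 := ⟨N - i - 1, by omega⟩
    rw [hl, h.dn_first]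
  · exact Or.inr ⟨i - 1, by omega, h.dn_near i j _ h1 (by omega) x⟩

end MP967.Cnt
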