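import Pool.Agent.Lib.MP_967fd7_co.Cnt.CtA

/-! Prefix sums (paper (5)). -/

namespace MP967.Cnt

/-- The exponents with nonnegative prefix sums and sum `0`, with only slots `< N`. -/
private def cone (N : ℕ) : Set Ex :=
  {w | (∀ k, 0 ≤ ∑ p ∈ Finset.range k, w p) ∧ ∑ p ∈ Finset.range N, w p = 0 ∧
    ∀ p, N ≤ p → w p = 0}

private theorem cone_add {N : ℕ} {u v : Ex} (hu : u ∈ cone N) (hv : v ∈ cone N) :
    u + v ∈ cone N := by
  refine ⟨fun k => ?_, ?_, fun p hp => ?_⟩
  · simp only [Pi.add_apply, Finset.sum_add_distrib]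
    exact add_nonneg (hu.1 k) (hv.1 k)
  · simp only [Pi.add_apply, Finset.sum_add_distrib, hu.2.1, hv.2.1, add_zero]
  · rw [Pi.add_apply, hu.2.2 p hp, hv.2.2 p hp, add_zero]

private theorem cone_zero (N : ℕ) : (0 : Ex) ∈ cone N := by
  refine ⟨fun k => ?_, ?_, fun p _ => rfl⟩ <;> simp

private theorem cone_neg {N : ℕ} {u : Ex} (hu : u ∈ cone N) (hv : -u ∈ cone N) : u = 0 := by
  have h1 : ∀ k, ∑ p ∈ Finset.range k, u p = 0 := by
    intro k
    have a := hu.1 k
    have b := hv.1 k
    simp only [Pi.neg_apply, Finset.sum_neg_distrib] at b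
    omega
  funext p
  have h2 := h1 (p + 1)
  rw [Finset.sum_range_succ, h1 p, zero_add] at h2
  exact h2

private theorem cone_root {N p q : ℕ} (hpq : p < q) (hq : q < N) :
    (Pi.single p 1 - Pi.single q 1 : Ex) ∈ cone N := by
  have h1 : ∀ (k r : ℕ), ∑ i ∈ Finset.range k, (Pi.single r 1 : Ex) i = if r < k then 1 else 0 := by
    intro k r
    by_cases h : r < k
    · rw [if_pos h, Finset.sum_eq_single_of_mem r (Finset.mem_range.2 h)]
      · simp
      · intro b _ hb
        simp [Pi.single_apply, hb]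
    · rw [if_neg h]
      refine Finset.sum_eq_zero fun i hi => ?_
      rw [Finset.mem_range] at hi
      rw [Pi.single_apply, if_neg (by omega)]
  refine ⟨fun k => ?_, ?_, fun i hi => ?_⟩
  · simp only [Pi.sub_apply, Finset.sum_sub_distrib, h1]
    split_ifs <;> omega
  · simp only [Pi.sub_apply, Finset.sum_sub_distrib, h1]
    rw [if_pos (by omega), if_pos hq]
    norm_num
  · rw [Pi.sub_apply, Pi.single_apply, Pi.single_apply, if_neg (by omega), if_neg (by omega)]
    norm_num

private theorem coeff_mono (v w : Ex) : (mono v).coeff w = Finsupp.single v (1 : ℤ) w := rfl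

private theorem Dl_all (N : ℕ) (I : ℕ → Bool) :
    (∀ w ∈ (Dl N I).coeff.support, w ∈ cone N) ∧ (Dl N I).coeff 0 = 1 := by
  classical
  have key : ∀ f g : Lau, ((∀ w ∈ f.coeff.support, w ∈ cone N) ∧ f.coeff 0 = 1) →
      ((∀ w ∈ g.coeff.support, w ∈ cone N) ∧ g.coeff 0 = 1) →
      ((∀ w ∈ (f * g).coeff.support, w ∈ cone N) ∧ (f * g).coeff 0 = 1) := by
    rintro f g ⟨hf, hf0⟩ ⟨hg, hg0⟩
    refine ⟨fun w hw => ?_, ?_⟩
    · have h1 := AddMonoidAlgebra.support_coeff_mul_subset f g hw
      rw [Finset.mem_add] at h1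
      obtain ⟨u, hu, v, hv, rfl⟩ := h1
      exact cone_add (hf u hu) (hg v hv)
    · rw [AddMonoidAlgebra.coeff_mul_apply_left, Finsupp.sum,
        Finset.sum_eq_single_of_mem (0 : Ex)]
      · rw [hf0, neg_zero, add_zero, hg0, mul_one]
      · rw [Finsupp.mem_support_iff, hf0]
        exact one_ne_zero
      · intro u hu hu0
        have h2 : g.coeff (-u + 0) = 0 := by
          by_contra h3
          rw [add_zero] at h3
          exact hu0 (cone_neg (hf u hu) (hg _ (Finsupp.mem_support_iff.2 h3)))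
        rw [h2, mul_zero]
  have one : (∀ w ∈ (1 : Lau).coeff.support, w ∈ cone N) ∧ (1 : Lau).coeff 0 = 1 := by
    have h1 : ∀ w, (1 : Lau).coeff w = Finsupp.single (0 : Ex) (1 : ℤ) w := fun w => rfl
    refine ⟨fun w hw => ?_, ?_⟩
    · rw [Finsupp.mem_support_iff, h1, Finsupp.single_apply] at hw
      have h2 : (0 : Ex) = w := by
        by_contra h3
        exact hw (if_neg h3)
      rw [← h2]
      exact cone_zero N
    · rw [h1, Finsupp.single_eq_same]
  unfold Dl
  refine Finset.prod_induction _ (fun f : Lau =>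
    (∀ w ∈ f.coeff.support, w ∈ cone N) ∧ f.coeff 0 = 1) key one fun q hq => ?_
  refine Finset.prod_induction _ (fun f : Lau =>
    (∀ w ∈ f.coeff.support, w ∈ cone N) ∧ f.coeff 0 = 1) key one fun p hp => ?_
  rw [Finset.mem_range] at hq hp
  split_ifs with h
  · set r : Ex := Pi.single p 1 - Pi.single q 1 with hr
    have hr0 : r ≠ 0 := by
      intro h0
      have h1 := congrFun h0 p
      rw [hr, Pi.sub_apply, Pi.single_eq_same, Pi.single_apply, if_neg (by omega)] at h1
      norm_num at h1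
    have h1 : ∀ w, (1 - mono r : Lau).coeff w = (1 : Lau).coeff w - (mono r).coeff w :=
      fun w => rfl
    refine ⟨fun w hw => ?_, ?_⟩
    · rw [Finsupp.mem_support_iff, h1] at hw
      by_cases h2 : (1 : Lau).coeff w = 0
      · rw [h2, zero_sub, neg_ne_zero, coeff_mono, Finsupp.single_apply] at hw
        have h3 : r = w := by
          by_contra h4
          exact hw (if_neg h4)
        rw [← h3]
        exact cone_root hp hq
      · exact one.1 w (Finsupp.mem_support_iff.2 h2)
    · rw [h1, one.2, coeff_mono, Finsupp.single_apply, if_neg hr0, sub_zero]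
  · exact one

/-- The exponents in `Dl N I` have nonnegative prefix sums, sum `0`, and only slots `< N` occur. -/
theorem Dl_supp {N : ℕ} {I : ℕ → Bool} {w : Ex} (hw : w ∈ (Dl N I).coeff.support) :
    (∀ k, 0 ≤ ∑ p ∈ Finset.range k, w p) ∧ ∑ p ∈ Finset.range N, w p = 0 ∧
      ∀ p, N ≤ p → w p = 0 :=
  (Dl_all N I).1 w hw

/-- The coefficient of `1` in `Dl N I` is `1`. -/
theorem el_one (N : ℕ) (I : ℕ → Bool) : el N I 1 = 1 := by
  rw [el_apply, one_mul]
  exact (Dl_all N I).2

/-- Paper (5). -/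
theorem el_prefix {N : ℕ} (I : ℕ → Bool) {f : Lau} (k : ℕ)
    (h : ∀ v ∈ f.coeff.support, 0 < ∑ p ∈ Finset.range k, v p) : el N I f = 0 := by
  rw [el_apply, AddMonoidAlgebra.coeff_mul_apply_left, Finsupp.sum]
  refine Finset.sum_eq_zero fun u hu => ?_
  have h2 : (Dl N I).coeff (-u + 0) = 0 := by
    by_contra h3
    rw [add_zero] at h3
    have h4 := (Dl_supp (Finsupp.mem_support_iff.2 h3)).1 k
    simp only [Pi.neg_apply, Finset.sum_neg_distrib] at h4
    have h5 := h u hu
    omega
  rw [h2, mul_zero]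

end MP967.Cnt
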