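import Pool.Agent.Lib.MP_967fd7_co.Cnt.Step
import Pool.Agent.Lib.MP_967fd7_co.Cnt.CtC

/-! The functional `el` on `x^v ∏ (1 + 1/x_p)^n`: sequences of vectors which are decreasing inside
the colours. -/

namespace MP967.Cnt

/-- `v` is decreasing inside the colours and zero outside the slots `< K`. -/
def Cdec (K : ℕ) (I : ℕ → Bool) (v : Ex) : Prop :=
  (∀ p q, p < q → q < K → I p = I q → v q ≤ v p) ∧ ∀ p, K ≤ p → v p = 0

/-- The vectors `v - 1_A` which are decreasing inside the colours. -/
noncomputable def csteps (K : ℕ) (I : ℕ → Bool) (v : Ex) : Finset Ex := by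
  classical
  exact ((Finset.range K).powerset.image (sub v)).filter (Cdec K I)

theorem mem_csteps {K : ℕ} {I : ℕ → Bool} {v z : Ex} (hv : Cdec K I v) :
    z ∈ csteps K I v ↔ Cdec K I z ∧ ∀ p, p < K → v p = z p ∨ v p = z p + 1 := by
  classical
  unfold csteps
  rw [Finset.mem_filter, Finset.mem_image]
  constructor
  · rintro ⟨⟨A, -, rfl⟩, hz⟩
    refine ⟨hz, fun p _ => ?_⟩
    unfold sub
    split_ifs
    · right
      omega
    · left
      rfl
  · rintro ⟨hz, h⟩
    refine ⟨⟨(Finset.range K).filter (fun p => v p = z p + 1),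
      Finset.mem_powerset.2 (Finset.filter_subset _ _), ?_⟩, hz⟩
    funext p
    unfold sub
    by_cases hp : p < K
    · by_cases hvz : v p = z p + 1
      · have hm : p ∈ (Finset.range K).filter (fun p => v p = z p + 1) :=
          Finset.mem_filter.2 ⟨Finset.mem_range.2 hp, hvz⟩
        rw [if_pos hm]
        omega
      · have hm : p ∉ (Finset.range K).filter (fun p => v p = z p + 1) :=
          fun hm => hvz (Finset.mem_filter.1 hm).2
        rw [if_neg hm]
        rcases h p hp with h1 | h1
        · exact h1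
        · exact absurd h1 hvz
    · have hm : p ∉ (Finset.range K).filter (fun p => v p = z p + 1) :=
        fun hm => hp (Finset.mem_range.1 (Finset.mem_filter.1 hm).1)
      rw [if_neg hm, hv.2 p (not_lt.1 hp), hz.2 p (not_lt.1 hp)]

open Classical in
/-- The sequences of vectors `z_{n-1}, …, z_0 = 0`, decreasing inside the colours. -/
noncomputable def chist (K : ℕ) (I : ℕ → Bool) : ℕ → Ex → Finset (List Ex)
  | 0, v => if v = 0 then {[]} else ∅
  | n + 1, v => (csteps K I v).biUnion fun z => (chist K I n z).image (List.cons z)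

theorem mem_chist_zero {K : ℕ} {I : ℕ → Bool} {v : Ex} {H : List Ex} :
    H ∈ chist K I 0 v ↔ v = 0 ∧ H = [] := by
  unfold chist
  split_ifs with h
  · rw [Finset.mem_singleton]
    exact ⟨fun e => ⟨h, e⟩, fun e => e.2⟩
  · exact ⟨fun e => absurd e (Finset.notMem_empty _), fun e => absurd e.1 h⟩

theorem mem_chist_succ {K n : ℕ} {I : ℕ → Bool} {v : Ex} {H : List Ex} :
    H ∈ chist K I (n + 1) v ↔ ∃ z ∈ csteps K I v, ∃ H' ∈ chist K I n z, H = z :: H' := by
  classical
  rw [chist, Finset.mem_biUnion]
  refine exists_congr fun z => and_congr_right fun _ => ?_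
  rw [Finset.mem_image]
  exact exists_congr fun H' => and_congr_right fun _ => eq_comm

theorem card_chist_succ {K n : ℕ} {I : ℕ → Bool} {v : Ex} :
    (chist K I (n + 1) v).card = ∑ z ∈ csteps K I v, (chist K I n z).card := by
  classical
  rw [chist, Finset.card_biUnion]
  · refine Finset.sum_congr rfl fun z _ => ?_
    exact Finset.card_image_of_injective _ List.cons_injective
  · intro x _ y _ hxy
    rw [Function.onFun, Finset.disjoint_left]
    intro H hx hy
    rw [Finset.mem_image] at hx hy
    obtain ⟨H1, -, rfl⟩ := hx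
    obtain ⟨H2, -, h2⟩ := hy
    exact hxy (List.cons.inj h2).1.symm

/-- The exchange of any two slots. -/
def swp (p q : ℕ) : Ex ≃+ Ex where
  toFun v := fun r => v (Equiv.swap p q r)
  invFun v := fun r => v (Equiv.swap p q r)
  left_inv v := by
    funext r
    simp
  right_inv v := by
    funext r
    simp
  map_add' u v := rfl

/-- The exchange of any two variables. -/
noncomputable def sA (p q : ℕ) : Lau ≃ₐ[ℤ] Lau := AddMonoidAlgebra.domCongr ℤ ℤ (swp p q)

theorem sA_mono (p q : ℕ) (v : Ex) : sA p q (mono v) = mono (swp p q v) := by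
  simp only [sA, mono, AddMonoidAlgebra.domCongr_single]

theorem c7_swp_single (p q r : ℕ) (c : ℤ) :
    swp p q (Pi.single r c) = Pi.single (Equiv.swap p q r) c := by
  funext k
  change (Pi.single r c : Ex) (Equiv.swap p q k) = _
  rw [Pi.single_apply, Pi.single_apply]
  congr 1
  apply propext
  constructor
  · intro h
    rw [← h, Equiv.swap_apply_self]
  · intro h
    rw [h, Equiv.swap_apply_self]

theorem c7_swap_lt {K p q : ℕ} (hp : p < K) (hq : q < K) {r : ℕ} (hr : r < K) :
    Equiv.swap p q r < K := by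
  rw [Equiv.swap_apply_def]
  split_ifs <;> assumption

theorem sA_EE {K p q : ℕ} (hp : p < K) (hq : q < K) : sA p q (EE K) = EE K := by
  unfold EE
  rw [map_prod]
  refine Finset.prod_nbij' (Equiv.swap p q) (Equiv.swap p q) ?_ ?_ ?_ ?_ ?_
  · intro r hr
    exact Finset.mem_range.2 (c7_swap_lt hp hq (Finset.mem_range.1 hr))
  · intro r hr
    exact Finset.mem_range.2 (c7_swap_lt hp hq (Finset.mem_range.1 hr))
  · intro r _
    exact Equiv.swap_apply_self _ _ _
  · intro r _
    exact Equiv.swap_apply_self _ _ _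
  · intro r _
    rw [map_add, map_one, sA_mono, map_neg, c7_swp_single]

/-- The pairs of slots of one colour. -/
def c7_prs (K : ℕ) (I : ℕ → Bool) : Finset (ℕ × ℕ) :=
  (Finset.range K ×ˢ Finset.range K).filter fun x => x.1 < x.2 ∧ I x.1 = I x.2

theorem c7_mem {K : ℕ} {I : ℕ → Bool} {x : ℕ × ℕ} :
    x ∈ c7_prs K I ↔ x.2 < K ∧ x.1 < x.2 ∧ I x.1 = I x.2 := by
  unfold c7_prs
  rw [Finset.mem_filter, Finset.mem_product, Finset.mem_range, Finset.mem_range]
  constructor
  · rintro ⟨⟨_, h2⟩, h3, h4⟩
    exact ⟨h2, h3, h4⟩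
  · rintro ⟨h2, h3, h4⟩
    exact ⟨⟨by omega, h2⟩, h3, h4⟩

theorem c7_Dl (K : ℕ) (I : ℕ → Bool) :
    Dl K I = ∏ x ∈ c7_prs K I, (1 - mono (Pi.single x.1 1 - Pi.single x.2 1)) := by
  unfold Dl
  have h1 : ∀ q ∈ Finset.range K, (∏ p ∈ Finset.range q,
      if I p = I q then 1 - mono (Pi.single p 1 - Pi.single q 1) else (1 : Lau))
      = ∏ p ∈ Finset.range K, if p < q ∧ I p = I q then
          1 - mono (Pi.single p 1 - Pi.single q 1) else (1 : Lau) := by
    intro q hq
    have hqK : q ≤ K := (Finset.mem_range.1 hq).le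
    have hsub : Finset.range q ⊆ Finset.range K := Finset.range_subset_range.2 hqK
    rw [← Finset.prod_subset hsub]
    · apply Finset.prod_congr rfl
      intro p hp
      have := Finset.mem_range.1 hp
      simp [this]
    · intro p _ hp
      have : ¬ p < q := fun h => hp (Finset.mem_range.2 h)
      simp [this]
  rw [Finset.prod_congr rfl h1]
  unfold c7_prs
  rw [Finset.prod_filter, Finset.prod_product_right]

/-- `Dl = (1 - x_p / x_q) Δ'` with `Δ'` symmetric in `x_p`, `x_q`, for consecutive slots `p < q` of one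
colour. -/
theorem Dl_factor {K : ℕ} {I : ℕ → Bool} {p q : ℕ} (hpq : p < q) (hq : q < K) (hI : I p = I q)
    (hc : ∀ r, p < r → r < q → I r ≠ I p) :
    ∃ Δ' : Lau, Dl K I = (1 - mono (Pi.single p 1 - Pi.single q 1)) * Δ' ∧ sA p q Δ' = Δ' := by
  have hmem : (p, q) ∈ c7_prs K I := c7_mem.2 ⟨hq, hpq, hI⟩
  refine ⟨∏ x ∈ (c7_prs K I).erase (p, q), (1 - mono (Pi.single x.1 1 - Pi.single x.2 1)), ?_, ?_⟩
  · rw [c7_Dl, ← Finset.mul_prod_erase _ _ hmem]
  · rw [map_prod]
    have hcol : ∀ r, I (Equiv.swap p q r) = I r := by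
      intro r
      rw [Equiv.swap_apply_def]
      split_ifs with h1 h2
      · rw [h1, hI]
      · rw [h2, hI]
      · rfl
    have hmap : ∀ x ∈ (c7_prs K I).erase (p, q),
        (Equiv.swap p q x.1, Equiv.swap p q x.2) ∈ (c7_prs K I).erase (p, q) := by
      rintro ⟨a, b⟩ hx
      rw [Finset.mem_erase, c7_mem] at hx
      obtain ⟨hne, hb, hab, hIab⟩ := hx
      simp only at hb hab hIab
      rw [Finset.mem_erase, c7_mem]
      have hne' : ¬ (a = p ∧ b = q) := by
        rintro ⟨h1, h2⟩
        exact hne (by rw [h1, h2])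
      have hlt : Equiv.swap p q a < Equiv.swap p q b := by
        rw [Equiv.swap_apply_def, Equiv.swap_apply_def]
        by_cases h1 : a = p
        · subst h1
          have hbq : b ≠ q := fun h => hne' ⟨rfl, h⟩
          have hba : b ≠ a := by omega
          rw [if_pos rfl, if_neg hba, if_neg hbq]
          by_contra h2
          exact hc b hab (by omega) hIab.symm
        · by_cases h2 : a = q
          · subst h2
            have h3 : b ≠ p := by omega
            have h4 : b ≠ a := by omega
            rw [if_neg h1, if_pos rfl, if_neg h3, if_neg h4]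
            omega
          · rw [if_neg h1, if_neg h2]
            by_cases h3 : b = p
            · subst h3
              rw [if_pos rfl]
              omega
            · by_cases h4 : b = q
              · subst h4
                rw [if_neg h3, if_pos rfl]
                by_contra h5
                exact hc a (by omega) hab (by rw [hIab, hI])
              · rw [if_neg h3, if_neg h4]
                exact hab
      refine ⟨?_, c7_swap_lt (by omega) hq hb, hlt, ?_⟩
      · intro h
        rw [Prod.mk.injEq] at h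
        obtain ⟨h1, h2⟩ := h
        have h3 : a = q := by
          have := congrArg (Equiv.swap p q) h1
          rwa [Equiv.swap_apply_self, Equiv.swap_apply_left] at this
        have h4 : b = p := by
          have := congrArg (Equiv.swap p q) h2
          rwa [Equiv.swap_apply_self, Equiv.swap_apply_right] at this
        omega
      · rw [hcol, hcol]
        exact hIab
    refine Finset.prod_nbij' (fun x => (Equiv.swap p q x.1, Equiv.swap p q x.2))
      (fun x => (Equiv.swap p q x.1, Equiv.swap p q x.2)) hmap hmap ?_ ?_ ?_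
    · intro x _
      exact Prod.ext (Equiv.swap_apply_self _ _ _) (Equiv.swap_apply_self _ _ _)
    · intro x _
      exact Prod.ext (Equiv.swap_apply_self _ _ _) (Equiv.swap_apply_self _ _ _)
    · intro x _
      rw [map_sub, map_one, sA_mono, map_sub, c7_swp_single, c7_swp_single]

theorem c7_coeff_sA (p q : ℕ) (h : Lau) : (sA p q h).coeff 0 = h.coeff 0 := by
  induction h using lau_induction with
  | hm v =>
    rw [sA_mono]
    simp only [mono, AddMonoidAlgebra.coeff_single]
    by_cases hv : v = 0
    · rw [hv, map_zero (swp p q)]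
    · have hv' : swp p q v ≠ 0 := by
        intro h
        apply hv
        have := congrArg (swp p q).symm h
        rwa [AddEquiv.symm_apply_apply, map_zero] at this
      rw [Finsupp.single_eq_of_ne (Ne.symm hv'), Finsupp.single_eq_of_ne (Ne.symm hv)]
  | h0 => simp
  | ha f g hf hg => simp only [map_add, AddMonoidAlgebra.coeff_add, Finsupp.add_apply, hf, hg]
  | hn f hf => simp only [map_neg, AddMonoidAlgebra.coeff_neg, Finsupp.neg_apply, hf]

theorem c7_el (K : ℕ) (I : ℕ → Bool) (f : Lau) : el K I f = (f * Dl K I).coeff 0 := rfl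

/-- If `w q = w p + 1` for consecutive slots of one colour, then `el` vanishes. -/
theorem el_kill {K : ℕ} {I : ℕ → Bool} {p q : ℕ} (hpq : p < q) (hq : q < K) (hI : I p = I q)
    (hc : ∀ r, p < r → r < q → I r ≠ I p) {w : Ex} (hw : w q = w p + 1) {g : Lau}
    (hg : sA p q g = g) : el K I (mono w * g) = 0 := by
  obtain ⟨Δ', hD, hs⟩ := Dl_factor hpq hq hI hc
  have h1 : mono w * mono (Pi.single p 1 - Pi.single q 1) = sA p q (mono w) := by
    rw [mono_mul, sA_mono]
    congr 1
    funext r
    change w r + ((Pi.single p 1 : Ex) r - (Pi.single q 1 : Ex) r) = w (Equiv.swap p q r)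
    rw [Pi.single_apply, Pi.single_apply, Equiv.swap_apply_def]
    by_cases h1 : r = p
    · subst h1
      have h2 : ¬ r = q := by omega
      rw [if_pos rfl, if_neg h2, if_pos rfl]
      omega
    · by_cases h2 : r = q
      · subst h2
        rw [if_neg h1, if_pos rfl, if_neg h1, if_pos rfl]
        omega
      · rw [if_neg h1, if_neg h2, if_neg h1, if_neg h2]
        ring
  have h2 : mono w * g * Dl K I = mono w * g * Δ' - sA p q (mono w * g * Δ') := by
    rw [hD, map_mul, map_mul, hg, hs, ← h1]
    ring
  rw [c7_el, h2, AddMonoidAlgebra.coeff_sub, Finsupp.sub_apply, c7_coeff_sA, sub_self]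

/-- The exponents with nonnegative prefix sums and sum `0` inside the colour `b`. -/
def c8_cone (K : ℕ) (I : ℕ → Bool) (b : Bool) : Set Ex :=
  {w | (∀ k ≤ K, 0 ≤ ∑ p ∈ (Finset.range k).filter (fun p => I p = b), w p) ∧
    ∑ p ∈ (Finset.range K).filter (fun p => I p = b), w p = 0}

theorem c8_cone_add {K : ℕ} {I : ℕ → Bool} {b : Bool} {u v : Ex} (hu : u ∈ c8_cone K I b)
    (hv : v ∈ c8_cone K I b) : u + v ∈ c8_cone K I b := by
  refine ⟨fun k hk => ?_, ?_⟩
  · simp only [Pi.add_apply, Finset.sum_add_distrib]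
    exact add_nonneg (hu.1 k hk) (hv.1 k hk)
  · simp only [Pi.add_apply, Finset.sum_add_distrib, hu.2, hv.2, add_zero]

theorem c8_cone_zero (K : ℕ) (I : ℕ → Bool) (b : Bool) : (0 : Ex) ∈ c8_cone K I b := by
  refine ⟨fun k _ => ?_, ?_⟩ <;> simp

theorem c8_sum_single (S : Finset ℕ) (r : ℕ) :
    ∑ i ∈ S, (Pi.single r 1 : Ex) i = if r ∈ S then 1 else 0 := by
  by_cases h : r ∈ S
  · rw [if_pos h, Finset.sum_eq_single_of_mem r h]
    · simp
    · intro b _ hb
      simp [hb]
  · rw [if_neg h]
    refine Finset.sum_eq_zero fun i hi => ?_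
    rw [Pi.single_apply, if_neg (fun he : i = r => h (by rw [← he]; exact hi))]

theorem c8_cone_root {K : ℕ} {I : ℕ → Bool} {b : Bool} {p q : ℕ} (hpq : p < q) (hq : q < K)
    (hI : I p = I q) : (Pi.single p 1 - Pi.single q 1 : Ex) ∈ c8_cone K I b := by
  refine ⟨fun k _ => ?_, ?_⟩
  · simp only [Pi.sub_apply, Finset.sum_sub_distrib, c8_sum_single, Finset.mem_filter,
      Finset.mem_range]
    by_cases hb : I q = b
    · by_cases hk : q < k
      · rw [if_pos ⟨by omega, by rw [hI, hb]⟩, if_pos ⟨hk, hb⟩]
        omega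
      · rw [if_neg (fun h : q < k ∧ I q = b => hk h.1)]
        split_ifs <;> omega
    · rw [if_neg (fun h : p < k ∧ I p = b => hb (by rw [← hI, h.2])),
        if_neg (fun h : q < k ∧ I q = b => hb h.2)]
      omega
  · simp only [Pi.sub_apply, Finset.sum_sub_distrib, c8_sum_single, Finset.mem_filter,
      Finset.mem_range]
    by_cases hb : I q = b
    · rw [if_pos ⟨by omega, by rw [hI, hb]⟩, if_pos ⟨hq, hb⟩]
      omega
    · rw [if_neg (fun h : p < K ∧ I p = b => hb (by rw [← hI, h.2])),
        if_neg (fun h : q < K ∧ I q = b => hb h.2)]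
      omega

theorem c8_Dl_all (K : ℕ) (I : ℕ → Bool) (b : Bool) :
    ∀ w ∈ (Dl K I).coeff.support, w ∈ c8_cone K I b := by
  classical
  have key : ∀ f g : Lau, (∀ w ∈ f.coeff.support, w ∈ c8_cone K I b) →
      (∀ w ∈ g.coeff.support, w ∈ c8_cone K I b) →
      (∀ w ∈ (f * g).coeff.support, w ∈ c8_cone K I b) := by
    intro f g hf hg w hw
    have h1 := AddMonoidAlgebra.support_coeff_mul_subset f g hw
    rw [Finset.mem_add] at h1
    obtain ⟨u, hu, v, hv, rfl⟩ := h1
    exact c8_cone_add (hf u hu) (hg v hv)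
  have one : ∀ w ∈ (1 : Lau).coeff.support, w ∈ c8_cone K I b := by
    have h1 : ∀ w, (1 : Lau).coeff w = Finsupp.single (0 : Ex) (1 : ℤ) w := fun w => rfl
    intro w hw
    rw [Finsupp.mem_support_iff, h1, Finsupp.single_apply] at hw
    have h2 : (0 : Ex) = w := by
      by_contra h3
      exact hw (if_neg h3)
    rw [← h2]
    exact c8_cone_zero K I b
  unfold Dl
  refine Finset.prod_induction _ (fun f : Lau => ∀ w ∈ f.coeff.support, w ∈ c8_cone K I b) key
    one fun q hq => ?_
  refine Finset.prod_induction _ (fun f : Lau => ∀ w ∈ f.coeff.support, w ∈ c8_cone K I b) key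
    one fun p hp => ?_
  rw [Finset.mem_range] at hq hp
  split_ifs with h
  · intro w hw
    have h1 : (1 - mono (Pi.single p 1 - Pi.single q 1) : Lau).coeff w =
        (1 : Lau).coeff w - (mono (Pi.single p 1 - Pi.single q 1)).coeff w := rfl
    rw [Finsupp.mem_support_iff, h1] at hw
    by_cases h2 : (1 : Lau).coeff w = 0
    · have h5 : (mono (Pi.single p 1 - Pi.single q 1)).coeff w =
          Finsupp.single (Pi.single p 1 - Pi.single q 1 : Ex) (1 : ℤ) w := rfl
      rw [h2, zero_sub, neg_ne_zero, h5, Finsupp.single_apply] at hw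
      have h3 : (Pi.single p 1 - Pi.single q 1 : Ex) = w := by
        by_contra h4
        exact hw (if_neg h4)
      rw [← h3]
      exact c8_cone_root hp hq h
    · exact one w (Finsupp.mem_support_iff.2 h2)
  · exact one

/-- The monomials of `Dl` have nonnegative prefix sums inside every colour. -/
theorem Dl_support {K : ℕ} {I : ℕ → Bool} {u : Ex} (hu : (Dl K I).coeff u ≠ 0) (b : Bool) :
    (∀ k ≤ K, 0 ≤ ∑ p ∈ (Finset.range k).filter (fun p => I p = b), u p) ∧
      ∑ p ∈ (Finset.range K).filter (fun p => I p = b), u p = 0 ∧ ∀ p, K ≤ p → u p = 0 := by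
  have h := Finsupp.mem_support_iff.2 hu
  have h1 := c8_Dl_all K I b u h
  exact ⟨h1.1, h1.2, (Dl_supp h).2.2⟩

theorem Dl_coeff_zero (K : ℕ) (I : ℕ → Bool) : (Dl K I).coeff 0 = 1 := by
  have h := el_one K I
  rwa [el_apply, one_mul] at h

open Classical in
/-- The constant terms for decreasing exponents. -/
theorem el_mono {K : ℕ} {I : ℕ → Bool} {v : Ex} (hv : Cdec K I v) :
    el K I (mono v) = if v = 0 then 1 else 0 := by
  split_ifs with h0
  · rw [h0, mono_zero, el_one]
  · have h1 : el K I (mono v) = (Dl K I).coeff (-v) := by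
      have h2 : ∀ w : Ex, (mono v).coeff w = Finsupp.single v (1 : ℤ) w := fun w => rfl
      rw [el_apply, AddMonoidAlgebra.coeff_mul_apply_left, Finsupp.sum,
        Finset.sum_eq_single (v : Ex)]
      · rw [h2, Finsupp.single_eq_same, one_mul, add_zero]
      · intro w hw hwv
        rw [h2, Finsupp.single_eq_of_ne hwv, zero_mul]
      · intro hv'
        rw [Finsupp.notMem_support_iff] at hv'
        rw [hv', zero_mul]
    rw [h1]
    by_contra hne
    apply h0
    have hpos : ∀ p, p < K → v p ≤ 0 := by
      intro p hp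
      by_contra hvp
      have h3 := (Dl_support hne (I p)).1 (p + 1) hp
      simp only [Pi.neg_apply, Finset.sum_neg_distrib] at h3
      have h4 : 0 < ∑ r ∈ (Finset.range (p + 1)).filter (fun r => I r = I p), v r := by
        refine Finset.sum_pos (fun r hr => ?_) ⟨p, ?_⟩
        · rw [Finset.mem_filter, Finset.mem_range] at hr
          by_cases hrp : r = p
          · rw [hrp]
            omega
          · have h5 := hv.1 r p (by omega) hp hr.2
            omega
        · rw [Finset.mem_filter, Finset.mem_range]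
          exact ⟨by omega, rfl⟩
      omega
    funext p
    by_cases hp : p < K
    · have h3 := (Dl_support hne (I p)).2.1
      simp only [Pi.neg_apply, Finset.sum_neg_distrib, neg_eq_zero] at h3
      rw [Finset.sum_eq_zero_iff_of_nonpos] at h3
      · exact h3 p (Finset.mem_filter.2 ⟨Finset.mem_range.2 hp, rfl⟩)
      · intro r hr
        rw [Finset.mem_filter, Finset.mem_range] at hr
        exact hpos r hr.1
    · exact hv.2 p (not_lt.1 hp)

/-- A vector `v - 1_A` which is not decreasing inside the colours has a bad consecutive pair. -/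
theorem exists_bad {K : ℕ} {I : ℕ → Bool} {v : Ex} (hv : Cdec K I v) {A : Finset ℕ}
    (hA : A ⊆ Finset.range K) (h : ¬ Cdec K I (sub v A)) :
    ∃ p q, p < q ∧ q < K ∧ I p = I q ∧ (∀ r, p < r → r < q → I r ≠ I p) ∧
      sub v A q = sub v A p + 1 := by
  have hsub : ∀ p, sub v A p ≤ v p ∧ v p ≤ sub v A p + 1 := by
    intro p
    unfold sub
    split_ifs
    · constructor <;> omega
    · constructor <;> omega
  have h0 : ∃ p q, p < q ∧ q < K ∧ I p = I q ∧ sub v A p < sub v A q := by
    by_contra hcon
    push Not at hcon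
    refine h ⟨fun p q hpq hq hI => hcon p q hpq hq hI, fun p hp => ?_⟩
    unfold sub
    rw [if_neg (fun hm => absurd (Finset.mem_range.1 (hA hm)) (not_lt.2 hp)), hv.2 p hp]
  have key : ∀ d p q, q - p ≤ d → p < q → q < K → I p = I q → sub v A p < sub v A q →
      ∃ p q, p < q ∧ q < K ∧ I p = I q ∧ (∀ r, p < r → r < q → I r ≠ I p) ∧
        sub v A p < sub v A q := by
    intro d
    induction d with
    | zero =>
      intro p q hd hpq
      omega
    | succ d ih =>
      intro p q hd hpq hq hI hlt
      by_cases hc : ∀ r, p < r → r < q → I r ≠ I p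
      · exact ⟨p, q, hpq, hq, hI, hc, hlt⟩
      · push Not at hc
        obtain ⟨r, h1, h2, h3⟩ := hc
        by_cases hr : sub v A p < sub v A r
        · exact ih p r (by omega) h1 (h2.trans hq) h3.symm hr
        · exact ih r q (by omega) h2 hq (h3.trans hI) (lt_of_le_of_lt (not_lt.1 hr) hlt)
  obtain ⟨p, q, h1, h2, h3, h4⟩ := h0
  obtain ⟨p, q, h1, h2, h3, hc, h4⟩ := key (q - p) p q le_rfl h1 h2 h3 h4
  refine ⟨p, q, h1, h2, h3, hc, ?_⟩
  have h5 := hv.1 p q h1 h2 h3
  have h6 := hsub p
  have h7 := hsub q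
  omega

/-- `el` of `x^v ∏ (1 + 1/x_p)^n` is the number of the sequences. -/
theorem el_chist {K : ℕ} {I : ℕ → Bool} (n : ℕ) {v : Ex} (hv : Cdec K I v) :
    el K I (mono v * EE K ^ n) = ((chist K I n v).card : ℤ) := by
  classical
  induction n generalizing v with
  | zero =>
    rw [pow_zero, mul_one, el_mono hv]
    unfold chist
    split_ifs
    · rw [Finset.card_singleton, Nat.cast_one]
    · rw [Finset.card_empty, Nat.cast_zero]
  | succ n ih =>
    have h1 : el K I (mono v * EE K ^ (n + 1)) = ∑ A ∈ (Finset.range K).powerset,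
        el K I (mono (sub v A) * EE K ^ n) := by
      rw [pow_succ', ← mul_assoc, mono_mul_EE, Finset.sum_mul, map_sum]
    have h2 : ∀ A ∈ (Finset.range K).powerset, el K I (mono (sub v A) * EE K ^ n) =
        if Cdec K I (sub v A) then ((chist K I n (sub v A)).card : ℤ) else 0 := by
      intro A hA
      split_ifs with h
      · exact ih h
      · obtain ⟨p, q, hpq, hq, hI, hc, hw⟩ := exists_bad hv (Finset.mem_powerset.1 hA) h
        refine el_kill hpq hq hI hc hw ?_
        rw [map_pow, sA_EE (hpq.trans hq) hq]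
    rw [h1, Finset.sum_congr rfl h2, card_chist_succ, Nat.cast_sum, csteps, Finset.sum_filter,
      Finset.sum_image fun A _ B _ h => c3_sub_inj v h]

end MP967.Cnt
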