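import Pool.Agent.Lib.MP_967fd7_co.Cnt.ContrA

/-! The contraction of the slots `0`, `1`. -/

namespace MP967.Cnt

private theorem cn_el_pos {n : ℕ} {I : ℕ → Bool} {w : Ex} (h : 0 < w 0 + w 1) :
    el (n + 2) I (mono w) = 0 := by
  classical
  refine el_prefix I 2 fun v hv => ?_
  have h1 : v = w := by
    unfold mono at hv
    rw [AddMonoidAlgebra.coeff_single] at hv
    exact Finset.mem_singleton.1 (Finsupp.support_single_subset hv)
  rw [h1, Finset.sum_range_succ, Finset.sum_range_one]
  exact h

private theorem cn_cons (M : ℤ) (v : Ex) (k : ℤ) :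
    cons M v - k • al 0 = cons (M - k) (cons (v 0 + k) (tl v)) := by
  funext p
  rcases p with _ | _ | p
  · change M - (k • al 0) 0 = M - k
    simp [al, Pi.single_apply]
  · change v 0 - (k • al 0) 1 = v 0 + k
    simp [al, Pi.single_apply]
  · change v (p + 1) - (k • al 0) (p + 1 + 1) = v (p + 1)
    simp [al, Pi.single_apply]

private theorem cn_cons' (M : ℤ) (v : Ex) (k : ℤ) :
    cons M v + k • al 0 = cons (M + k) (cons (v 0 - k) (tl v)) := by
  funext p
  rcases p with _ | _ | p
  · change M + (k • al 0) 0 = M + k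
    simp [al, Pi.single_apply]
  · change v 0 + (k • al 0) 1 = v 0 - k
    simp [al, Pi.single_apply]
    ring
  · change v (p + 1) + (k • al 0) (p + 1 + 1) = v (p + 1)
    simp [al, Pi.single_apply]

private theorem cn_mono {n : ℕ} {I : ℕ → Bool} (hI : I 0 ≠ I 1) {M : ℤ} (hM : 0 < M) {v : Ex}
    (hv : -M ≤ v 0) :
    el (n + 2) I (pi 0 (consL M (mono v))) = el n (fun p => I (p + 2)) (cf 0 (-M) (mono v)) := by
  classical
  have hpi : pi 0 (mono (cons M v)) = piM 0 (cons M v) := by
    simp [pi, lin, mono]
  have hcf : cf 0 (-M) (mono v) = if v 0 = -M then mono (rem 0 v) else 0 := by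
    simp [cf, lin, mono]
  have hrem : rem 0 v = tl v := by
    funext p
    unfold rem tl
    rw [if_neg (Nat.not_lt_zero p)]
  have e0 : cons M v 0 = M := rfl
  have e1 : cons M v (0 + 1) = v 0 := rfl
  rw [consL_mono, hpi, hcf, hrem]
  unfold piM
  rw [e0, e1]
  by_cases h : v 0 = -M
  · rw [if_pos h, if_pos (by omega), map_sum]
    have h1 : ∀ k ∈ Finset.range ((M - v 0).toNat + 1),
        el (n + 2) I (mono (cons M v - (k : ℤ) • al 0)) =
          if k = M.toNat then el n (fun p => I (p + 2)) (mono (tl v)) else 0 := by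
      intro k _
      have h2 : v 0 + (k : ℤ) = -(M - k) := by
        rw [h]
        ring
      rw [cn_cons, h2, el_two hI]
      by_cases h3 : k = M.toNat
      · rw [if_pos h3, if_pos (by omega)]
      · rw [if_neg h3, if_neg (by omega)]
    rw [Finset.sum_congr rfl h1, Finset.sum_ite_eq', if_pos]
    rw [Finset.mem_range]
    omega
  · rw [if_neg h, map_zero]
    split_ifs with h4
    · rw [map_sum]
      refine Finset.sum_eq_zero fun k _ => ?_
      rw [cn_cons]
      refine cn_el_pos ?_
      change 0 < (M - k) + (v 0 + k)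
      omega
    · rw [map_neg, map_sum, Finset.sum_eq_zero, neg_zero]
      intro k _
      rw [cn_cons']
      refine cn_el_pos ?_
      change 0 < (M + (k + 1)) + (v 0 - (k + 1))
      omega

/-- Paper: `M + m > 0` and `M + m = 0` together. -/
theorem el_contract {n : ℕ} {I : ℕ → Bool} (hI : I 0 ≠ I 1) {M : ℤ} (hM : 0 < M) {g : Lau}
    (hg : ∀ v ∈ g.coeff.support, -M ≤ v 0) :
    el (n + 2) I (pi 0 (consL M g)) = el n (fun p => I (p + 2)) (cf 0 (-M) g) := by
  classical
  have h1 : ∀ (s : Finset Ex) (c : Ex → ℤ), (∀ v ∈ s, -M ≤ v 0) →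
      el (n + 2) I (pi 0 (consL M (∑ v ∈ s, c v • mono v))) =
        el n (fun p => I (p + 2)) (cf 0 (-M) (∑ v ∈ s, c v • mono v)) := by
    intro s c hs
    induction s using Finset.induction_on with
    | empty =>
      rw [Finset.sum_empty]
      have h2 : consL M 0 = 0 := by
        unfold consL
        rw [map_zero, mul_zero]
      rw [h2, map_zero, map_zero, map_zero, map_zero]
    | insert a s ha ih =>
      rw [Finset.sum_insert ha, consL_add, consL_smul, map_add, map_add, map_add, map_add,
        map_smul, map_smul, map_smul, map_smul, cn_mono hI hM (hs a (Finset.mem_insert_self a s)),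
        ih fun v hv => hs v (Finset.mem_insert_of_mem hv)]
  have h2 : g = ∑ v ∈ g.coeff.support, g.coeff v • mono v := by
    conv_lhs => rw [← AddMonoidAlgebra.sum_coeff_single g]
    rw [Finsupp.sum]
    refine Finset.sum_congr rfl fun v _ => ?_
    unfold mono
    rw [AddMonoidAlgebra.smul_single, smul_eq_mul, mul_one]
  have h3 := h1 g.coeff.support (fun v => g.coeff v) hg
  rwa [← h2] at h3

end MP967.Cnt
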