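import Pool.Agent.Lib.MP_967fd7_co.Cnt.Mon

/-! `Mon C` and supports. -/

namespace MP967.Cnt

theorem mem_Mon_of_supp {C : Set Ex} {f : Lau} (h : ∀ v ∈ f.coeff.support, v ∈ C) :
    f ∈ Mon C := by
  have h1 : f = f.coeff.support.sum fun v => f.coeff v • mono v := by
    have h2 : ∀ v, f.coeff v • mono v = AddMonoidAlgebra.single v (f.coeff v) := by
      intro v
      simp [mono]
    simp only [h2]
    exact (AddMonoidAlgebra.sum_single f).symm
  rw [h1]
  exact Submodule.sum_mem _ fun v hv => Submodule.smul_mem _ _ (mono_mem (h v hv))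

theorem supp_of_mem_Mon {C : Set Ex} {f : Lau} (h : f ∈ Mon C) :
    ∀ v ∈ f.coeff.support, v ∈ C := by
  intro v hv
  by_contra hc
  have h1 : ((Finsupp.lapply v).comp (AddMonoidAlgebra.coeffLinearEquiv ℤ).toLinearMap :
      Lau →ₗ[ℤ] ℤ) f = 0 := by
    refine Mon_eq_zero _ (fun u hu => ?_) h
    have huv : u ≠ v := fun e => hc (e ▸ hu)
    simp [mono, Finsupp.single_apply, huv]
  have h2 : f.coeff v = 0 := h1
  exact (Finsupp.mem_support_iff.1 hv) h2

theorem mem_Mon_iff {C : Set Ex} {f : Lau} : f ∈ Mon C ↔ ∀ v ∈ f.coeff.support, v ∈ C :=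
  ⟨supp_of_mem_Mon, mem_Mon_of_supp⟩

end MP967.Cnt
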