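import Pool.Agent.Lib.MP_967fd7_co.Cnt.Lau
import Pool.Agent.Lib.MP_967fd7_co.Cnt.Brd

/-!
Words: extraction of the maximum and of the minimum (paper: `/team-store/h69_count.md`, (2), (2')).
-/

namespace MP967.Cnt

/-- The operators on pairs. -/
noncomputable def PS (i : ℕ) (x : Lau × Set Ex) : Lau × Set Ex := (pi i x.1, So i x.2)

theorem So_So (i : ℕ) (T : Set Ex) : So i (So i T) = So i T := S_S i T

theorem So_comm (i j : ℕ) (h : i + 1 < j) (T : Set Ex) : So i (So j T) = So j (So i T) :=
  S_comm i j h T

theorem So_braid (i : ℕ) (T : Set Ex) :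
    So i (So (i + 1) (So i T)) = So (i + 1) (So i (So (i + 1) T)) := S_braid i T

theorem So_image {φ : Ex → Ex} {i k : ℕ} (h : ∀ v, sw i (φ v) = φ (sw k v)) (T : Set Ex) :
    So i (φ '' T) = φ '' So k T := by
  rw [So, So, Set.image_union, Set.image_image, Set.image_image]
  congr 1
  exact Set.image_congr fun v _ => h v

theorem So_mono (i : ℕ) {T T' : Set Ex} (h : T ⊆ T') : So i T ⊆ So i T' :=
  Set.union_subset_union h (Set.image_mono h)

theorem PS_hecke : Hecke PS where
  idem i x := by
    rw [PS, PS]
    simp only [pi_pi, So_So]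
  comm i j h x := by
    simp only [PS, pi_comm i j h, So_comm i j h]
  braid i x := by
    simp only [PS, pi_braid, So_braid]

theorem up_PS (j : ℕ) (f : Lau) (T : Set Ex) : up PS j (f, T) = (piUp j f, swUp j T) := by
  induction j with
  | zero => rfl
  | succ j ih => rw [up, ih, PS, piUp, swUp]

theorem dn_PS (j k : ℕ) (f : Lau) (T : Set Ex) : dn PS j k (f, T) = (piDn j k f, swDn j k T) := by
  induction k generalizing j with
  | zero => rfl
  | succ k ih => rw [dn, ih, PS, piDn, swDn]

/-- The exponent with only the slots `< N` kept. -/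
def tr (N : ℕ) (D : Ex) : Ex := fun p => if p < N then D p else 0

theorem cons_tl (D : Ex) : cons (D 0) (tl D) = D := by
  funext p
  cases p with
  | zero => rfl
  | succ p => rfl

/-- Extraction of the maximum (the slot `0` of the start). -/
theorem W.extract_max {N : ℕ} {D : Ex} {f : Lau} {T : Set Ex} (h : W (N + 1) D f T) :
    ∃ j ≤ N, ∃ g T', W N (tl D) g T' ∧ f = piUp j (consL (D 0) g) ∧
      T = swUp j (cons (D 0) '' T') := by
  induction h with
  | base =>
    refine ⟨0, Nat.zero_le _, mono (tl D), {tl D}, W.base, ?_, ?_⟩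
    · rw [piUp, consL_mono, cons_tl]
    · rw [swUp, Set.image_singleton, cons_tl]
  | step i hi _ ih =>
    obtain ⟨j, hj, g, T', hW, hf, hT⟩ := ih
    rename_i f0 T0 _
    have hx : PS i (f0, T0) = PS i (up PS j (consL (D 0) g, cons (D 0) '' T')) := by
      rw [up_PS, ← hf, ← hT]
    rcases PS_hecke.up_step (N + 1) i j hi (by omega) (consL (D 0) g, cons (D 0) '' T') with
      ⟨j', hj', he⟩ | ⟨k, hk, he⟩
    · rw [he, up_PS] at hx
      exact ⟨j', by omega, g, T', hW, congrArg Prod.fst hx, congrArg Prod.snd hx⟩
    · have h2 : PS (k + 1) (consL (D 0) g, cons (D 0) '' T')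
          = (consL (D 0) (pi k g), cons (D 0) '' So k T') := by
        rw [PS]
        simp only [consL_pi]
        rw [So_image (fun v => sw_cons k (D 0) v)]
      rw [he, h2, up_PS] at hx
      exact ⟨j, hj, pi k g, So k T', W.step k (by omega) hW, congrArg Prod.fst hx,
        congrArg Prod.snd hx⟩

theorem tr_add (N : ℕ) (D : Ex) (hD : ∀ p, N < p → D p = 0) :
    tr N D + Pi.single N (D N) = D := by
  funext p
  simp only [tr, Pi.add_apply, Pi.single_apply]
  rcases lt_trichotomy p N with h | h | h
  · simp [h, h.ne]
  · subst h; simp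
  · rw [if_neg (by omega), if_neg (by omega), hD p h, add_zero]

/-- Extraction of the minimum (the last slot of the start). -/
theorem W.extract_min {N : ℕ} {D : Ex} {f : Lau} {T : Set Ex} (hD : ∀ p, N < p → D p = 0)
    (h : W (N + 1) D f T) :
    ∃ j ≤ N, ∃ z T', W N (tr N D) z T' ∧ f = piDn j (N - j) (z * mono (Pi.single N (D N))) ∧
      T = swDn j (N - j) ((fun v => v + Pi.single N (D N)) '' T') := by
  induction h with
  | base =>
    refine ⟨N, le_rfl, mono (tr N D), {tr N D}, W.base, ?_, ?_⟩
    · rw [Nat.sub_self, piDn, mono_mul, tr_add N D hD]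
    · rw [Nat.sub_self, swDn, Set.image_singleton, tr_add N D hD]
  | step i hi _ ih =>
    obtain ⟨j, hj, z, T', hW, hf, hT⟩ := ih
    rename_i f0 T0 _
    set m := D N with hm
    have hx : PS i (f0, T0) = PS i (dn PS j (N - j)
        (z * mono (Pi.single N m), (fun v => v + Pi.single N m) '' T')) := by
      rw [dn_PS, ← hf, ← hT]
    rcases PS_hecke.dn_step N i j (by omega) hj
        (z * mono (Pi.single N m), (fun v => v + Pi.single N m) '' T') with
      ⟨j', hj', he⟩ | ⟨k, hk, he⟩
    · rw [he, dn_PS] at hx
      exact ⟨j', by omega, z, T', hW, congrArg Prod.fst hx, congrArg Prod.snd hx⟩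
    · have h2 : PS k (z * mono (Pi.single N m), (fun v => v + Pi.single N m) '' T')
          = (pi k z * mono (Pi.single N m),
              (fun v => v + Pi.single N m) '' So k T') := by
        have hs : ∀ v, sw k (v + Pi.single N m) = sw k v + Pi.single N m := by
          intro v
          funext p
          simp only [sw, Pi.add_apply, Pi.single_apply, Equiv.swap_apply_def]
          congr 1
          split_ifs <;> first | rfl | omega
        rw [PS]
        simp only
        have hs2 : So k ((fun v : Ex => v + Pi.single N m) '' T')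
            = (fun v : Ex => v + Pi.single N m) '' So k T' :=
          So_image (φ := fun v : Ex => v + Pi.single N m) hs T'
        rw [hs2]
        congr 1
        rw [mul_comm, pi_mul_mono _ _ (by simp [Pi.single_apply]; omega), mul_comm]
      rw [he, h2, dn_PS] at hx
      exact ⟨j, hj, pi k z, So k T', W.step k (by omega) hW, congrArg Prod.fst hx,
        congrArg Prod.snd hx⟩

end MP967.Cnt
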