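import Pool.Agent.Lib.MP_967fd7_co.Cnt.Mon
import Pool.Agent.Lib.MP_967fd7_co.Cnt.MonX
import Pool.Agent.Lib.MP_967fd7_co.Cnt.Wrd

/-! Small facts used by the other files. -/

namespace MP967.Cnt

theorem subset_So (i : ℕ) (T : Set Ex) : T ⊆ So i T := Set.subset_union_left

theorem consL_smul (M c : ℤ) (f : Lau) : consL M (c • f) = c • consL M f := by
  rw [consL, map_smul, mul_smul_comm, consL]

theorem Dec_tl {N : ℕ} {D : Ex} (hD : Dec (N + 1) D) : Dec N (tl D) :=
  ⟨fun p hp => hD.1 (p + 1) (by omega), fun p hp => hD.2 (p + 1) (by omega)⟩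

private theorem supp_mono {v w : Ex} (h : (mono v).coeff w ≠ 0) : v = w := by
  by_contra hne
  apply h
  rw [mono, AddMonoidAlgebra.coeff_single, Finsupp.single_eq_of_ne (fun h => hne h.symm)]

private theorem supp_sum {s : Finset ℕ} {g : ℕ → Ex} {w : Ex}
    (h : (∑ k ∈ s, mono (g k)).coeff w ≠ 0) : ∃ k ∈ s, g k = w := by
  rw [AddMonoidAlgebra.coeff_sum, Finsupp.finsetSum_apply] at h
  obtain ⟨k, hk, hk'⟩ := Finset.exists_ne_zero_of_sum_ne_zero h
  exact ⟨k, hk, supp_mono hk'⟩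

private theorem al_left (i : ℕ) : al i i = 1 := by
  simp [al]

private theorem al_right (i : ℕ) : al i (i + 1) = -1 := by
  simp [al]

private theorem al_other {i p : ℕ} (h1 : p ≠ i) (h2 : p ≠ i + 1) : al i p = 0 := by
  simp [al, h1, h2]

/-- The exponents in `pi i (mono v)`. -/
theorem piM_supp {i : ℕ} {v w : Ex} (h : w ∈ (piM i v).coeff.support) :
    ∃ k : ℤ, w = v - k • al i ∧ min (v i) (v (i + 1)) ≤ w i ∧ min (v i) (v (i + 1)) ≤ w (i + 1) ∧
      w i + w (i + 1) = v i + v (i + 1) ∧ ∀ p, p ≠ i → p ≠ i + 1 → w p = v p := by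
  rw [Finsupp.mem_support_iff] at h
  have key : ∀ k : ℤ, w = v - k • al i → w i = v i - k ∧ w (i + 1) = v (i + 1) + k ∧
      ∀ p, p ≠ i → p ≠ i + 1 → w p = v p := by
    rintro k rfl
    refine ⟨?_, ?_, fun p h1 h2 => ?_⟩
    · rw [Pi.sub_apply, Pi.smul_apply, al_left, smul_eq_mul, mul_one]
    · rw [Pi.sub_apply, Pi.smul_apply, al_right, smul_eq_mul]
      ring
    · rw [Pi.sub_apply, Pi.smul_apply, al_other h1 h2, smul_zero, sub_zero]
  unfold piM at h
  split_ifs at h with hle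
  · obtain ⟨k, hk, hk'⟩ := supp_sum h
    rw [Finset.mem_range] at hk
    obtain ⟨h1, h2, h3⟩ := key k hk'.symm
    refine ⟨k, hk'.symm, ?_, ?_, ?_, h3⟩
    · rw [h1, min_eq_right hle]
      omega
    · rw [h2, min_eq_right hle]
      omega
    · rw [h1, h2]
      ring
  · have h' : (∑ k ∈ Finset.range ((v (i + 1) - v i).toNat - 1),
        mono (v + ((k : ℤ) + 1) • al i)).coeff w ≠ 0 := by
      intro h0
      apply h
      rw [AddMonoidAlgebra.coeff_neg, Finsupp.neg_apply, h0, neg_zero]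
    obtain ⟨k, hk, hk'⟩ := supp_sum h'
    rw [Finset.mem_range] at hk
    have hw : w = v - (-((k : ℤ) + 1)) • al i := by
      rw [← hk', neg_smul, sub_neg_eq_add]
    obtain ⟨h1, h2, h3⟩ := key _ hw
    refine ⟨_, hw, ?_, ?_, ?_, h3⟩
    · rw [h1, min_eq_left (by omega)]
      omega
    · rw [h2, min_eq_left (by omega)]
      omega
    · rw [h1, h2]
      ring

/-- A property of exponents which is inherited by `pi i`. -/
theorem pi_supp {i : ℕ} {f : Lau} {P : Ex → Prop} (hf : ∀ v ∈ f.coeff.support, P v)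
    (hP : ∀ v w, P v → w ∈ (piM i v).coeff.support → P w) :
    ∀ w ∈ (pi i f).coeff.support, P w := by
  intro w hw
  have hpi : pi i f = ∑ v ∈ f.coeff.support, f.coeff v • piM i v := rfl
  rw [Finsupp.mem_support_iff, hpi, AddMonoidAlgebra.coeff_sum, Finsupp.finsetSum_apply] at hw
  obtain ⟨v, hv, hv'⟩ := Finset.exists_ne_zero_of_sum_ne_zero hw
  refine hP v w (hf v hv) ?_
  rw [Finsupp.mem_support_iff]
  intro h0
  apply hv'
  rw [AddMonoidAlgebra.coeff_smul_apply, h0, smul_zero]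

/-- All exponents in a word are at least the smallest entry of `D`. -/
theorem W_supp {N : ℕ} {D : Ex} {f : Lau} {Th : Set Ex} (h : W N D f Th) {lo : ℤ}
    (hlo : ∀ p < N, lo ≤ D p) (hz : ∀ p, N ≤ p → D p = 0) :
    ∀ v ∈ f.coeff.support, (∀ p < N, lo ≤ v p) ∧ ∀ p, N ≤ p → v p = 0 := by
  induction h with
  | base =>
    intro v hv
    rw [Finsupp.mem_support_iff] at hv
    rw [← supp_mono hv]
    exact ⟨hlo, hz⟩
  | step i hi _ ih =>
    refine pi_supp (P := fun v => (∀ p < N, lo ≤ v p) ∧ ∀ p, N ≤ p → v p = 0) ih ?_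
    rintro v w ⟨h1, h2⟩ hw
    obtain ⟨_, _, h3, h4, _, h5⟩ := piM_supp hw
    have hmin : lo ≤ min (v i) (v (i + 1)) := le_min (h1 i (by omega)) (h1 (i + 1) hi)
    refine ⟨fun p hp => ?_, fun p hp => ?_⟩
    · by_cases hp1 : p = i
      · rw [hp1]
        exact hmin.trans h3
      · by_cases hp2 : p = i + 1
        · rw [hp2]
          exact hmin.trans h4
        · rw [h5 p hp1 hp2]
          exact h1 p hp
    · rw [h5 p (by omega) (by omega)]
      exact h2 p hp

theorem Dec_le {N : ℕ} {D : Ex} (hD : Dec N D) {p q : ℕ} (hpq : p ≤ q) (hq : q < N) :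
    D q ≤ D p := by
  induction q, hpq using Nat.le_induction with
  | base => exact le_refl _
  | succ q _ ih => exact (hD.1 q hq).trans (ih (by omega))

private theorem sw_zero (i : ℕ) : sw i 0 = 0 := rfl

private theorem pi_one (i : ℕ) : pi i 1 = 1 := by
  have h : (1 : Lau) = mono 0 := mono_zero.symm
  rw [h, pi_mono]
  unfold piM
  simp

/-- The word on the zero exponent. -/
theorem W_zero {N : ℕ} {f : Lau} {Th : Set Ex} (h : W N 0 f Th) : f = 1 ∧ Th = {0} := by
  induction h with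
  | base => exact ⟨mono_zero, rfl⟩
  | step i hi _ ih =>
    obtain ⟨h1, h2⟩ := ih
    refine ⟨by rw [h1, pi_one], ?_⟩
    rw [h2, So, Set.image_singleton, sw_zero, Set.union_self]

end MP967.Cnt
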