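import Pool.Agent.Lib.MP_967fd7_co.Cnt.CtC
import Pool.Agent.Lib.MP_967fd7_co.Cnt.Supp

/-! The contraction of the slots `0`, `1`: monomials. -/

namespace MP967.Cnt

private theorem ct_ind {p : Lau → Prop} (f : Lau) (hm : ∀ v, p (mono v)) (h0 : p 0)
    (ha : ∀ f g, p f → p g → p (f + g)) (hn : ∀ f, p f → p (-f)) : p f :=
  Gen.lau_induction f hm h0 ha hn

private theorem ct_mul (u v : Ex) : mono u * mono v = mono (u + v) := Gen.mon_mul u v

private theorem ct_one : mono 0 = 1 := rfl

private theorem ct_shift (v : Ex) : shiftA (mono v) = mono (cons 0 v) := by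
  simp [shiftA, mono]

open Classical in
private theorem ct_coeff (v : Ex) : (mono v).coeff 0 = if v = 0 then 1 else 0 := by
  unfold mono
  rw [AddMonoidAlgebra.coeff_single, Finsupp.single_apply]

private theorem cons_add (a b : ℤ) (u v : Ex) : cons a u + cons b v = cons (a + b) (u + v) := by
  funext p
  cases p <;> rfl

private theorem cons_eq_zero (a : ℤ) (v : Ex) : cons a v = 0 ↔ a = 0 ∧ v = 0 := by
  constructor
  · intro h
    refine ⟨congrFun h 0, ?_⟩
    funext p
    exact congrFun h (p + 1)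
  · rintro ⟨rfl, rfl⟩
    funext p
    cases p <;> rfl

private theorem ct_shift_zero (f : Lau) : (shiftA f).coeff 0 = f.coeff 0 := by
  refine ct_ind (p := fun f => (shiftA f).coeff 0 = f.coeff 0) f ?_ ?_ ?_ ?_
  · intro v
    rw [ct_shift, ct_coeff, ct_coeff]
    by_cases hv : v = 0
    · rw [if_pos hv, if_pos ((cons_eq_zero 0 v).2 ⟨rfl, hv⟩)]
    · rw [if_neg hv, if_neg fun h => hv ((cons_eq_zero 0 v).1 h).2]
  · simp
  · intro f g hf hg
    rw [map_add, AddMonoidAlgebra.coeff_add, AddMonoidAlgebra.coeff_add, Finsupp.add_apply,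
      Finsupp.add_apply, hf, hg]
  · intro f hf
    rw [map_neg, AddMonoidAlgebra.coeff_neg, AddMonoidAlgebra.coeff_neg, Finsupp.neg_apply,
      Finsupp.neg_apply, hf]

/-- the span of the monomials with positive prefix sum -/
private noncomputable def Sp : Submodule ℤ Lau := Submodule.span ℤ {f | ∃ e : Ex, 0 < e 0 + e 1 ∧ f = mono e}

private theorem Sp_mul {f g : Lau} (hf : f ∈ Sp) (hg : g ∈ Sp) : f * g ∈ Sp := by
  have h1 : Sp * Sp ≤ Sp := by
    unfold Sp
    rw [Submodule.span_mul_span, Submodule.span_le]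
    rintro _ ⟨_, ⟨e, he, rfl⟩, _, ⟨e', he', rfl⟩, rfl⟩
    refine Submodule.subset_span ⟨e + e', ?_, ct_mul e e'⟩
    rw [Pi.add_apply, Pi.add_apply]
    omega
  exact h1 (Submodule.mul_mem_mul hf hg)

private def P1 (f : Lau) : Prop := ∃ g ∈ Sp, f = 1 + g

private theorem P1_one : P1 1 := ⟨0, Sp.zero_mem, (add_zero 1).symm⟩

private theorem P1_mul {f g : Lau} (hf : P1 f) (hg : P1 g) : P1 (f * g) := by
  obtain ⟨a, ha, rfl⟩ := hf
  obtain ⟨b, hb, rfl⟩ := hg
  refine ⟨a + b + a * b, Sp.add_mem (Sp.add_mem ha hb) (Sp_mul ha hb), ?_⟩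
  ring

private theorem P1_fac (e : Ex) (he : 0 < e 0 + e 1) : P1 (1 - mono e) :=
  ⟨-mono e, Sp.neg_mem (Submodule.subset_span ⟨e, he, rfl⟩), sub_eq_add_neg _ _⟩

private theorem P1_prod {ι : Type} (s : Finset ι) (f : ι → Lau) (h : ∀ i ∈ s, P1 (f i)) :
    P1 (∏ i ∈ s, f i) := by
  classical
  induction s using Finset.induction_on with
  | empty =>
    rw [Finset.prod_empty]
    exact P1_one
  | insert a s ha ih =>
    rw [Finset.prod_insert ha]
    exact P1_mul (h a (Finset.mem_insert_self a s)) (ih fun i hi => h i (Finset.mem_insert_of_mem hi))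

/-- positive exponents do not contribute -/
private theorem Sp_coeff {f : Lau} (hf : f ∈ Sp) (a : ℤ) (v : Ex) (h : Lau) :
    (mono (cons a (cons (-a) v)) * f * shiftA (shiftA h)).coeff 0 = 0 := by
  unfold Sp at hf
  induction hf using Submodule.span_induction with
  | mem x hx =>
    obtain ⟨e, he, rfl⟩ := hx
    refine ct_ind (p := fun h => (mono (cons a (cons (-a) v)) * mono e *
      shiftA (shiftA h)).coeff 0 = 0) h ?_ ?_ ?_ ?_
    · intro w
      rw [ct_shift, ct_shift, ct_mul, ct_mul, ct_coeff, if_neg]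
      intro h1
      have h2 := congrFun h1 0
      have h3 := congrFun h1 1
      have h4 : a + e 0 + 0 = 0 := h2
      have h5 : -a + e 1 + 0 = 0 := h3
      omega
    · simp
    · intro f g hf hg
      rw [map_add, map_add, mul_add, AddMonoidAlgebra.coeff_add, Finsupp.add_apply, hf, hg,
        add_zero]
    · intro f hf
      rw [map_neg, map_neg, mul_neg, AddMonoidAlgebra.coeff_neg, Finsupp.neg_apply, hf, neg_zero]
  | zero =>
    rw [mul_zero, zero_mul]
    rfl
  | add x y _ _ hx hy =>
    rw [mul_add, add_mul, AddMonoidAlgebra.coeff_add, Finsupp.add_apply, hx, hy, add_zero]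
  | smul c x _ hx =>
    rw [mul_smul_comm, smul_mul_assoc, AddMonoidAlgebra.coeff_smul, Finsupp.smul_apply, hx,
      smul_zero]

/-- the part without crossing factors -/
private theorem main_coeff (a : ℤ) (v : Ex) (h : Lau) :
    (mono (cons a (cons (-a) v)) * shiftA (shiftA h)).coeff 0 =
      if a = 0 then (mono v * h).coeff 0 else 0 := by
  by_cases ha : a = 0
  · subst ha
    rw [if_pos rfl, neg_zero, ← ct_shift, ← ct_shift, ← map_mul, ← map_mul, ct_shift_zero,
      ct_shift_zero]
  · rw [if_neg ha]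
    refine ct_ind (p := fun h => (mono (cons a (cons (-a) v)) *
      shiftA (shiftA h)).coeff 0 = 0) h ?_ ?_ ?_ ?_
    · intro w
      rw [ct_shift, ct_shift, ct_mul, ct_coeff, if_neg]
      intro h1
      have h2 := congrFun h1 0
      have h4 : a + 0 = 0 := h2
      omega
    · simp
    · intro f g hf hg
      rw [map_add, map_add, mul_add, AddMonoidAlgebra.coeff_add, Finsupp.add_apply, hf, hg,
        add_zero]
    · intro f hf
      rw [map_neg, map_neg, mul_neg, AddMonoidAlgebra.coeff_neg, Finsupp.neg_apply, hf, neg_zero]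

private theorem cons_single (p : ℕ) : cons 0 (Pi.single p 1) = Pi.single (p + 1) 1 := by
  funext q
  cases q with
  | zero =>
    rw [Pi.single_eq_of_ne (Nat.succ_ne_zero p).symm]
    rfl
  | succ q =>
    change (Pi.single p 1 : Ex) q = (Pi.single (p + 1) 1 : Ex) (q + 1)
    rw [Pi.single_apply, Pi.single_apply]
    simp only [Nat.add_right_cancel_iff]

private theorem cons_sub (u v : Ex) : cons 0 (u - v) = cons 0 u - cons 0 v := by
  funext p
  cases p <;> rfl

/-- the splitting of `Dl` -/
private theorem Dl_split (n : ℕ) (I : ℕ → Bool) (hI : I 0 ≠ I 1) :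
    ∃ f : Lau, P1 f ∧ Dl (n + 2) I = f * shiftA (shiftA (Dl n (fun p => I (p + 2)))) := by
  have hsh : shiftA (shiftA (Dl n (fun p => I (p + 2)))) = ∏ q ∈ Finset.range n,
      ∏ p ∈ Finset.range q, if I (p + 2) = I (q + 2) then
        1 - mono (Pi.single (p + 2) 1 - Pi.single (q + 2) 1) else 1 := by
    unfold Dl
    rw [map_prod, map_prod]
    refine Finset.prod_congr rfl fun q _ => ?_
    rw [map_prod, map_prod]
    refine Finset.prod_congr rfl fun p _ => ?_
    split_ifs
    · rw [map_sub, map_sub, map_one, map_one, ct_shift, ct_shift, cons_sub, cons_single,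
        cons_single, cons_sub, cons_single, cons_single]
    · rw [map_one, map_one]
  refine ⟨∏ q ∈ Finset.range n,
    ((if I 1 = I (q + 2) then 1 - mono (Pi.single 1 1 - Pi.single (q + 2) 1) else 1) *
      (if I 0 = I (q + 2) then 1 - mono (Pi.single 0 1 - Pi.single (q + 2) 1) else 1)), ?_, ?_⟩
  · refine P1_prod _ _ fun q _ => P1_mul ?_ ?_
    · split_ifs
      · refine P1_fac _ ?_
        simp [Pi.single_apply]
      · exact P1_one
    · split_ifs
      · refine P1_fac _ ?_
        simp [Pi.single_apply]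
      · exact P1_one
  · rw [hsh, ← Finset.prod_mul_distrib]
    unfold Dl
    rw [Finset.prod_range_succ', Finset.prod_range_succ', Finset.range_zero, Finset.prod_empty,
      mul_one, zero_add, Finset.range_one, Finset.prod_singleton, if_neg hI, mul_one]
    refine Finset.prod_congr rfl fun q _ => ?_
    rw [Finset.prod_range_succ', Finset.prod_range_succ', mul_assoc, mul_comm]

/-- Prefix sum `0` at `2`: only the factors of `Dl` which do not cross count. -/
theorem el_two {n : ℕ} {I : ℕ → Bool} (hI : I 0 ≠ I 1) (a : ℤ) (v : Ex) :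
    el (n + 2) I (mono (cons a (cons (-a) v))) =
      if a = 0 then el n (fun p => I (p + 2)) (mono v) else 0 := by
  obtain ⟨f, ⟨g, hg, rfl⟩, hf⟩ := Dl_split n I hI
  rw [el_apply, el_apply, hf, ← mul_assoc, mul_add, mul_one, add_mul, AddMonoidAlgebra.coeff_add,
    Finsupp.add_apply, Sp_coeff hg, add_zero, main_coeff]

end MP967.Cnt
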