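import Pool.Agent.Lib.MP_967fd7_co.Cnt.Lau

/-! The functional `el` (constant term of `f * Dl N I`). -/

namespace MP967.Cnt

theorem el_apply (N : ℕ) (I : ℕ → Bool) (f : Lau) : el N I f = (f * Dl N I).coeff 0 := rfl

/-- Constant terms are invariant under the automorphisms. -/
theorem coeff_zero_s (i : ℕ) (f : Lau) : (s i f).coeff 0 = f.coeff 0 := by
  unfold s
  rw [AddMonoidAlgebra.coeff_domCongr, map_zero]

/-- The factor of the pair `p < q`. -/
private noncomputable def fac (I : ℕ → Bool) (x : Σ _ : ℕ, ℕ) : Lau :=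
  if I x.2 = I x.1 then 1 - mono (Pi.single x.2 1 - Pi.single x.1 1) else 1

private def prs (N : ℕ) : Finset (Σ _ : ℕ, ℕ) := (Finset.range N).sigma (fun q => Finset.range q)

private theorem mem_prs {N : ℕ} {x : Σ _ : ℕ, ℕ} : x ∈ prs N ↔ x.1 < N ∧ x.2 < x.1 := by
  unfold prs
  rw [Finset.mem_sigma, Finset.mem_range, Finset.mem_range]

private theorem Dl_eq (N : ℕ) (I : ℕ → Bool) : Dl N I = ∏ x ∈ prs N, fac I x := by
  unfold Dl prs
  rw [Finset.prod_sigma]
  rfl

private theorem sw_single (i p : ℕ) : sw i (Pi.single p 1) = Pi.single (Equiv.swap i (i + 1) p) 1 := by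
  funext q
  unfold sw
  by_cases h : Equiv.swap i (i + 1) q = p
  · rw [h, Pi.single_eq_same, ← h, Equiv.swap_apply_self, Pi.single_eq_same]
  · rw [Pi.single_eq_of_ne h, Pi.single_eq_of_ne]
    intro h2
    apply h
    rw [h2, Equiv.swap_apply_self]

private theorem sw_sub (i : ℕ) (u v : Ex) : sw i (u - v) = sw i u - sw i v := rfl

private theorem s_fac (i : ℕ) (I : ℕ → Bool) (x : Σ _ : ℕ, ℕ) :
    s i (fac I x) = fac (cs i I) ⟨Equiv.swap i (i + 1) x.1, Equiv.swap i (i + 1) x.2⟩ := by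
  unfold fac cs
  simp only [Equiv.swap_apply_self]
  by_cases h : I x.2 = I x.1
  · rw [if_pos h, if_pos h, map_sub, map_one, s_mono, sw_sub, sw_single, sw_single]
  · rw [if_neg h, if_neg h, map_one]

private theorem swap_lt {i p q : ℕ} (h : p < q) (hne : ¬(p = i ∧ q = i + 1)) :
    Equiv.swap i (i + 1) p < Equiv.swap i (i + 1) q := by
  rw [Equiv.swap_apply_def, Equiv.swap_apply_def]
  split_ifs <;> omega

private theorem swap_ltN {i p N : ℕ} (hi : i + 1 < N) (h : p < N) :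
    Equiv.swap i (i + 1) p < N := by
  rw [Equiv.swap_apply_def]
  split_ifs <;> omega

private theorem s_rest {N i : ℕ} (hi : i + 1 < N) (I : ℕ → Bool) :
    s i (∏ x ∈ (prs N).erase ⟨i + 1, i⟩, fac I x) =
      ∏ x ∈ (prs N).erase ⟨i + 1, i⟩, fac (cs i I) x := by
  rw [map_prod]
  refine Finset.prod_bij' (fun x _ => ⟨Equiv.swap i (i + 1) x.1, Equiv.swap i (i + 1) x.2⟩)
    (fun x _ => ⟨Equiv.swap i (i + 1) x.1, Equiv.swap i (i + 1) x.2⟩) ?_ ?_ ?_ ?_ ?_
  · rintro ⟨q, p⟩ hx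
    rw [Finset.mem_erase, mem_prs] at hx ⊢
    obtain ⟨h1, h2, h3⟩ := hx
    have h4 : ¬(p = i ∧ q = i + 1) := by
      rintro ⟨rfl, rfl⟩
      exact h1 rfl
    refine ⟨?_, swap_ltN hi h2, swap_lt h3 h4⟩
    intro h5
    have h6 : Equiv.swap i (i + 1) q = i + 1 := congrArg Sigma.fst h5
    have h7 : Equiv.swap i (i + 1) p = i := congrArg (fun y : Σ _ : ℕ, ℕ => y.2) h5
    have h8 := congrArg (Equiv.swap i (i + 1)) h6
    have h9 := congrArg (Equiv.swap i (i + 1)) h7
    rw [Equiv.swap_apply_self, Equiv.swap_apply_right] at h8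
    rw [Equiv.swap_apply_self, Equiv.swap_apply_left] at h9
    have h3' : p < q := h3
    omega
  · rintro ⟨q, p⟩ hx
    rw [Finset.mem_erase, mem_prs] at hx ⊢
    obtain ⟨h1, h2, h3⟩ := hx
    have h4 : ¬(p = i ∧ q = i + 1) := by
      rintro ⟨rfl, rfl⟩
      exact h1 rfl
    refine ⟨?_, swap_ltN hi h2, swap_lt h3 h4⟩
    intro h5
    have h6 : Equiv.swap i (i + 1) q = i + 1 := congrArg Sigma.fst h5
    have h7 : Equiv.swap i (i + 1) p = i := congrArg (fun y : Σ _ : ℕ, ℕ => y.2) h5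
    have h8 := congrArg (Equiv.swap i (i + 1)) h6
    have h9 := congrArg (Equiv.swap i (i + 1)) h7
    rw [Equiv.swap_apply_self, Equiv.swap_apply_right] at h8
    rw [Equiv.swap_apply_self, Equiv.swap_apply_left] at h9
    have h3' : p < q := h3
    omega
  · rintro ⟨q, p⟩ _
    simp only [Equiv.swap_apply_self]
  · rintro ⟨q, p⟩ _
    simp only [Equiv.swap_apply_self]
  · rintro x _
    exact s_fac i I x

private theorem Dl_split {N i : ℕ} (hi : i + 1 < N) (I : ℕ → Bool) :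
    Dl N I = fac I ⟨i + 1, i⟩ * ∏ x ∈ (prs N).erase ⟨i + 1, i⟩, fac I x := by
  rw [Dl_eq, Finset.mul_prod_erase]
  rw [mem_prs]
  exact ⟨hi, Nat.lt_succ_self i⟩

/-- The exchange of two adjacent slots of different colour in `Dl`. -/
theorem s_Dl {N i : ℕ} (hi : i + 1 < N) {I : ℕ → Bool} (hI : I i ≠ I (i + 1)) :
    s i (Dl N I) = Dl N (cs i I) := by
  rw [Dl_split hi I, Dl_split hi (cs i I), map_mul, s_rest hi]
  congr 1
  unfold fac
  rw [if_neg hI, if_neg, map_one]
  unfold cs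
  rw [Equiv.swap_apply_left, Equiv.swap_apply_right]
  exact hI.symm

/-- Adjacent slots of the same colour: `Dl` is `1 - x_i / x_{i+1}` times a symmetric factor. -/
theorem Dl_same {N i : ℕ} (hi : i + 1 < N) {I : ℕ → Bool} (hI : I i = I (i + 1)) :
    ∃ E : Lau, s i E = E ∧ Dl N I = (1 - mono (al i)) * E := by
  have hc : cs i I = I := by
    funext p
    unfold cs
    rw [Equiv.swap_apply_def]
    split_ifs with h1 h2
    · rw [h1, hI]
    · rw [h2, hI]
    · rfl
  refine ⟨∏ x ∈ (prs N).erase ⟨i + 1, i⟩, fac I x, ?_, ?_⟩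
  · rw [s_rest hi, hc]
  · rw [Dl_split hi I]
    congr 1
    unfold fac
    rw [if_pos hI]
    rfl

end MP967.Cnt
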