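import Pool.Agent.Lib.MP_967fd7_co.Cnt.Supp

/-! Valid exponents, contraction and mirror image. -/

namespace MP967.Cnt

theorem Valid_zero (N : ℕ) (I : ℕ → Bool) : Valid N I 0 :=
  ⟨fun q => q, fun _ hp => ⟨hp, rfl, fun _ => rfl, fun h => absurd h (lt_irrefl _)⟩⟩

/-- Contraction: the slots `0`, `1` are matched. -/
theorem Valid_cons2 {n : ℕ} {I : ℕ → Bool} (hI : I 0 ≠ I 1) {M : ℤ} (hM : 0 ≤ M) {th : Ex}
    (h : Valid n (fun p => I (p + 2)) th) : Valid (n + 2) I (cons (-M) (cons M th)) := by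
  obtain ⟨m, hm⟩ := h
  refine ⟨fun p => match p with
    | 0 => 1
    | 1 => 0
    | p + 2 => m p + 2, fun p hp => ?_⟩
  match p with
  | 0 =>
    refine ⟨by simp, rfl, fun h => absurd h (by simp), fun _ => ⟨hI, ?_, ?_⟩⟩
    · simp [cons]
    · simpa [cons] using hM
  | 1 =>
    exact ⟨by simp, rfl, fun h => absurd h (by simp), fun h => absurd h (by simp)⟩
  | p + 2 =>
    obtain ⟨h1, h2, h3, h4⟩ := hm p (by omega)
    refine ⟨by simpa using h1, by simp [h2], fun h => ?_, fun h => ?_⟩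
    · have : m p = p := by simpa using h
      exact h3 this
    · have h5 : p < m p := by simpa using h
      exact h4 h5

/-- The mirror image. Proof: conjugate the involution with the reversal. -/
theorem Valid_rv {N : ℕ} {I : ℕ → Bool} {th : Ex} (h : Valid N (fun p => I (N - 1 - p)) (rv N th)) :
    Valid N I th := by
  obtain ⟨m, hm⟩ := h
  refine ⟨fun p => N - 1 - m (N - 1 - p), fun p hp => ?_⟩
  obtain ⟨h1, h2, h3, h4⟩ := hm (N - 1 - p) (by omega)
  obtain ⟨g1, g2, g3, g4⟩ := hm (m (N - 1 - p)) h1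
  have e1 : N - 1 - (N - 1 - m (N - 1 - p)) = m (N - 1 - p) := by omega
  have e2 : N - 1 - (N - 1 - p) = p := by omega
  refine ⟨?_, ?_, fun h => ?_, fun h => ?_⟩
  · show N - 1 - m (N - 1 - p) < N
    omega
  · show N - 1 - m (N - 1 - (N - 1 - m (N - 1 - p))) = p
    rw [e1, h2]
    omega
  · have h5 : m (N - 1 - p) = N - 1 - p := by
      change N - 1 - m (N - 1 - p) = p at h
      omega
    have h6 := h3 h5
    rw [rv, if_pos (by omega), e2] at h6
    omega
  · change p < N - 1 - m (N - 1 - p) at h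
    have h5 : m (N - 1 - p) < N - 1 - p := by omega
    rw [h2] at g4
    obtain ⟨k1, k2, k3⟩ := g4 h5
    simp only [rv, if_pos h1, if_pos (show N - 1 - p < N from by omega), e2] at k1 k2 k3
    refine ⟨fun h => k1 h.symm, ?_, ?_⟩
    · show th p = -th (N - 1 - m (N - 1 - p))
      omega
    · omega

end MP967.Cnt
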