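import Pool.Agent.Lib.MP_967fd7_co.Cnt.MirA
import Pool.Agent.Lib.MP_967fd7_co.Cnt.CtA
import Pool.Agent.Lib.MP_967fd7_co.Cnt.VldB

/-! The mirror image: `Ok`. -/

namespace MP967.Cnt

theorem rv_zero (N : ℕ) : rv N 0 = 0 := by
  funext p
  simp [rv]

theorem coeff_zero_rv (N : ℕ) (f : Lau) : (rvA N f).coeff 0 = f.coeff 0 := by
  induction f using lau_induction with
  | h0 => simp
  | hm v =>
    rw [rvA_mono]
    unfold mono
    by_cases h : v = 0
    · subst h
      rw [rv_zero]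
    · have h2 : rv N v ≠ 0 := by
        intro h3
        apply h
        rw [← rv_rv N v, h3, rv_zero]
      simp [AddMonoidAlgebra.coeff_single, h, h2]
  | ha f g hf hg =>
    rw [map_add, AddMonoidAlgebra.coeff_add, AddMonoidAlgebra.coeff_add, Finsupp.add_apply,
      Finsupp.add_apply, hf, hg]
  | hn f hf =>
    rw [map_neg, AddMonoidAlgebra.coeff_neg, AddMonoidAlgebra.coeff_neg, Finsupp.neg_apply,
      Finsupp.neg_apply, hf]

theorem rv_root {N p q : ℕ} (hpq : p < q) (hq : q < N) :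
    rv N (Pi.single p 1 - Pi.single q 1) =
      Pi.single (N - 1 - q) 1 - Pi.single (N - 1 - p) 1 := by
  funext r
  simp only [rv, Pi.sub_apply, Pi.single_apply]
  split_ifs <;> first | rfl | omega

/-- The double product over `p < q < N`, reversed. -/
theorem prod_rev (N : ℕ) (F : ℕ → ℕ → Lau) :
    ∏ q ∈ Finset.range N, ∏ p ∈ Finset.range q, F (N - 1 - q) (N - 1 - p) =
      ∏ q ∈ Finset.range N, ∏ p ∈ Finset.range q, F p q := by
  rw [Finset.prod_sigma', Finset.prod_sigma']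
  refine Finset.prod_bij' (fun x _ => ⟨N - 1 - x.2, N - 1 - x.1⟩)
    (fun x _ => ⟨N - 1 - x.2, N - 1 - x.1⟩) ?_ ?_ ?_ ?_ ?_
  · rintro ⟨q, p⟩ h
    simp only [Finset.mem_sigma, Finset.mem_range] at h ⊢
    omega
  · rintro ⟨q, p⟩ h
    simp only [Finset.mem_sigma, Finset.mem_range] at h ⊢
    omega
  · rintro ⟨q, p⟩ h
    simp only [Finset.mem_sigma, Finset.mem_range] at h
    have h1 : N - 1 - (N - 1 - q) = q := by omega
    have h2 : N - 1 - (N - 1 - p) = p := by omega
    simp only [h1, h2]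
  · rintro ⟨q, p⟩ h
    simp only [Finset.mem_sigma, Finset.mem_range] at h
    have h1 : N - 1 - (N - 1 - q) = q := by omega
    have h2 : N - 1 - (N - 1 - p) = p := by omega
    simp only [h1, h2]
  · rintro ⟨q, p⟩ h
    rfl

theorem rvA_Dl (N : ℕ) (I : ℕ → Bool) :
    rvA N (Dl N I) = Dl N (fun p => I (N - 1 - p)) := by
  unfold Dl
  rw [map_prod, ← prod_rev]
  refine Finset.prod_congr rfl fun q hq => ?_
  rw [map_prod]
  refine Finset.prod_congr rfl fun p hp => ?_
  rw [Finset.mem_range] at hq hp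
  have h1 : N - 1 - (N - 1 - q) = q := by omega
  have h2 : N - 1 - (N - 1 - p) = p := by omega
  simp only [h1, h2]
  by_cases h : I p = I q
  · rw [if_pos h, if_pos h.symm, map_sub, map_one, rvA_mono, rv_root hp hq]
  · rw [if_neg h, if_neg (fun h3 => h h3.symm), map_one]

theorem el_rv (N : ℕ) (I : ℕ → Bool) (f : Lau) :
    el N (fun p => I (N - 1 - p)) (rvA N f) = el N I f := by
  rw [el_apply, el_apply, ← rvA_Dl, ← map_mul, coeff_zero_rv]

theorem Ok_rv {N : ℕ} {I : ℕ → Bool} {f : Lau} {T : Set Ex}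
    (h : Ok N (fun p => I (N - 1 - p)) (rvA N f) (rv N '' T)) : Ok N I f T := by
  obtain ⟨h1, h2⟩ := h
  rw [el_rv] at h1 h2
  refine ⟨h1, fun h3 => ?_⟩
  obtain ⟨th, ⟨t, ht, rfl⟩, hv⟩ := h2 h3
  exact ⟨t, ht, Valid_rv hv⟩

end MP967.Cnt
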