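import Pool.Agent.Lib.MP_967fd7_co.Cnt.Lau

/-!
Laurent polynomials with exponents in a given set (paper: `/team-store/h69_count.md`, (4)).
-/

namespace MP967.Cnt

/-- Laurent polynomials with all exponents in `C`. -/
noncomputable def Mon (C : Set Ex) : Submodule ℤ Lau := Submodule.span ℤ (mono '' C)

theorem mono_mem {C : Set Ex} {v : Ex} (h : v ∈ C) : mono v ∈ Mon C :=
  Submodule.subset_span ⟨v, h, rfl⟩

theorem Mon_mono {C C' : Set Ex} (h : C ⊆ C') : Mon C ≤ Mon C' :=
  Submodule.span_mono (Set.image_mono h)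

theorem Mon_map {M : Type*} [AddCommGroup M] {C : Set Ex} (Q : Submodule ℤ M)
    (F : Lau →ₗ[ℤ] M) (h : ∀ v ∈ C, F (mono v) ∈ Q) {f : Lau} (hf : f ∈ Mon C) : F f ∈ Q := by
  have h1 : Mon C ≤ Q.comap F := by
    rw [Mon, Submodule.span_le]
    rintro _ ⟨v, hv, rfl⟩
    exact h v hv
  exact h1 hf

theorem Mon_eq_zero {M : Type*} [AddCommGroup M] {C : Set Ex}
    (F : Lau →ₗ[ℤ] M) (h : ∀ v ∈ C, F (mono v) = 0) {f : Lau} (hf : f ∈ Mon C) : F f = 0 := by
  have := Mon_map (⊥ : Submodule ℤ M) F (fun v hv => (Submodule.mem_bot ℤ).2 (h v hv)) hf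
  exact (Submodule.mem_bot ℤ).1 this

theorem Mon_congr {M : Type*} [AddCommGroup M] {C : Set Ex}
    (F G : Lau →ₗ[ℤ] M) (h : ∀ v ∈ C, F (mono v) = G (mono v)) {f : Lau} (hf : f ∈ Mon C) :
    F f = G f := by
  have := Mon_eq_zero (F - G) (fun v hv => by rw [LinearMap.sub_apply, h v hv, sub_self]) hf
  rw [LinearMap.sub_apply, sub_eq_zero] at this
  exact this

/-- Every Laurent polynomial is a combination of monomials. -/
theorem mem_Mon_univ (f : Lau) : f ∈ Mon Set.univ := by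
  induction f using lau_induction with
  | hm v => exact mono_mem trivial
  | h0 => exact Submodule.zero_mem _
  | ha f g hf hg => exact Submodule.add_mem _ hf hg
  | hn f hf => exact Submodule.neg_mem _ hf

/-- The product of Laurent polynomials with exponents in `C` and in `C'`. -/
theorem Mon_mul {C C' C'' : Set Ex} (h : ∀ u ∈ C, ∀ v ∈ C', u + v ∈ C'') {f g : Lau}
    (hf : f ∈ Mon C) (hg : g ∈ Mon C') : f * g ∈ Mon C'' := by
  refine Mon_map (Mon C'') (LinearMap.mulRight ℤ g) (fun u hu => ?_) hf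
  rw [LinearMap.mulRight_apply]
  refine Mon_map (Mon C'') (LinearMap.mulLeft ℤ (mono u)) (fun v hv => ?_) hg
  rw [LinearMap.mulLeft_apply, mono_mul]
  exact mono_mem (h u hu v hv)

/-- The set `C` contains with `v` all the integral points between `v` and `sw i v`. -/
def SegC (i : ℕ) (C : Set Ex) : Prop :=
  ∀ v ∈ C, ∀ w : Ex, (∀ p, p ≠ i → p ≠ i + 1 → w p = v p) → w i + w (i + 1) = v i + v (i + 1) →
    min (v i) (v (i + 1)) ≤ w i → w i ≤ max (v i) (v (i + 1)) → w ∈ C

theorem piM_mem {i : ℕ} {C : Set Ex} (hC : SegC i C) {v : Ex} (hv : v ∈ C) :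
    piM i v ∈ Mon C := by
  have e1 : ∀ c : ℤ, (c • al i) i = c := by
    intro c; simp [al]
  have e2 : ∀ c : ℤ, (c • al i) (i + 1) = -c := by
    intro c; simp [al]
  have e3 : ∀ c : ℤ, ∀ p, p ≠ i → p ≠ i + 1 → (c • al i) p = 0 := by
    intro c p h1 h2; simp [al, h1, h2]
  unfold piM
  split_ifs with h
  · refine Submodule.sum_mem _ fun k hk => mono_mem (hC v hv _ ?_ ?_ ?_ ?_)
    · intro p h1 h2
      rw [Pi.sub_apply, e3 _ p h1 h2, sub_zero]
    · rw [Pi.sub_apply, Pi.sub_apply, e1, e2]; ring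
    · rw [Finset.mem_range] at hk
      rw [Pi.sub_apply, e1]; omega
    · rw [Finset.mem_range] at hk
      rw [Pi.sub_apply, e1]; omega
  · refine Submodule.neg_mem _ (Submodule.sum_mem _ fun k hk => mono_mem (hC v hv _ ?_ ?_ ?_ ?_))
    · intro p h1 h2
      rw [Pi.add_apply, e3 _ p h1 h2, add_zero]
    · rw [Pi.add_apply, Pi.add_apply, e1, e2]; ring
    · rw [Finset.mem_range] at hk
      rw [Pi.add_apply, e1]; omega
    · rw [Finset.mem_range] at hk
      rw [Pi.add_apply, e1]; omega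

theorem pi_mem {i : ℕ} {C : Set Ex} (hC : SegC i C) {f : Lau} (hf : f ∈ Mon C) :
    pi i f ∈ Mon C :=
  Mon_map (Mon C) (pi i) (fun v hv => by rw [pi_mono]; exact piM_mem hC hv) hf

theorem sw_at (i : ℕ) (v : Ex) : sw i v i = v (i + 1) := by
  rw [sw, Equiv.swap_apply_left]

theorem sw_at' (i : ℕ) (v : Ex) : sw i v (i + 1) = v i := by
  rw [sw, Equiv.swap_apply_right]

theorem sw_ne (i : ℕ) (v : Ex) (p : ℕ) (h1 : p ≠ i) (h2 : p ≠ i + 1) : sw i v p = v p := by
  rw [sw, Equiv.swap_apply_of_ne_of_ne h1 h2]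

theorem SegC.sw_mem {i : ℕ} {C : Set Ex} (hC : SegC i C) {v : Ex} (hv : v ∈ C) : sw i v ∈ C := by
  refine hC v hv _ (fun p h1 h2 => sw_ne i v p h1 h2) ?_ ?_ ?_
  · rw [sw_at, sw_at', add_comm]
  · rw [sw_at]; exact min_le_right _ _
  · rw [sw_at]; exact le_max_right _ _

/-- A set which is stable under the operators and contains the start contains everything. -/
theorem W.mem {N : ℕ} {D : Ex} {f : Lau} {T : Set Ex} (h : W N D f T) {C : Set Ex}
    (hD : D ∈ C) (hC : ∀ i, i + 1 < N → SegC i C) : f ∈ Mon C ∧ T ⊆ C := by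
  induction h with
  | base => exact ⟨mono_mem hD, fun v hv => by rw [hv]; exact hD⟩
  | step i hi _ ih =>
    refine ⟨pi_mem (hC i hi) ih.1, ?_⟩
    rintro v (hv | ⟨u, hu, rfl⟩)
    · exact ih.2 hv
    · exact (hC i hi).sw_mem (ih.2 hu)

/-- The exponents with values in `[a, b]` on the slots `< N` and zero on the others. -/
def Box (N : ℕ) (a b : ℤ) : Set Ex := {v | (∀ p < N, a ≤ v p ∧ v p ≤ b) ∧ ∀ p, N ≤ p → v p = 0}

theorem Box_seg (N : ℕ) (a b : ℤ) (i : ℕ) (hi : i + 1 < N) : SegC i (Box N a b) := by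
  intro v hv w h1 h2 h3 h4
  have a1 := hv.1 i (by omega)
  have a2 := hv.1 (i + 1) hi
  refine ⟨fun p hp => ?_, fun p hp => ?_⟩
  · by_cases hi1 : p = i
    · subst hi1; omega
    · by_cases hi2 : p = i + 1
      · subst hi2; omega
      · rw [h1 p hi1 hi2]; exact hv.1 p hp
  · rw [h1 p (by omega) (by omega)]; exact hv.2 p hp

theorem Dec.le {N : ℕ} {D : Ex} (h : Dec N D) {p q : ℕ} (hpq : p ≤ q) (hq : q < N) :
    D q ≤ D p := by
  induction q with
  | zero =>
    have : p = 0 := by omega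
    rw [this]
  | succ q ih =>
    rcases Nat.lt_or_ge p (q + 1) with h1 | h1
    · exact (h.1 q hq).trans (ih (by omega) (by omega))
    · have : p = q + 1 := by omega
      rw [this]

/-- (4): all exponents are between the minimum and the maximum of the start. -/
theorem W.box {N : ℕ} {D : Ex} {f : Lau} {T : Set Ex} (h : W N D f T) (hD : Dec N D) :
    f ∈ Mon (Box N (D (N - 1)) (D 0)) ∧ T ⊆ Box N (D (N - 1)) (D 0) := by
  refine h.mem ⟨fun p hp => ⟨hD.le (by omega) (by omega), hD.le (by omega) hp⟩, hD.2⟩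
    (Box_seg N _ _)

end MP967.Cnt
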