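import Pool.Agent.Lib.MP_967fd7_co.Cnt.Wrd
import Pool.Agent.Lib.MP_967fd7_co.Cnt.Mon

/-!
The coefficient of the minimal power of the first variable
(paper: `/team-store/h69_count.md`, (6)).
-/

namespace MP967.Cnt

theorem cf_mono (i : ℕ) (m : ℤ) (v : Ex) :
    cf i m (mono v) = if v i = m then mono (rem i v) else 0 := by
  rw [cf, lin_mono]

theorem al_at (i : ℕ) (c : ℤ) : (c • al i) i = c := by simp [al]

theorem al_at' (i : ℕ) (c : ℤ) : (c • al i) (i + 1) = -c := by simp [al]

theorem al_ne (i : ℕ) (c : ℤ) (p : ℕ) (h1 : p ≠ i) (h2 : p ≠ i + 1) : (c • al i) p = 0 := by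
  simp [al, h1, h2]

/-- The coefficient rule. -/
theorem cf_pi {i : ℕ} {m : ℤ} {C : Set Ex} (hC : ∀ v ∈ C, m ≤ v i ∧ m ≤ v (i + 1)) {f : Lau}
    (hf : f ∈ Mon C) : cf i m (pi i f) = cf (i + 1) m f := by
  refine Mon_congr ((cf i m).comp (pi i)) (cf (i + 1) m) (fun v hv => ?_) hf
  obtain ⟨h1, h2⟩ := hC v hv
  rw [LinearMap.comp_apply, pi_mono, cf_mono, piM]
  split_ifs with h3 h4 h4
  · -- descending, the last entry is `m`
    rw [map_sum, Finset.sum_eq_single (v i - v (i + 1)).toNat]
    · rw [cf_mono, if_pos]
      · congr 1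
        funext p
        simp only [rem]
        split_ifs with h5 h6 h6
        · rw [Pi.sub_apply, al_ne _ _ _ (by omega) (by omega), sub_zero]
        · omega
        · have hp : p = i := by omega
          subst hp
          rw [Pi.sub_apply, al_at']
          omega
        · rw [Pi.sub_apply, al_ne _ _ _ (by omega) (by omega), sub_zero]
      · rw [Pi.sub_apply, al_at]
        omega
    · intro k hk hk2
      rw [Finset.mem_range] at hk
      rw [cf_mono, if_neg]
      rw [Pi.sub_apply, al_at]
      omega
    · intro hk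
      exact absurd (Finset.mem_range.2 (by omega)) hk
  · -- descending, the last entry is larger than `m`
    rw [map_sum]
    refine Finset.sum_eq_zero fun k hk => ?_
    rw [Finset.mem_range] at hk
    rw [cf_mono, if_neg]
    rw [Pi.sub_apply, al_at]
    omega
  · omega
  · rw [map_neg, map_sum, neg_eq_zero]
    refine Finset.sum_eq_zero fun k hk => ?_
    rw [Finset.mem_range] at hk
    rw [cf_mono, if_neg]
    rw [Pi.add_apply, al_at]
    omega

theorem cf_consL (m a : ℤ) (g : Lau) : cf 0 m (consL a g) = if a = m then g else 0 := by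
  induction g using lau_induction with
  | hm w =>
    rw [consL_mono, cf_mono, cons_zero]
    have : rem 0 (cons a w) = w := by
      funext p
      simp only [rem, Nat.not_lt_zero, if_false, cons_succ]
    rw [this]
  | h0 => simp [consL_zero]
  | ha f g hf hg =>
    rw [consL_add, map_add, hf, hg]
    split_ifs <;> simp
  | hn f hf =>
    rw [consL_neg, map_neg, hf]
    split_ifs <;> simp

theorem cf_zero_pi_mono (i : ℕ) (m : ℤ) (v : Ex) :
    ((cf 0 m).comp (pi (i + 1))) (mono v) = ((pi i).comp (cf 0 m)) (mono v) := by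
  rw [LinearMap.comp_apply, LinearMap.comp_apply]
  have hv : mono v = consL (v 0) (mono (tl v)) := by rw [consL_mono, cons_tl]
  rw [hv, ← consL_pi, cf_consL, cf_consL]
  split_ifs <;> simp

/-- The coefficient of a power of the first variable commutes with the other operators. -/
theorem cf_zero_pi (i : ℕ) (m : ℤ) (f : Lau) : cf 0 m (pi (i + 1) f) = pi i (cf 0 m f) := by
  have h := Mon_congr (C := Set.univ) ((cf 0 m).comp (pi (i + 1))) ((pi i).comp (cf 0 m))
    (fun v _ => cf_zero_pi_mono i m v) (mem_Mon_univ f)
  rw [LinearMap.comp_apply, LinearMap.comp_apply] at h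
  exact h

theorem cf_zero_piDn (j k : ℕ) (m : ℤ) (f : Lau) :
    cf 0 m (piDn (j + 1) k f) = piDn j k (cf 0 m f) := by
  induction k generalizing j with
  | zero => rfl
  | succ k ih => rw [piDn, piDn, cf_zero_pi, ih]

theorem cf_zero_mul (k : ℕ) (m c : ℤ) (f : Lau) :
    cf 0 m (f * mono (Pi.single (k + 1) c)) = cf 0 m f * mono (Pi.single k c) := by
  induction f using lau_induction with
  | hm v =>
    rw [mono_mul, cf_mono, cf_mono]
    have h0 : (v + Pi.single (k + 1) c : Ex) 0 = v 0 := by
      rw [Pi.add_apply, Pi.single_apply, if_neg (by omega), add_zero]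
    rw [h0]
    split_ifs with h1
    · rw [mono_mul]
      congr 1
      funext p
      simp only [rem, Nat.not_lt_zero, if_false, Pi.add_apply, Pi.single_apply]
      congr 1
      split_ifs <;> first | rfl | omega
    · rw [zero_mul]
  | h0 => simp
  | ha f g hf hg => rw [add_mul, map_add, map_add, hf, hg, add_mul]
  | hn f hf => rw [neg_mul, map_neg, map_neg, hf, neg_mul]

theorem piDn_mem {C : Set Ex} (j k : ℕ) (hC : ∀ i, j ≤ i → i < j + k → SegC i C) {f : Lau}
    (hf : f ∈ Mon C) : piDn j k f ∈ Mon C := by
  induction k generalizing j with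
  | zero => exact hf
  | succ k ih =>
    rw [piDn]
    exact pi_mem (hC j le_rfl (by omega)) (ih (j + 1) fun i h1 h2 => hC i (by omega) (by omega))

theorem cf_piDn {C : Set Ex} {m : ℤ} (j k : ℕ) (hC : ∀ i, j ≤ i → i < j + k → SegC i C)
    (hm : ∀ v ∈ C, ∀ i, j ≤ i → i ≤ j + k → m ≤ v i) {f : Lau} (hf : f ∈ Mon C) :
    cf j m (piDn j k f) = cf (j + k) m f := by
  induction k generalizing j with
  | zero => rfl
  | succ k ih =>
    have h1 : piDn (j + 1) k f ∈ Mon C :=
      piDn_mem (j + 1) k (fun i h1 h2 => hC i (by omega) (by omega)) hf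
    rw [piDn, cf_pi (fun v hv => ⟨hm v hv j le_rfl (by omega), hm v hv (j + 1) (by omega)
      (by omega)⟩) h1, ih (j + 1) (fun i h1 h2 => hC i (by omega) (by omega))
      (fun v hv i h1 h2 => hm v hv i (by omega) (by omega))]
    congr 2
    omega

theorem cf_last {N : ℕ} (m : ℤ) {f : Lau} (hf : f ∈ Mon {v : Ex | ∀ p, N ≤ p → v p = 0}) :
    cf N m (f * mono (Pi.single N m)) = f := by
  have h := Mon_congr ((cf N m).comp (LinearMap.mulRight ℤ (mono (Pi.single N m))))
    LinearMap.id (fun v hv => ?_) hf
  · rw [LinearMap.comp_apply, LinearMap.mulRight_apply] at h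
    exact h
  · rw [LinearMap.comp_apply, LinearMap.mulRight_apply, mono_mul, cf_mono, if_pos]
    · rw [LinearMap.id_apply]
      congr 1
      funext p
      simp only [rem]
      split_ifs with h1
      · rw [Pi.add_apply, Pi.single_apply, if_neg (by omega), add_zero]
      · rw [Pi.add_apply, Pi.single_apply, if_neg (by omega), add_zero, hv p (by omega),
          hv (p + 1) (by omega)]
    · rw [Pi.add_apply, Pi.single_eq_same, hv N le_rfl, zero_add]

/-- Insertion of `m` at the slot `i`. -/
def ins (i : ℕ) (m : ℤ) (v : Ex) : Ex := fun p => if p < i then v p else if p = i then m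
  else v (p - 1)

theorem ins_zero (m : ℤ) (v : Ex) : ins 0 m v = cons m v := by
  funext p
  cases p with
  | zero => simp [ins, cons_zero]
  | succ p => simp [ins, cons_succ]

theorem sw_ins (i : ℕ) (m : ℤ) (v : Ex) : sw i (ins (i + 1) m v) = ins i m v := by
  funext p
  rcases lt_trichotomy p i with h1 | h1 | h1
  · rw [sw_ne _ _ _ (by omega) (by omega), ins, ins, if_pos (by omega), if_pos h1]
  · subst h1
    rw [sw_at, ins, ins, if_neg (by omega), if_pos rfl, if_neg (by omega), if_pos rfl]
  · by_cases h2 : p = i + 1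
    · subst h2
      rw [sw_at', ins, ins, if_pos (by omega), if_neg (by omega), if_neg (by omega)]
      rfl
    · rw [sw_ne _ _ _ (by omega) h2, ins, ins, if_neg (by omega), if_neg h2, if_neg (by omega),
        if_neg (by omega)]

theorem ins_mem (j k : ℕ) (m : ℤ) (v : Ex) {A : Set Ex} (h : ins (j + k) m v ∈ A) :
    ins j m v ∈ swDn j k A := by
  induction k generalizing j with
  | zero => exact h
  | succ k ih =>
    rw [swDn, So]
    refine Or.inr ⟨ins (j + 1) m v, ih (j + 1) ?_, sw_ins j m v⟩
    rw [show j + 1 + k = j + (k + 1) from by omega]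
    exact h

theorem ins_last {N : ℕ} (m : ℤ) {v : Ex} (hv : ∀ p, N ≤ p → v p = 0) :
    ins N m v = v + Pi.single N m := by
  funext p
  rw [ins, Pi.add_apply, Pi.single_apply]
  split_ifs with h1 h2 h3
  · omega
  · simp
  · rw [h3, hv N le_rfl, zero_add]
  · rw [hv p (by omega), hv (p - 1) (by omega), add_zero]

theorem swDn_mono (j k : ℕ) {A B : Set Ex} (h : A ⊆ B) : swDn j k A ⊆ swDn j k B := by
  induction k generalizing j with
  | zero => exact h
  | succ k ih => exact So_mono j (ih (j + 1))

theorem cons_swDn (j k : ℕ) (m : ℤ) (A : Set Ex) :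
    cons m '' swDn j k A = swDn (j + 1) k (cons m '' A) := by
  induction k generalizing j with
  | zero => rfl
  | succ k ih => rw [swDn, swDn, ← ih, So_image (fun v => sw_cons j m v)]

theorem W.dn {N : ℕ} {D : Ex} {f : Lau} {T : Set Ex} (h : W N D f T) (j k : ℕ)
    (hjk : j + k < N) : W N D (piDn j k f) (swDn j k T) := by
  induction k generalizing j with
  | zero => exact h
  | succ k ih => exact W.step j (by omega) (ih (j + 1) (by omega))

theorem sw_add_single {N k : ℕ} (hk : k + 1 < N) (m : ℤ) (v : Ex) :
    sw k (v + Pi.single N m) = sw k v + Pi.single N m := by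
  funext p
  simp only [sw, Pi.add_apply, Pi.single_apply, Equiv.swap_apply_def]
  congr 1
  split_ifs <;> first | rfl | omega

/-- A fixed last entry. -/
theorem W.append {N : ℕ} {D : Ex} {f : Lau} {T : Set Ex} (h : W N D f T) (m : ℤ) :
    W (N + 1) (D + Pi.single N m) (f * mono (Pi.single N m)) ((fun v => v + Pi.single N m) '' T) := by
  induction h with
  | base =>
    rw [mono_mul, Set.image_singleton]
    exact W.base
  | step i hi _ ih =>
    rename_i f0 T0 _
    have h1 := W.step i (by omega) ih
    have h2 : So i ((fun v : Ex => v + Pi.single N m) '' T0)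
        = (fun v : Ex => v + Pi.single N m) '' So i T0 :=
      So_image (φ := fun v : Ex => v + Pi.single N m) (fun v => sw_add_single hi m v) T0
    have h3 : pi i (f0 * mono (Pi.single N m)) = pi i f0 * mono (Pi.single N m) := by
      rw [mul_comm, pi_mul_mono _ _ (by simp [Pi.single_apply]; omega), mul_comm]
    rw [h2, h3] at h1
    exact h1

theorem Dec.tr {N : ℕ} {D : Ex} (h : Dec (N + 1) D) : Dec N (tr N D) := by
  refine ⟨fun p hp => ?_, fun p hp => ?_⟩
  · rw [MP967.Cnt.tr, MP967.Cnt.tr, if_pos hp, if_pos (by omega)]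
    exact h.1 p (by omega)
  · rw [MP967.Cnt.tr, if_neg (by omega)]

/-- (6), the case `j = 0`. -/
theorem W.six_zero {N : ℕ} {D : Ex} (hD : Dec (N + 1) D) {z : Lau} {T' : Set Ex}
    (hW : W N (tr N D) z T') :
    cf 0 (D N) (piDn 0 N (z * mono (Pi.single N (D N)))) = z ∧
      ∀ th ∈ T', cons (D N) th ∈ swDn 0 N ((fun v => v + Pi.single N (D N)) '' T') := by
  have hbox := hW.box hD.tr
  have hlo : ∀ p, p < N → D N ≤ tr N D (N - 1) := by
    intro p hp
    rw [MP967.Cnt.tr, if_pos (by omega)]
    exact hD.le (by omega) (by omega)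
  constructor
  · have h1 : z * mono (Pi.single N (D N)) ∈ Mon (Box (N + 1) (D N) (D 0)) := by
      refine Mon_mul (C := Box N (tr N D (N - 1)) (tr N D 0)) (C' := {Pi.single N (D N)})
        (fun u hu v hv => ?_) hbox.1 (mono_mem (Set.mem_singleton _))
      rw [Set.mem_singleton_iff] at hv
      subst hv
      refine ⟨fun p hp => ?_, fun p hp => ?_⟩
      · rw [Pi.add_apply, Pi.single_apply]
        split_ifs with h2
        · subst h2
          rw [hu.2 p le_rfl, zero_add]
          exact ⟨le_rfl, hD.le (by omega) (by omega)⟩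
        · have h3 := hu.1 p (by omega)
          have h4 := hlo p (by omega)
          have h5 : tr N D 0 = D 0 := by rw [MP967.Cnt.tr, if_pos (by omega)]
          omega
      · rw [Pi.add_apply, Pi.single_apply, if_neg (by omega), hu.2 p (by omega), add_zero]
    rw [cf_piDn (C := Box (N + 1) (D N) (D 0)) 0 N
      (fun i _ hi => Box_seg _ _ _ i (by omega)) (fun v hv i _ hi => (hv.1 i (by omega)).1) h1,
      zero_add]
    exact cf_last _ (Mon_mono (fun v hv => hv.2) hbox.1)
  · intro th hth
    rw [← ins_zero]
    apply ins_mem 0 N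
    rw [zero_add, ins_last _ (hbox.2 hth).2]
    exact ⟨th, hth, rfl⟩

/-- (6): the coefficient of the minimal power of the first variable. -/
theorem W.six {N : ℕ} {D : Ex} (hD : Dec (N + 1) D) {g : Lau} {T : Set Ex}
    (h : W (N + 1) D g T) :
    cf 0 (D N) g = 0 ∨ ∃ T', W N (tr N D) (cf 0 (D N) g) T' ∧ ∀ th ∈ T', cons (D N) th ∈ T := by
  induction N generalizing D g T with
  | zero =>
    obtain ⟨j, hj, z, T', hW, hf, hT⟩ := h.extract_min (fun p hp => hD.2 p (by omega))
    obtain rfl : j = 0 := by omega
    obtain ⟨h1, h2⟩ := W.six_zero hD hW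
    rw [Nat.sub_zero] at hf hT
    rw [hf, hT, h1]
    exact Or.inr ⟨T', hW, h2⟩
  | succ N ih =>
    obtain ⟨j, hj, z, T', hW, hf, hT⟩ := h.extract_min (fun p hp => hD.2 p (by omega))
    rcases Nat.eq_zero_or_pos j with h0 | h0
    · subst h0
      obtain ⟨h1, h2⟩ := W.six_zero hD hW
      rw [Nat.sub_zero] at hf hT
      rw [hf, hT, h1]
      exact Or.inr ⟨T', hW, h2⟩
    · obtain ⟨i, rfl⟩ : ∃ i, j = i + 1 := ⟨j - 1, by omega⟩
      have h1 : cf 0 (D (N + 1)) g = piDn i (N + 1 - (i + 1))
          (cf 0 (D (N + 1)) z * mono (Pi.single N (D (N + 1)))) := by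
        rw [hf, cf_zero_piDn, cf_zero_mul]
      rcases lt_or_ge (D (N + 1)) (D N) with h2 | h2
      · left
        have h3 : cf 0 (D (N + 1)) z = 0 := by
          refine Mon_eq_zero _ (fun v hv => ?_) (hW.box hD.tr).1
          rw [cf_mono, if_neg]
          have h4 := (hv.1 0 (by omega)).1
          rw [MP967.Cnt.tr, if_pos (by omega)] at h4
          have h5 : D N ≤ D (N + 1 - 1) := le_of_eq (by congr 1)
          omega
        rw [h1, h3, zero_mul]
        clear h1 hf hT
        have : ∀ a b, piDn a b 0 = 0 := by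
          intro a b
          induction b generalizing a with
          | zero => rfl
          | succ b ihb => rw [piDn, ihb, map_zero]
        exact this _ _
      · have h3 : D N = D (N + 1) := le_antisymm h2 (hD.1 N (by omega))
        have h4 : tr (N + 1) D N = D (N + 1) := by
          rw [MP967.Cnt.tr, if_pos (by omega), h3]
        have h5 : tr N (tr (N + 1) D) + Pi.single N (D (N + 1)) = tr (N + 1) D := by
          rw [← h4]
          exact tr_add N _ (fun p hp => hD.tr.2 p (by omega))
        rcases ih hD.tr hW with h6 | ⟨T'', h6, h7⟩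
        · left
          rw [h4] at h6
          rw [h1, h6, zero_mul]
          clear h1 hf hT
          have : ∀ a b, piDn a b 0 = 0 := by
            intro a b
            induction b generalizing a with
            | zero => rfl
            | succ b ihb => rw [piDn, ihb, map_zero]
          exact this _ _
        · right
          rw [h4] at h6 h7
          have h8 := (h6.append (D (N + 1))).dn i (N + 1 - (i + 1)) (by omega)
          rw [h5] at h8
          refine ⟨_, by rw [h1]; exact h8, ?_⟩
          intro th hth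
          rw [hT]
          have h9 : cons (D (N + 1)) th ∈ cons (D (N + 1)) '' swDn i (N + 1 - (i + 1))
              ((fun v => v + Pi.single N (D (N + 1))) '' T'') := ⟨th, hth, rfl⟩
          rw [cons_swDn] at h9
          refine swDn_mono _ _ ?_ h9
          rintro _ ⟨_, ⟨v, hv, rfl⟩, rfl⟩
          refine ⟨cons (D (N + 1)) v, h7 v hv, ?_⟩
          funext p
          cases p with
          | zero => simp [cons_zero]
          | succ p => simp [cons_succ, Pi.single_apply]

end MP967.Cnt
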