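import Pool.Agent.Lib.MP_967fd7_co.Cnt.Red
import Pool.Agent.Lib.MP_967fd7_co.Cnt.Six
import Pool.Agent.Lib.MP_967fd7_co.Cnt.Contr
import Pool.Agent.Lib.MP_967fd7_co.Cnt.Mir

/-! The key lemma (E). -/

namespace MP967.Cnt

private theorem Ok_of_zero {N : ℕ} {I : ℕ → Bool} {f : Lau} {T : Set Ex} (h : el N I f = 0) :
    Ok N I f T := by
  constructor
  · rw [h]
    exact zero_le_one
  · intro h1
    rw [h] at h1
    exact absurd h1 (lt_irrefl _)

private theorem consL_supp (M : ℤ) (g : Lau) : ∀ v ∈ (consL M g).coeff.support, v 0 = M := by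
  refine supp_of_mem_Mon (C := {v : Ex | v 0 = M}) ?_
  induction g using lau_induction with
  | hm v =>
    rw [consL_mono]
    exact mono_mem rfl
  | h0 =>
    rw [consL_zero]
    exact Submodule.zero_mem _
  | ha f g hf hg =>
    rw [consL_add]
    exact Submodule.add_mem _ hf hg
  | hn f hf =>
    rw [consL_neg]
    exact Submodule.neg_mem _ hf

private theorem cf_eq_zero {i : ℕ} {m : ℤ} {f : Lau} (hf : ∀ v ∈ f.coeff.support, v i ≠ m) :
    cf i m f = 0 := by
  refine Mon_eq_zero (C := {v : Ex | v i ≠ m}) _ (fun v hv => ?_) (mem_Mon_of_supp hf)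
  rw [cf_mono, if_neg hv]

/-- The maximum is positive and in the slot `0`. -/
theorem Ok_zero {N : ℕ} {I : ℕ → Bool} {M : ℤ} (hM : 0 < M) (g : Lau) (T : Set Ex) :
    Ok N I (consL M g) T := by
  refine Ok_of_zero (el_prefix I 1 fun v hv => ?_)
  rw [Finset.sum_range_one, consL_supp M g v hv]
  exact hM

/-- The maximum is in the slot `1`. Proof: equal colours of `0`, `1`: `Ok_same`, `Ok_zero`. Different: `el_contract`; if the minimum
`D n` of the rest is `> -M` then `cf 0 (-M) g = 0`; if it is `-M`: `W.six`, the induction hypothesis, `Valid_cons2`. -/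
theorem Ok_one {n : ℕ} (ih : ∀ (D : Ex) (f : Lau) (T : Set Ex) (I : ℕ → Bool), Dec n D →
      W n D f T → Ok n I f T) {M : ℤ} (hM : 0 < M) {D : Ex} (hD : Dec (n + 1) D)
    (hm : -M ≤ D n) {g : Lau} {T : Set Ex} (h : W (n + 1) D g T) (I : ℕ → Bool) :
    Ok (n + 2) I (piUp 1 (consL M g)) (swUp 1 (cons M '' T)) := by
  change Ok (n + 2) I (pi 0 (consL M g)) (So 0 (cons M '' T))
  by_cases hI : I 0 = I 1
  · exact (Ok_same (i := 0) (by omega) hI).2 (Ok_zero hM g _)
  · have hsupp := W_supp h (lo := D n) (fun p hp => Dec_le hD (by omega) (by omega)) hD.2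
    have hg : ∀ v ∈ g.coeff.support, -M ≤ v 0 := fun v hv =>
      hm.trans ((hsupp v hv).1 0 (by omega))
    have hel := el_contract (n := n) hI hM hg
    rcases hm.lt_or_eq with hlt | heq
    · refine Ok_of_zero ?_
      rw [hel, cf_eq_zero (fun v hv => ?_), map_zero]
      have h1 := (hsupp v hv).1 0 (by omega)
      omega
    · rcases h.six hD with h1 | ⟨Tz, h1, h2⟩
      · refine Ok_of_zero ?_
        rw [hel, heq, h1, map_zero]
      · obtain ⟨h3, h4⟩ := ih _ _ Tz (fun p => I (p + 2)) hD.tr h1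
        rw [← heq] at h3 h4 h2
        rw [Ok, hel]
        refine ⟨h3, fun h5 => ?_⟩
        obtain ⟨th, hth, hv⟩ := h4 h5
        refine ⟨cons (-M) (cons M th), Or.inr ?_, Valid_cons2 hI hM.le hv⟩
        refine ⟨cons M (cons (-M) th), ⟨cons (-M) th, h2 th hth, rfl⟩, ?_⟩
        funext p
        unfold sw
        rcases p with _ | p
        · rw [Equiv.swap_apply_left]
          rfl
        · rcases p with _ | p
          · rw [Equiv.swap_apply_right]
            rfl
          · rw [Equiv.swap_apply_of_ne_of_ne (by omega) (by omega)]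
            rfl

/-- All positions of the maximum. Proof: induction on `j`, `red`, `Ok_one`. -/
theorem Ok_all {n : ℕ} (ih : ∀ (D : Ex) (f : Lau) (T : Set Ex) (I : ℕ → Bool), Dec n D →
      W n D f T → Ok n I f T) {M : ℤ} (hM : 0 < M) {D : Ex} (hD : Dec (n + 1) D)
    (hm : -M ≤ D n) (j : ℕ) (hj : j ≤ n) {g : Lau} {T : Set Ex} (h : W (n + 1) D g T)
    (I : ℕ → Bool) : Ok (n + 2) I (piUp (j + 1) (consL M g)) (swUp (j + 1) (cons M '' T)) := by
  induction j generalizing g T I with
  | zero => exact Ok_one ih hM hD hm h I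
  | succ j ihj =>
    refine red (by omega) (fun I' => ihj (by omega) h I') (fun I' => ?_) I
    rw [← consL_pi, So_image (fun v => sw_cons j M v)]
    exact ihj (by omega) (W.step j (by omega) h) I'

/-- The case `D 0 + D n ≥ 0`, `D 0 > 0`. -/
theorem Ok_pos {n : ℕ} (ih : ∀ n' ≤ n, ∀ (D : Ex) (f : Lau) (T : Set Ex) (I : ℕ → Bool),
      Dec n' D → W n' D f T → Ok n' I f T) {D : Ex} (hD : Dec (n + 1) D) (h0 : 0 < D 0)
    (h1 : 0 ≤ D 0 + D n) {f : Lau} {T : Set Ex} (h : W (n + 1) D f T) (I : ℕ → Bool) :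
    Ok (n + 1) I f T := by
  obtain ⟨j, hj, g, T', hW, rfl, rfl⟩ := h.extract_max
  rcases j with _ | j
  · exact Ok_zero h0 g _
  · obtain ⟨n', rfl⟩ : ∃ n', n = n' + 1 := ⟨n - 1, by omega⟩
    refine Ok_all (ih n' (by omega)) h0 (D := tl D) ⟨fun p hp => hD.1 (p + 1) (by omega),
      fun p hp => hD.2 (p + 1) (by omega)⟩ ?_ j (by omega) hW I
    change -D 0 ≤ D (n' + 1)
    omega

/-- The key lemma, induction form. -/
theorem key_ok (N : ℕ) : ∀ {D : Ex} {f : Lau} {T : Set Ex} (I : ℕ → Bool), Dec N D →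
    W N D f T → Ok N I f T := by
  induction N using Nat.strong_induction_on with
  | _ N ih =>
    intro D f T I hD h
    by_cases hD0 : D = 0
    · subst hD0
      obtain ⟨rfl, rfl⟩ := W_zero h
      rw [Ok, el_one]
      exact ⟨le_rfl, fun _ => ⟨0, rfl, Valid_zero N I⟩⟩
    · rcases N with _ | n
      · exact absurd (funext fun p => hD.2 p (Nat.zero_le p)) hD0
      · have hle : D n ≤ D 0 := Dec_le hD (Nat.zero_le n) (by omega)
        have ih' : ∀ n' ≤ n, ∀ (D : Ex) (f : Lau) (T : Set Ex) (I : ℕ → Bool),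
            Dec n' D → W n' D f T → Ok n' I f T := fun n' hn' D f T I h1 h2 =>
          ih n' (by omega) I h1 h2
        rcases le_or_gt 0 (D 0 + D n) with h1 | h1
        · refine Ok_pos ih' hD ?_ h1 h I
          by_contra hcon
          apply hD0
          funext p
          rcases Nat.lt_or_ge p (n + 1) with hp | hp
          · have h2 := Dec_le hD (Nat.zero_le p) hp
            have h3 : D n ≤ D p := Dec_le hD (by omega) (by omega)
            change D p = 0
            omega
          · exact hD.2 p hp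
        · refine Ok_rv ?_
          refine Ok_pos ih' (Dec_rv hD) ?_ ?_ (W_rv h) _
          · change 0 < -D (if 0 < n + 1 then n + 1 - 1 - 0 else 0)
            rw [if_pos (by omega)]
            have h2 : n + 1 - 1 - 0 = n := by omega
            rw [h2]
            omega
          · change 0 ≤ -D (if 0 < n + 1 then n + 1 - 1 - 0 else 0) +
              -D (if n < n + 1 then n + 1 - 1 - n else n)
            rw [if_pos (by omega), if_pos (by omega)]
            have h2 : n + 1 - 1 - 0 = n := by omega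
            have h3 : n + 1 - 1 - n = 0 := by omega
            rw [h2, h3]
            omega

/-- The key lemma. -/
theorem key {N : ℕ} {D : Ex} (hD : Dec N D) {f : Lau} {Th : Set Ex} (h : W N D f Th)
    (I : ℕ → Bool) : el N I f ≤ 1 ∧ (0 < el N I f → ∃ th ∈ Th, Valid N I th) :=
  key_ok N I hD h

end MP967.Cnt
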