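import Pool.Agent.Lib.MP_967fd7_co.Cnt.Gt

/-! Slots for two multisets of heights. -/

namespace MP967.Cnt

open MP967.Rep MP967.Sym

theorem mem_hts {K : ℕ} {I : ℕ → Bool} {v : Ex} {p : ℕ} (hp : p < K) :
    (v p).toNat ∈ hts K I (I p) v := by
  have h1 : p ∈ (Finset.range K).filter (fun q => I q = I p) :=
    Finset.mem_filter.2 ⟨Finset.mem_range.2 hp, rfl⟩
  exact Multiset.mem_map.2 ⟨p, h1, rfl⟩

/-- The heights after one more slot. -/
theorem c19_succ {K : ℕ} (I : ℕ → Bool) (v : Ex) (c : Bool) (m : ℕ) (b : Bool) :
    hts (K + 1) (Function.update I K c) b (Function.update v K (m : ℤ)) =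
      if c = b then m ::ₘ hts K I b v else hts K I b v := by
  have h1 : (Finset.range K).filter (fun p => Function.update I K c p = b) =
      (Finset.range K).filter (fun p => I p = b) := by
    refine Finset.filter_congr fun p hp => ?_
    rw [Function.update_of_ne (Finset.mem_range.1 hp).ne]
  have h2 : ((Finset.range K).filter (fun p => I p = b)).val.map
      (fun p => (Function.update v K (m : ℤ) p).toNat) =
      ((Finset.range K).filter (fun p => I p = b)).val.map (fun p => (v p).toNat) := by
    refine Multiset.map_congr rfl fun p hp => ?_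
    have h3 := Finset.mem_range.1 (Finset.mem_filter.1 hp).1
    rw [Function.update_of_ne h3.ne]
  unfold hts
  rw [Finset.range_add_one, Finset.filter_insert, h1, Function.update_self]
  split_ifs with h
  · rw [Finset.insert_val_of_notMem (by simp), Multiset.map_cons, h2, Function.update_self,
      Int.toNat_natCast]
  · exact h2

/-- The slots for a pair of multisets, by induction on the number of columns. -/
theorem c19_aux (n : ℕ) : ∀ f : Bool → Multiset ℕ,
    Multiset.card (f true) + Multiset.card (f false) = n → ∃ (K : ℕ) (I : ℕ → Bool) (v : Ex),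
      Dec K v ∧ (∀ p < K, ((v p).toNat : ℤ) = v p) ∧ ∀ b, hts K I b v = f b := by
  induction n with
  | zero =>
    intro f hf
    refine ⟨0, fun _ => true, 0, ⟨fun p hp => absurd hp (Nat.not_lt_zero _), fun _ _ => rfl⟩,
      fun p hp => absurd hp (Nat.not_lt_zero _), fun b => ?_⟩
    have h1 : Multiset.card (f b) = 0 := by
      cases b <;> omega
    rw [Multiset.card_eq_zero] at h1
    rw [h1]
    simp [hts]
  | succ n ih =>
    intro f hf
    -- a smallest column
    have hne : f true + f false ≠ 0 := by
      intro h
      have h1 := congrArg Multiset.card h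
      rw [Multiset.card_add, Multiset.card_zero] at h1
      omega
    obtain ⟨m, hm, hmin⟩ : ∃ m ∈ f true + f false, ∀ x ∈ f true + f false, m ≤ x := by
      classical
      have h1 : ∃ m, m ∈ f true + f false := Multiset.exists_mem_of_ne_zero hne
      exact ⟨Nat.find h1, Nat.find_spec h1, fun x hx => Nat.find_min' h1 hx⟩
    obtain ⟨c, hc⟩ : ∃ c, m ∈ f c := by
      rcases Multiset.mem_add.1 hm with h | h
      exacts [⟨_, h⟩, ⟨_, h⟩]
    have hmin' : ∀ b, ∀ x ∈ f b, m ≤ x := by
      intro b x hx
      refine hmin x (Multiset.mem_add.2 ?_)
      cases b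
      · exact Or.inr hx
      · exact Or.inl hx
    obtain ⟨K, I, v, hd, hnn, hh⟩ := ih (Function.update f c ((f c).erase m)) (by
      have h1 : Multiset.card ((f c).erase m) + 1 = Multiset.card (f c) :=
        Multiset.card_erase_add_one hc
      cases c
      · rw [Function.update_self, Function.update_of_ne (by simp)]
        omega
      · rw [Function.update_self, Function.update_of_ne (by simp)]
        omega)
    have hle : ∀ p < K, (m : ℤ) ≤ v p := by
      intro p hp
      have h1 := mem_hts (I := I) (v := v) hp
      rw [hh] at h1
      have h2 : (v p).toNat ∈ f (I p) := by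
        by_cases h3 : I p = c
        · rw [h3, Function.update_self] at h1
          rw [h3]
          exact Multiset.mem_of_mem_erase h1
        · rwa [Function.update_of_ne h3] at h1
      have h4 := hmin' _ _ h2
      rw [← hnn p hp]
      exact_mod_cast h4
    refine ⟨K + 1, Function.update I K c, Function.update v K (m : ℤ), ⟨?_, ?_⟩, ?_, ?_⟩
    · intro p hp
      rw [Function.update_of_ne (show p ≠ K by omega)]
      by_cases h1 : p + 1 = K
      · rw [h1, Function.update_self]
        exact hle p (by omega)
      · rw [Function.update_of_ne h1]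
        exact hd.1 p (by omega)
    · intro p hp
      rw [Function.update_of_ne (show p ≠ K by omega)]
      exact hd.2 p (by omega)
    · intro p hp
      by_cases h1 : p = K
      · rw [h1, Function.update_self, Int.toNat_natCast]
      · rw [Function.update_of_ne h1]
        exact hnn p (by omega)
    · intro b
      rw [c19_succ, hh]
      split_ifs with h
      · subst h
        rw [Function.update_self, Multiset.cons_erase hc]
      · rw [Function.update_of_ne (fun h' => h h'.symm)]

theorem exists_slots (s t : Multiset ℕ) : ∃ (K : ℕ) (I : ℕ → Bool) (v : Ex), Dec K v ∧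
    (∀ p < K, ((v p).toNat : ℤ) = v p) ∧ hts K I true v = s ∧ hts K I false v = t := by
  obtain ⟨K, I, v, h1, h2, h3⟩ := c19_aux _ (fun b => if b then s else t) rfl
  exact ⟨K, I, v, h1, h2, h3 true, h3 false⟩

end MP967.Cnt
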