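import Pool.Agent.Lib.MP_967fd7_co.Cnt.Dcm
import Pool.Agent.Lib.MP_967fd7_co.Cnt.Slots
import Pool.Agent.Lib.MP_967fd7_co.Cnt.KeyE
import Pool.Agent.Lib.MP_967fd7_co.Sym.LeadTerm

/-! The count. -/

namespace MP967.Cnt

open MP967.Rep MP967.Sym

open Classical in
theorem el_le {K : ℕ} {v : Ex} (hv : Dec K v) (I : ℕ → Bool) (n : ℕ) :
    el K I (mono v * EE K ^ n) ≤
      (((hist K n v).filter (fun H => ∃ θ, Lab K v H θ ∧ Valid K I θ)).card : ℤ) := by
  obtain ⟨f, hf, hH⟩ := hist_sum K n hv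
  rw [hf, map_sum, Finset.card_filter, Nat.cast_sum]
  refine Finset.sum_le_sum fun H hmem => ?_
  obtain ⟨hD, Th, hW, hlab⟩ := hH H hmem
  obtain ⟨h1, h2⟩ := key hD hW I
  by_cases hex : ∃ θ, Lab K v H θ ∧ Valid K I θ
  · rw [if_pos hex]
    exact h1
  · rw [if_neg hex]
    by_contra hlt
    rw [Nat.cast_zero, not_le] at hlt
    obtain ⟨θ, hθ, hval⟩ := h2 hlt
    exact hex ⟨θ, hlab θ hθ, hval⟩

theorem dec_cdec {K : ℕ} {v : Ex} (hv : Dec K v) (I : ℕ → Bool) : Cdec K I v := by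
  refine ⟨fun p q hpq hq _ => ?_, hv.2⟩
  clear * - hv hpq hq
  induction q, hpq using Nat.le_induction with
  | base => exact hv.1 p hq
  | succ q hpq ih => exact (hv.1 q hq).trans (ih (by omega))

theorem count_Fam {N m : ℕ} (hm : m < N) {s t : Multiset ℕ} (hs : ∀ k ∈ s, 1 ≤ k ∧ k ≤ m)
    (ht : ∀ k ∈ t, 1 ≤ k ∧ k ≤ m) :
    (gt N (shape s)).card * (gt N (shape t)).card ≤ (Fam N m s t).ncard := by
  classical
  obtain ⟨K, I, v, hv, hnn, hcs, hct⟩ := exists_slots s t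
  have hN : 0 < N := by omega
  have hrange : ∀ p < K, 1 ≤ v p ∧ v p ≤ m := by
    intro p hp
    have h1 := mem_hts (I := I) (v := v) hp
    have h2 : 1 ≤ (v p).toNat ∧ (v p).toNat ≤ m := by
      cases hb : I p with
      | true =>
        rw [hb, hcs] at h1
        exact hs _ h1
      | false =>
        rw [hb, hct] at h1
        exact ht _ h1
    have h3 := hnn p hp
    omega
  have hc := dec_cdec hv I
  have h1 := gt_le hc (fun p hp => by have := hrange p hp; omega) N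
  rw [hcs, hct] at h1
  refine h1.trans ?_
  have h2 := el_le hv I N
  rw [el_chist N hc, Nat.cast_le] at h2
  refine h2.trans ?_
  rw [← Set.ncard_coe_finset]
  have key2 : ∀ H ∈ ((hist K N v).filter (fun H => ∃ θ, Lab K v H θ ∧ Valid K I θ)),
      ex K (col hN m) v H ∈ Fam N m s t := by
    intro H hH
    rw [Finset.mem_filter] at hH
    obtain ⟨hH, θ, ⟨L, hLH, hp⟩, hval⟩ := hH
    rw [← ex_sim (col hN m) hv hH hLH hp, ← hcs, ← hct]
    exact fam_of_path hN hv (fun p hp => (hrange p hp).1)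
      (hLH.length_eq.trans (hist_length hH)) hp hval
  refine Set.ncard_le_ncard_of_injOn (fun H => ex K (col hN m) v H) (fun H hH => key2 H hH) ?_
    (finite_Fam s t)
  intro H hH H' hH' heq
  have hH := Finset.mem_filter.1 (Finset.mem_coe.1 hH)
  have hH' := Finset.mem_filter.1 (Finset.mem_coe.1 hH')
  obtain ⟨hH, θ, hlab, hval⟩ := hH
  obtain ⟨hH', θ', hlab', hval'⟩ := hH'
  have hb : ∀ {H θ}, H ∈ hist K N v → Lab K v H θ → Valid K I θ → ∀ p < K, -(m : ℤ) ≤ lst v H p := by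
    intro H θ hH hlab hval
    refine lst_bound hv hH hlab _ ?_
    obtain ⟨L, _, hp⟩ := hlab
    exact valid_ge (fun p hp => (hrange p hp).2) (by omega) hp hval
  exact ex_inj (-(m : ℤ)) m (col hN m)
    (fun i j r r' hi hj h1 h2 h3 h4 h5 => col_inj hN m hi hj h1 h2 h3 h4 h5) hv
    (fun p hp => (hrange p hp).2) hH hH' (hb hH hlab hval) (hb hH' hlab' hval') heq

end MP967.Cnt
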