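import Pool.Agent.Lib.MP_967fd7_co.Cnt.CtA

/-! The moves (1a), (1b). -/

namespace MP967.Cnt

/-- `(1 - x_i / x_{i+1}) pi i f = s i f - (x_i / x_{i+1}) f`. -/
private theorem key (i : ℕ) (f : Lau) :
    (1 - mono (al i)) * pi i f = s i f - mono (al i) * f := by
  have h := pi_spec i f
  have h1 : mono (-Pi.single (i + 1) 1) * X (i + 1) = 1 := by
    unfold X
    rw [mono_mul, neg_add_cancel, mono_zero]
  have h2 : mono (-Pi.single (i + 1) 1) * X i = mono (al i) := by
    unfold X al
    rw [mono_mul, neg_add_eq_sub]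
  linear_combination (-mono (-Pi.single (i + 1) 1)) * h - (pi i f - s i f) * h1 +
    (pi i f - f) * h2

private theorem coeff_sub' (f g : Lau) : (f - g).coeff 0 = f.coeff 0 - g.coeff 0 := by
  rw [AddMonoidAlgebra.coeff_sub]
  rfl

/-- Paper (1a). Proof: `(1 - x_i / x_{i+1}) pi i f = s i f - (x_i / x_{i+1}) f`. -/
theorem el_pi_same {N i : ℕ} (hi : i + 1 < N) {I : ℕ → Bool} (hI : I i = I (i + 1)) (f : Lau) :
    el N I (pi i f) = el N I f := by
  obtain ⟨E, hE, hD⟩ := Dl_same hi hI
  rw [el_apply, el_apply, hD]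
  have h1 : pi i f * ((1 - mono (al i)) * E) = s i (f * E) - mono (al i) * f * E := by
    rw [map_mul, hE]
    linear_combination E * key i f
  have h2 : f * ((1 - mono (al i)) * E) = f * E - mono (al i) * f * E := by ring
  rw [h1, h2, coeff_sub', coeff_sub', coeff_zero_s]

/-- Paper (1b). -/
theorem el_symm {N i : ℕ} (hi : i + 1 < N) (I : ℕ → Bool) {f : Lau} (hf : s i f = f) :
    el N (cs i I) f = el N I f := by
  by_cases hI : I i = I (i + 1)
  · have h : cs i I = I := by
      funext p
      unfold cs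
      by_cases h1 : p = i
      · rw [h1, Equiv.swap_apply_left, hI]
      · by_cases h2 : p = i + 1
        · rw [h2, Equiv.swap_apply_right, hI]
        · rw [Equiv.swap_apply_of_ne_of_ne h1 h2]
    rw [h]
  · rw [el_apply, el_apply, ← s_Dl hi hI]
    have h1 : f * s i (Dl N I) = s i (f * Dl N I) := by rw [map_mul, hf]
    rw [h1, coeff_zero_s]

end MP967.Cnt
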