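import Pool.Agent.Lib.MP_967fd7_co.Cnt.Col
import Pool.Agent.Lib.MP_967fd7_co.Sym.Defs

/-! Pairs of Gelfand-Tsetlin chains give sequences of vectors which are decreasing inside the
colours. -/

namespace MP967.Cnt

open MP967.Rep

/-- The number of slots `q < p` of the colour of `p`. -/
def rk (I : ℕ → Bool) (p : ℕ) : ℕ := ((Finset.range p).filter (fun q => I q = I p)).card

/-- The heights of the slots of the colour `b`. -/
def hts (K : ℕ) (I : ℕ → Bool) (b : Bool) (v : Ex) : Multiset ℕ :=
  ((Finset.range K).filter (fun p => I p = b)).val.map (fun p => (v p).toNat)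

/-- The vector of the column heights at the time `k` of two chains. -/
def vec (K N : ℕ) (I : ℕ → Bool) (c : Bool → ℕ → ℕ → ℕ) (k : ℕ) : Ex := fun p =>
  if p < K then (((Finset.range N).filter (fun r => rk I p < c (I p) k r)).card : ℤ) else 0

/-- The list of the vectors at the times `n-1, …, 0`. -/
def vecs (K N : ℕ) (I : ℕ → Bool) (c : Bool → ℕ → ℕ → ℕ) : ℕ → List Ex
  | 0 => []
  | n + 1 => vec K N I c n :: vecs K N I c n

theorem vec_lt_iff {K N : ℕ} {I : ℕ → Bool} {c : Bool → ℕ → ℕ → ℕ} {A : Bool → ℕ → ℕ}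
    (hc : ∀ b, IsGT N (A b) (c b)) {k p r : ℕ} (hp : p < K) (hr : r < N) :
    (r : ℤ) < vec K N I c k p ↔ rk I p < c (I p) k r := by
  have hanti := (hc (I p)).anti k
  unfold vec
  rw [if_pos hp, Nat.cast_lt]
  constructor
  · intro h
    by_contra hcon
    have hsub : (Finset.range N).filter (fun r => rk I p < c (I p) k r) ⊆ Finset.range r := by
      intro r' hr'
      rw [Finset.mem_filter] at hr'
      rw [Finset.mem_range]
      by_contra hle
      exact hcon (lt_of_lt_of_le hr'.2 (hanti (not_lt.1 hle)))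
    have := Finset.card_le_card hsub
    rw [Finset.card_range] at this
    omega
  · intro h
    have hsub : Finset.range (r + 1) ⊆ (Finset.range N).filter (fun r => rk I p < c (I p) k r) := by
      intro r' hr'
      rw [Finset.mem_range] at hr'
      rw [Finset.mem_filter, Finset.mem_range]
      exact ⟨by omega, lt_of_lt_of_le h (hanti (by omega))⟩
    have := Finset.card_le_card hsub
    rw [Finset.card_range] at this
    omega

theorem vec_zero {K N : ℕ} {I : ℕ → Bool} {c : Bool → ℕ → ℕ → ℕ} {A : Bool → ℕ → ℕ}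
    (hc : ∀ b, IsGT N (A b) (c b)) : vec K N I c 0 = 0 := by
  funext p
  unfold vec
  split_ifs with hp
  · rw [Finset.filter_false_of_mem]
    · rfl
    · intro r _
      rw [(hc (I p)).zero r]
      exact Nat.not_lt_zero _
  · rfl

theorem vec_cdec {K N : ℕ} {I : ℕ → Bool} (c : Bool → ℕ → ℕ → ℕ) (k : ℕ) :
    Cdec K I (vec K N I c k) := by
  refine ⟨fun p q hpq hq hI => ?_, fun p hp => if_neg (by omega)⟩
  unfold vec
  rw [if_pos hq, if_pos (hpq.trans hq), Nat.cast_le]
  have hrk : rk I p ≤ rk I q := by
    unfold rk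
    apply Finset.card_le_card
    intro t ht
    rw [Finset.mem_filter, Finset.mem_range] at ht ⊢
    exact ⟨by omega, ht.2.trans hI⟩
  apply Finset.card_le_card
  intro r hr
  rw [Finset.mem_filter] at hr ⊢
  rw [hI]
  exact ⟨hr.1, lt_of_le_of_lt hrk hr.2⟩

theorem vec_step {K N : ℕ} {I : ℕ → Bool} {c : Bool → ℕ → ℕ → ℕ} {A : Bool → ℕ → ℕ}
    (hc : ∀ b, IsGT N (A b) (c b)) (k : ℕ) {p : ℕ} (hp : p < K) :
    vec K N I c (k + 1) p = vec K N I c k p ∨ vec K N I c (k + 1) p = vec K N I c k p + 1 := by
  have h1 : ((Finset.range N).filter (fun r => rk I p < c (I p) k r)).card ≤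
      ((Finset.range N).filter (fun r => rk I p < c (I p) (k + 1) r)).card := by
    apply Finset.card_le_card
    intro r hr
    rw [Finset.mem_filter] at hr ⊢
    exact ⟨hr.1, lt_of_lt_of_le hr.2 ((hc (I p)).mono k r)⟩
  have h2 : ((Finset.range N).filter (fun r => rk I p < c (I p) (k + 1) r)).card ≤
      ((Finset.range N).filter (fun r => rk I p < c (I p) k r)).card + 1 := by
    have hsub : (Finset.range N).filter (fun r => rk I p < c (I p) (k + 1) r) ⊆
        insert 0 (((Finset.range N).filter (fun r => rk I p < c (I p) k r)).image Nat.succ) := by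
      intro r hr
      rw [Finset.mem_filter, Finset.mem_range] at hr
      rw [Finset.mem_insert, Finset.mem_image]
      cases r with
      | zero => exact Or.inl rfl
      | succ r =>
        refine Or.inr ⟨r, ?_, rfl⟩
        rw [Finset.mem_filter, Finset.mem_range]
        exact ⟨by omega, lt_of_lt_of_le hr.2 ((hc (I p)).inter k r)⟩
    calc _ ≤ _ := Finset.card_le_card hsub
      _ ≤ _ := Finset.card_insert_le _ _
      _ ≤ _ := Nat.add_le_add_right Finset.card_image_le 1
  unfold vec
  rw [if_pos hp, if_pos hp]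
  omega

/-- The shape of the heights of one colour. -/
theorem c11_shape (K : ℕ) (I : ℕ → Bool) (b : Bool) (v : Ex) (r : ℕ) :
    shape (hts K I b v) r =
      ((Finset.range K).filter (fun q => I q = b ∧ r < (v q).toNat)).card := by
  unfold shape hts
  rw [Multiset.countP_map, ← Finset.filter_filter]
  rfl

theorem c11_lt {K : ℕ} {I : ℕ → Bool} {v : Ex} (hv : Cdec K I v) {p : ℕ} (hp : p < K) (r : ℕ) :
    rk I p < shape (hts K I (I p) v) r ↔ r < (v p).toNat := by
  rw [c11_shape]
  constructor
  · intro h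
    by_contra hcon
    rw [not_lt] at hcon
    refine absurd h (not_lt.2 (Finset.card_le_card ?_))
    intro q hq
    rw [Finset.mem_filter, Finset.mem_range] at hq ⊢
    obtain ⟨hq1, hq2, hq3⟩ := hq
    refine ⟨?_, hq2⟩
    by_contra h1
    rcases Nat.lt_or_eq_of_le (not_lt.1 h1) with h2 | h2
    · have h3 := hv.1 p q h2 hq1 hq2.symm
      have h4 : (v q).toNat ≤ (v p).toNat := Int.toNat_le_toNat h3
      omega
    · rw [h2] at hcon
      omega
  · intro h
    have h1 : insert p ((Finset.range p).filter (fun q => I q = I p)) ⊆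
        (Finset.range K).filter (fun q => I q = I p ∧ r < (v q).toNat) := by
      intro q hq
      rw [Finset.mem_insert] at hq
      rw [Finset.mem_filter, Finset.mem_range]
      rcases hq with rfl | hq
      · exact ⟨hp, rfl, h⟩
      · rw [Finset.mem_filter, Finset.mem_range] at hq
        refine ⟨hq.1.trans hp, hq.2, ?_⟩
        have h3 := hv.1 q p hq.1 hp hq.2
        exact lt_of_lt_of_le h (Int.toNat_le_toNat h3)
    have h2 : p ∉ (Finset.range p).filter (fun q => I q = I p) := by
      rw [Finset.mem_filter, Finset.mem_range]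
      rintro ⟨h3, -⟩
      exact lt_irrefl p h3
    have h3 := Finset.card_le_card h1
    rw [Finset.card_insert_of_notMem h2] at h3
    exact h3

/-- At the time `N` the vector is `v`. -/
theorem vec_top {K N : ℕ} {I : ℕ → Bool} {v : Ex} (hv : Cdec K I v) (hv0 : ∀ p < K, 0 ≤ v p)
    {c : Bool → ℕ → ℕ → ℕ} (hc : ∀ b, IsGT N (shape (hts K I b v)) (c b)) :
    vec K N I c N = v := by
  funext p
  unfold vec
  by_cases hp : p < K
  · rw [if_pos hp, (hc (I p)).top N le_rfl]
    have h1 : (v p).toNat ≤ N := by
      by_contra hcon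
      rw [not_le] at hcon
      have h2 := (c11_lt hv hp N).2 hcon
      rw [(hc (I p)).shape_zero le_rfl] at h2
      exact Nat.not_lt_zero _ h2
    have h3 : (Finset.range N).filter (fun r => rk I p < shape (hts K I (I p) v) r) =
        Finset.range (v p).toNat := by
      ext r
      rw [Finset.mem_filter, Finset.mem_range, Finset.mem_range, c11_lt hv hp r]
      constructor
      · exact fun h => h.2
      · exact fun h => ⟨lt_of_lt_of_le h h1, h⟩
    rw [h3, Finset.card_range]
    exact Int.toNat_of_nonneg (hv0 p hp)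
  · rw [if_neg hp]
    exact (hv.2 p (not_lt.1 hp)).symm

theorem vecs_mem {K N : ℕ} {I : ℕ → Bool} {c : Bool → ℕ → ℕ → ℕ} {A : Bool → ℕ → ℕ}
    (hc : ∀ b, IsGT N (A b) (c b)) (n : ℕ) : vecs K N I c n ∈ chist K I n (vec K N I c n) := by
  induction n with
  | zero => exact mem_chist_zero.2 ⟨vec_zero hc, rfl⟩
  | succ n ih =>
    refine mem_chist_succ.2 ⟨vec K N I c n, ?_, vecs K N I c n, ih, rfl⟩
    exact (mem_csteps (vec_cdec c (n + 1))).2 ⟨vec_cdec c n, fun p hp => vec_step hc n hp⟩

theorem c12_slot {I : ℕ → Bool} {b : Bool} : ∀ {K j : ℕ},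
    j < ((Finset.range K).filter (fun p => I p = b)).card → ∃ p, p < K ∧ I p = b ∧ rk I p = j
  | 0, j, h => by
    simp at h
  | K + 1, j, h => by
    by_cases hj : j < ((Finset.range K).filter (fun p => I p = b)).card
    · obtain ⟨p, h1, h2, h3⟩ := c12_slot hj
      exact ⟨p, by omega, h2, h3⟩
    · rw [Finset.range_add_one, Finset.filter_insert] at h
      by_cases hb : I K = b
      · rw [if_pos hb, Finset.card_insert_of_notMem] at h
        · refine ⟨K, by omega, hb, ?_⟩
          unfold rk
          rw [hb]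
          omega
        · simp
      · rw [if_neg hb] at h
        exact absurd h hj

theorem c12_vecs {K N : ℕ} {I : ℕ → Bool} {c c' : Bool → ℕ → ℕ → ℕ} : ∀ {n : ℕ},
    vecs K N I c n = vecs K N I c' n → ∀ k < n, vec K N I c k = vec K N I c' k
  | 0, _, k, hk => absurd hk (Nat.not_lt_zero k)
  | n + 1, h, k, hk => by
    unfold vecs at h
    obtain ⟨h1, h2⟩ := List.cons.inj h
    by_cases hkn : k = n
    · rw [hkn]
      exact h1
    · exact c12_vecs h2 k (by omega)

theorem c12_shape_le (K : ℕ) (I : ℕ → Bool) (b : Bool) (v : Ex) (r : ℕ) :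
    shape (hts K I b v) r ≤ ((Finset.range K).filter (fun p => I p = b)).card := by
  unfold shape hts
  refine (Multiset.countP_le_card _ _).trans ?_
  rw [Multiset.card_map]
  exact le_rfl

/-- The chains can be read off the vectors. -/
theorem vecs_inj {K N : ℕ} {I : ℕ → Bool} {v : Ex} (hv0 : ∀ p < K, 0 ≤ v p)
    {c c' : Bool → ℕ → ℕ → ℕ} (hc : ∀ b, IsGT N (shape (hts K I b v)) (c b))
    (hc' : ∀ b, IsGT N (shape (hts K I b v)) (c' b)) (h : vecs K N I c N = vecs K N I c' N) :
    c = c' := by
  funext b k r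
  by_cases hk : N ≤ k
  · rw [(hc b).top k hk, (hc' b).top k hk]
  by_cases hr : N ≤ r
  · rw [(hc b).vanish k r (by omega), (hc' b).vanish k r (by omega)]
  have hv := c12_vecs h k (not_le.1 hk)
  have key : ∀ j, j < c b k r ↔ j < c' b k r := by
    intro j
    by_cases hj : j < ((Finset.range K).filter (fun p => I p = b)).card
    · obtain ⟨p, hp, hb, hrk⟩ := c12_slot hj
      have h1 := vec_lt_iff (K := K) (I := I) hc (k := k) hp (not_le.1 hr)
      have h2 := vec_lt_iff (K := K) (I := I) hc' (k := k) hp (not_le.1 hr)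
      rw [hv] at h1
      rw [hb, hrk] at h1 h2
      exact h1.symm.trans h2
    · have h1 := ((hc b).le_top k r).trans (c12_shape_le K I b v r)
      have h2 := ((hc' b).le_top k r).trans (c12_shape_le K I b v r)
      exact ⟨fun h => by omega, fun h => by omega⟩
  rcases lt_trichotomy (c b k r) (c' b k r) with h1 | h1 | h1
  · exact absurd ((key _).2 h1) (lt_irrefl _)
  · exact h1
  · exact absurd ((key _).1 h1) (lt_irrefl _)

theorem gt_le {K : ℕ} {I : ℕ → Bool} {v : Ex} (hv : Cdec K I v) (hv0 : ∀ p < K, 0 ≤ v p)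
    (N : ℕ) : (gt N (shape (hts K I true v))).card * (gt N (shape (hts K I false v))).card ≤
      (chist K I N v).card := by
  have hc : ∀ x ∈ gt N (shape (hts K I true v)) ×ˢ gt N (shape (hts K I false v)),
      ∀ b, IsGT N (shape (hts K I b v)) ((fun b => if b then x.1 else x.2 : Bool → ℕ → ℕ → ℕ) b) := by
    intro x hx b
    rw [Finset.mem_product, mem_gt, mem_gt] at hx
    cases b
    · exact hx.2
    · exact hx.1
  rw [← Finset.card_product]
  refine Finset.card_le_card_of_injOn
    (fun x => vecs K N I (fun b => if b then x.1 else x.2) N) ?_ ?_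
  · intro x hx
    have h1 := hc x (Finset.mem_coe.1 hx)
    have h2 := vecs_mem (K := K) (I := I) h1 N
    rw [vec_top hv hv0 h1] at h2
    exact Finset.mem_coe.2 h2
  · intro x hx y hy h
    have h1 := vecs_inj hv0 (hc x (Finset.mem_coe.1 hx)) (hc y (Finset.mem_coe.1 hy)) h
    refine Prod.ext ?_ ?_
    · exact congrFun h1 true
    · exact congrFun h1 false

end MP967.Cnt
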