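import Pool.Agent.Lib.MP_967fd7_co.Cnt.Exm
import Pool.Agent.Lib.MP_967fd7_co.Cnt.Gt

/-! Labelled paths with a valid end are families. -/

namespace MP967.Cnt

open MP967.Rep MP967.Sym

/-- The variable of the letter `j` and of the position `r`. -/
def col {N : ℕ} (hN : 0 < N) (m : ℕ) (j : ℕ) (r : ℤ) : Fin N × Cols m :=
  (if h : j < N then ⟨j, h⟩ else ⟨0, hN⟩, if 1 ≤ r then gc m (r - 1).toNat else hc m (-r).toNat)

theorem c16_gc {m a b : ℕ} (ha : a < m + 1) (hb : b < m + 1) (h : gc m a = gc m b) : a = b := by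
  have h1 : Fin.ofNat (m + 1) a = Fin.ofNat (m + 1) b := Sum.inl.inj h
  have h2 := congrArg Fin.val h1
  rw [Fin.val_ofNat, Fin.val_ofNat, Nat.mod_eq_of_lt ha, Nat.mod_eq_of_lt hb] at h2
  exact h2

theorem c16_hc {m a b : ℕ} (ha : a < m + 1) (hb : b < m + 1) (h : hc m a = hc m b) : a = b := by
  have h1 : Fin.ofNat (m + 1) a = Fin.ofNat (m + 1) b := Sum.inr.inj h
  have h2 := congrArg Fin.val h1
  rw [Fin.val_ofNat, Fin.val_ofNat, Nat.mod_eq_of_lt ha, Nat.mod_eq_of_lt hb] at h2
  exact h2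

theorem col_inj {N : ℕ} (hN : 0 < N) (m : ℕ) {i j : ℕ} {r r' : ℤ} (hi : i < N) (hj : j < N)
    (hr : -(m : ℤ) < r) (hr2 : r ≤ m) (hr' : -(m : ℤ) < r') (hr2' : r' ≤ m)
    (h : col hN m i r = col hN m j r') : i = j ∧ r = r' := by
  unfold col at h
  rw [dif_pos hi, dif_pos hj, Prod.mk.injEq, Fin.mk.injEq] at h
  refine ⟨h.1, ?_⟩
  have h2 := h.2
  by_cases h3 : 1 ≤ r
  · by_cases h4 : 1 ≤ r'
    · rw [if_pos h3, if_pos h4] at h2
      have h5 := c16_gc (by omega) (by omega) h2
      omega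
    · rw [if_pos h3, if_neg h4] at h2
      exact absurd h2 Sum.inl_ne_inr
  · by_cases h4 : 1 ≤ r'
    · rw [if_neg h3, if_pos h4] at h2
      exact absurd h2 Sum.inr_ne_inl
    · rw [if_neg h3, if_neg h4] at h2
      have h5 := c16_hc (by omega) (by omega) h2
      omega

/-- The exponent of one slot in the variables of the matrices. -/
theorem c16_slot {K N m : ℕ} (hN : 0 < N) {v θ : Ex} {L : List Ex} (hL : L.length = N)
    (h : Pth K v L θ) {p : ℕ} (hp : p < K) {k : ℕ} (hk : v p = θ p + k) :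
    ∃ b : Fin k → Fin N, StrictMono b ∧ exs (col hN m) p v L =
      ∑ j : Fin k, Finsupp.single (b j, if 1 ≤ θ p + 1 + (j : ℤ) then
        gc m (θ p + 1 + (j : ℤ) - 1).toNat else hc m (-(θ p + 1 + (j : ℤ))).toNat) 1 := by
  obtain ⟨b, hb, hbL, hs⟩ := exs_eq (col hN m) h hp hk
  have hbN : ∀ j, b j < N := fun j => hL ▸ hbL j
  refine ⟨fun j => ⟨b j, hbN j⟩, fun i j hij => hb hij, ?_⟩
  rw [hs]
  refine Finset.sum_congr rfl fun j _ => ?_
  unfold col
  rw [dif_pos (hbN j)]

/-- An unmatched slot. -/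
theorem elem_single {K N m : ℕ} (hN : 0 < N) {v θ : Ex} {L : List Ex} (hL : L.length = N)
    (h : Pth K v L θ) {p : ℕ} (hp : p < K) (h0 : θ p = 0) (hv : 0 ≤ v p) :
    Elem N m 0 (v p).toNat (exs (col hN m) p v L) := by
  obtain ⟨b, hb, hs⟩ := c16_slot (m := m) hN hL h hp (k := (v p).toNat + 0) (by
    rw [h0, add_zero, Int.toNat_of_nonneg hv, zero_add])
  refine ⟨0, le_rfl, fun i => i.elim0, b, fun i => i.elim0, hb, ?_⟩
  rw [hs, show (∑ i : Fin (0 - 0), Finsupp.single
    ((fun i => i.elim0 : Fin (0 - 0) → Fin N) i, gc m (0 + (i : ℕ))) 1 :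
      Fin N × Cols m →₀ ℕ) = 0 from Finset.sum_eq_zero fun i => i.elim0, zero_add]
  refine Finset.sum_congr rfl fun j _ => ?_
  rw [if_pos (by omega), if_neg (by omega), h0,
    show (0 + 1 + ((j : ℕ) : ℤ) - 1).toNat = (j : ℕ) - 0 by omega]

/-- A matched pair of slots. -/
theorem elem_pair {K N m : ℕ} (hN : 0 < N) {v θ : Ex} {L : List Ex} (hL : L.length = N)
    (h : Pth K v L θ) {p q : ℕ} (hp : p < K) (hq : q < K) (hθ : θ p = -θ q) (hθ0 : θ p ≤ 0)
    (hpq : v q ≤ v p) (hv : 0 ≤ v q) :
    Elem N m (v q).toNat (v p).toNat (exs (col hN m) p v L + exs (col hN m) q v L) := by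
  have h1 := (pth_le h hp).1
  have h2 := (pth_le h hq).1
  obtain ⟨d, hd⟩ : ∃ d : ℕ, θ q = d := ⟨(θ q).toNat, by omega⟩
  obtain ⟨b, hb, hs⟩ := c16_slot (m := m) hN hL h hp (k := (v p).toNat + d) (by
    push_cast
    omega)
  obtain ⟨a, ha, hs'⟩ := c16_slot (m := m) hN hL h hq (k := (v q).toNat - d) (by omega)
  refine ⟨d, by omega, a, b, ha, hb, ?_⟩
  rw [hs, hs', add_comm]
  congr 1
  · refine Finset.sum_congr rfl fun i _ => ?_
    rw [if_pos (by omega), show (θ q + 1 + ((i : ℕ) : ℤ) - 1).toNat = d + (i : ℕ) by omega]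
  · refine Finset.sum_congr rfl fun j _ => ?_
    by_cases h3 : (j : ℕ) < d
    · rw [if_neg (by omega), if_pos h3,
        show (-(θ p + 1 + ((j : ℕ) : ℤ))).toNat = d - 1 - (j : ℕ) by omega]
    · rw [if_pos (by omega), if_neg h3,
        show (θ p + 1 + ((j : ℕ) : ℤ) - 1).toNat = (j : ℕ) - d by omega]

/-- The pair of heights of a slot `p` with `p ≤ μ p`, the colour `true` first. -/
def hp (I : ℕ → Bool) (v : Ex) (μ : ℕ → ℕ) (p : ℕ) : ℕ × ℕ :=
  if μ p = p then (if I p then ((v p).toNat, 0) else (0, (v p).toNat))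
  else (if I p then ((v p).toNat, (v (μ p)).toNat) else ((v (μ p)).toNat, (v p).toNat))

/-- Splitting a sum over the slots with an involution. -/
theorem sum_inv {A : Type*} [AddCommMonoid A] (K : ℕ) (μ : ℕ → ℕ)
    (hμ : ∀ p < K, μ p < K ∧ μ (μ p) = p) (g : ℕ → A) :
    ∑ p ∈ Finset.range K, g p = ∑ p ∈ (Finset.range K).filter (fun p => p ≤ μ p),
      if μ p = p then g p else g p + g (μ p) := by
  classical
  have h1 : ∑ p ∈ (Finset.range K).filter (fun p => ¬ p ≤ μ p), g p =
      ∑ p ∈ ((Finset.range K).filter (fun p => p ≤ μ p)).filter (fun p => ¬ μ p = p), g (μ p) := by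
    refine Finset.sum_nbij' μ μ ?_ ?_ ?_ ?_ ?_
    · intro p hp
      rw [Finset.mem_filter, Finset.mem_range] at hp
      obtain ⟨h2, h3⟩ := hμ p hp.1
      rw [Finset.mem_filter, Finset.mem_filter, Finset.mem_range, h3]
      omega
    · intro p hp
      rw [Finset.mem_filter, Finset.mem_filter, Finset.mem_range] at hp
      obtain ⟨h2, h3⟩ := hμ p hp.1.1
      rw [Finset.mem_filter, Finset.mem_range, h3]
      omega
    · intro p hp
      rw [Finset.mem_filter, Finset.mem_range] at hp
      exact (hμ p hp.1).2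
    · intro p hp
      rw [Finset.mem_filter, Finset.mem_filter, Finset.mem_range] at hp
      exact (hμ p hp.1.1).2
    · intro p hp
      rw [Finset.mem_filter, Finset.mem_range] at hp
      rw [(hμ p hp.1).2]
  have h2 : ∀ p, (if μ p = p then g p else g p + g (μ p)) =
      g p + (if ¬ μ p = p then g (μ p) else 0) := by
    intro p
    by_cases h : μ p = p
    · rw [if_pos h, if_neg (not_not.2 h), add_zero]
    · rw [if_neg h, if_pos h]
  rw [← Finset.sum_filter_add_sum_filter_not (Finset.range K) (fun p => p ≤ μ p) g, h1,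
    Finset.sum_congr rfl fun p _ => h2 p, Finset.sum_add_distrib, ← Finset.sum_filter]

theorem c17_map (s : Finset ℕ) (f : ℕ → ℕ) : s.val.map f = ∑ p ∈ s, {f p} := by
  classical
  induction s using Finset.induction_on with
  | empty => rfl
  | insert a s ha ih =>
    rw [Finset.insert_val_of_notMem ha, Multiset.map_cons, Finset.sum_insert ha, ih,
      Multiset.singleton_add]

theorem c17_filter (s : Finset ℕ) (f : ℕ → ℕ) :
    (s.val.map f).filter (fun k => k ≠ 0) = ∑ p ∈ s, if f p = 0 then 0 else {f p} := by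
  classical
  induction s using Finset.induction_on with
  | empty => rfl
  | insert a s ha ih =>
    rw [Finset.insert_val_of_notMem ha, Multiset.map_cons, Finset.sum_insert ha]
    by_cases h : f a = 0
    · rw [if_pos h, zero_add, ← ih]
      exact Multiset.filter_cons_of_neg _ (not_not.2 h)
    · rw [if_neg h, ← ih, Multiset.singleton_add]
      exact Multiset.filter_cons_of_pos _ h

/-- The heights of the pairs form a matching. -/
theorem isMatch_hp {K : ℕ} {I : ℕ → Bool} {v : Ex} (hv : ∀ p < K, 1 ≤ v p) (μ : ℕ → ℕ)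
    (hμ : ∀ p < K, μ p < K ∧ μ (μ p) = p ∧ (p < μ p → I p ≠ I (μ p))) :
    IsMatch (hts K I true v) (hts K I false v)
      (((Finset.range K).filter (fun p => p ≤ μ p)).val.map (hp I v μ)) := by
  classical
  have hg : ∀ b : Bool, hts K I b v =
      ∑ p ∈ (Finset.range K).filter (fun p => p ≤ μ p),
        if μ p = p then (if I p = b then ({(v p).toNat} : Multiset ℕ) else 0)
        else (if I p = b then ({(v p).toNat} : Multiset ℕ) else 0) +
          (if I (μ p) = b then ({(v (μ p)).toNat} : Multiset ℕ) else 0) := by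
    intro b
    rw [← sum_inv K μ (fun p hp => ⟨(hμ p hp).1, (hμ p hp).2.1⟩)
      (fun p => if I p = b then ({(v p).toNat} : Multiset ℕ) else 0), ← Finset.sum_filter]
    exact c17_map _ _
  have hne : ∀ p < K, (v p).toNat ≠ 0 := by
    intro p hp
    have h1 := hv p hp
    omega
  constructor
  · rw [Multiset.map_map, hg true]
    refine (c17_filter _ _).trans (Finset.sum_congr rfl fun p hp => ?_)
    rw [Finset.mem_filter, Finset.mem_range] at hp
    obtain ⟨h1, h2, h3⟩ := hμ p hp.1
    have h4 := hne p hp.1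
    have h5 := hne _ h1
    rw [Function.comp_apply]
    unfold MP967.Cnt.hp
    by_cases h6 : μ p = p
    · rw [if_pos h6, if_pos h6]
      by_cases h7 : I p = true
      · rw [if_pos h7, if_pos h7, if_neg h4]
      · rw [if_neg h7, if_neg h7, if_pos rfl]
    · rw [if_neg h6, if_neg h6]
      have h8 := h3 (by omega)
      by_cases h7 : I p = true
      · rw [if_pos h7, if_pos h7, if_neg h4, if_neg (by rw [← h7]; exact h8.symm), add_zero]
      · have h9 : I (μ p) = true := by
          cases h10 : I (μ p)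
          · rw [h10] at h8
            cases h11 : I p
            · exact absurd h11 h8
            · exact absurd h11 h7
          · rfl
        rw [if_neg h7, if_neg h7, if_pos h9, if_neg h5, zero_add]
  · rw [Multiset.map_map, hg false]
    refine (c17_filter _ _).trans (Finset.sum_congr rfl fun p hp => ?_)
    rw [Finset.mem_filter, Finset.mem_range] at hp
    obtain ⟨h1, h2, h3⟩ := hμ p hp.1
    have h4 := hne p hp.1
    have h5 := hne _ h1
    rw [Function.comp_apply]
    unfold MP967.Cnt.hp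
    by_cases h6 : μ p = p
    · rw [if_pos h6, if_pos h6]
      by_cases h7 : I p = true
      · rw [if_pos h7, if_pos rfl, if_neg (by rw [h7]; exact Bool.noConfusion)]
      · have h7' : I p = false := by
          cases h11 : I p
          · rfl
          · exact absurd h11 h7
        rw [if_neg h7, if_pos h7', if_neg h4]
    · rw [if_neg h6, if_neg h6]
      have h8 := h3 (by omega)
      by_cases h7 : I p = true
      · have h9 : I (μ p) = false := by
          cases h10 : I (μ p)
          · rfl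
          · rw [h10] at h8
            exact absurd h7 h8
        rw [if_pos h7, if_neg h5, if_neg (by rw [h7]; exact Bool.noConfusion), if_pos h9, zero_add]
      · have h7' : I p = false := by
          cases h11 : I p
          · rfl
          · exact absurd h11 h7
        rw [if_neg h7, if_pos h7', if_neg h4, if_neg (by rw [← h7']; exact h8.symm), add_zero]

/-- The entries of a decreasing vector decrease. -/
theorem c18_dec {K : ℕ} {v : Ex} (hv : Dec K v) {p q : ℕ} (hpq : p ≤ q) (hq : q < K) :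
    v q ≤ v p := by
  induction q, hpq using Nat.le_induction with
  | base => exact le_rfl
  | succ q hpq ih => exact (hv.1 q hq).trans (ih (by omega))

/-- The pair of heights of an unmatched slot. -/
theorem c18_hp_self {I : ℕ → Bool} {v : Ex} {μ : ℕ → ℕ} {p : ℕ} (h : μ p = p) :
    min (hp I v μ p).1 (hp I v μ p).2 = 0 ∧ max (hp I v μ p).1 (hp I v μ p).2 = (v p).toNat := by
  unfold hp
  rw [if_pos h]
  split_ifs <;> simp

/-- The pair of heights of a matched slot. -/
theorem c18_hp_pair {I : ℕ → Bool} {v : Ex} {μ : ℕ → ℕ} {p : ℕ} (h : μ p ≠ p)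
    (hv : v (μ p) ≤ v p) :
    min (hp I v μ p).1 (hp I v μ p).2 = (v (μ p)).toNat ∧
      max (hp I v μ p).1 (hp I v μ p).2 = (v p).toNat := by
  have h1 : (v (μ p)).toNat ≤ (v p).toNat := Int.toNat_le_toNat hv
  unfold hp
  rw [if_neg h]
  split_ifs
  · exact ⟨min_eq_right h1, max_eq_left h1⟩
  · exact ⟨min_eq_left h1, max_eq_right h1⟩

theorem fam_of_path {K N m : ℕ} (hN : 0 < N) {I : ℕ → Bool} {v θ : Ex} (hv : Dec K v)
    (hv1 : ∀ p < K, 1 ≤ v p) {L : List Ex} (hL : L.length = N) (h : Pth K v L θ)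
    (hθ : Valid K I θ) : ex K (col hN m) v L ∈ Fam N m (hts K I true v) (hts K I false v) := by
  obtain ⟨μ, hμ⟩ := hθ
  refine ⟨((Finset.range K).filter (fun p => p ≤ μ p)).val.map fun p => (hp I v μ p,
    if μ p = p then exs (col hN m) p v L else exs (col hN m) p v L + exs (col hN m) (μ p) v L),
    ?_, ?_, ?_⟩
  · rw [Multiset.map_map]
    exact isMatch_hp hv1 μ fun p hp =>
      ⟨(hμ p hp).1, (hμ p hp).2.1, fun h' => ((hμ p hp).2.2.2 h').1⟩
  · intro x hx
    obtain ⟨p, hp', rfl⟩ := Multiset.mem_map.1 hx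
    rw [Finset.mem_val, Finset.mem_filter, Finset.mem_range] at hp'
    obtain ⟨hpK, hpμ⟩ := hp'
    obtain ⟨h1, h2, h3, h4⟩ := hμ p hpK
    by_cases he : μ p = p
    · rw [if_pos he, (c18_hp_self he).1, (c18_hp_self he).2]
      exact elem_single hN hL h hpK (h3 he) (by linarith [hv1 p hpK])
    · have hlt : p < μ p := by omega
      have hvv := c18_dec hv hpμ h1
      obtain ⟨-, h5, h6⟩ := h4 hlt
      rw [if_neg he, (c18_hp_pair he hvv).1, (c18_hp_pair he hvv).2]
      exact elem_pair hN hL h hpK h1 h5 h6 hvv (by linarith [hv1 (μ p) h1])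
  · rw [Multiset.map_map, ex_eq_sum, sum_inv K μ (fun p hp => ⟨(hμ p hp).1, (hμ p hp).2.1⟩)]
    rfl

/-- The entries of a valid vector at the end of a path are `≥ -m`. -/
theorem valid_ge {K : ℕ} {m : ℤ} {I : ℕ → Bool} {v θ : Ex} (hm : ∀ p < K, v p ≤ m) (hm0 : 0 ≤ m)
    {L : List Ex} (h : Pth K v L θ) (hθ : Valid K I θ) : ∀ p < K, -m ≤ θ p := by
  obtain ⟨μ, hμ⟩ := hθ
  intro p hp
  obtain ⟨h1, h2, h3, h4⟩ := hμ p hp
  rcases lt_trichotomy (μ p) p with h5 | h5 | h5
  · obtain ⟨-, -, -, h6⟩ := hμ (μ p) h1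
    rw [h2] at h6
    obtain ⟨-, h7, h8⟩ := h6 h5
    linarith
  · rw [h3 h5]
    linarith
  · obtain ⟨-, h7, -⟩ := h4 h5
    have h8 := (pth_le h h1).1
    have h9 := hm (μ p) h1
    linarith

end MP967.Cnt
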