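import Mathlib

/-!
The count (paper: `/team-store/h69_count.md`). Laurent polynomials in the variables `x_0, x_1, …`,
Demazure operators, words, colourings.
-/

namespace MP967.Cnt

/-- Exponents. The slots are numbered `0, 1, 2, …`. -/
abbrev Ex := ℕ → ℤ

/-- Laurent polynomials. -/
abbrev Lau := AddMonoidAlgebra ℤ Ex

/-- The monomial with exponent `v`. -/
noncomputable def mono (v : Ex) : Lau := AddMonoidAlgebra.single v 1

/-- The linear map with given values on the monomials. -/
noncomputable def lin (φ : Ex → Lau) : Lau →ₗ[ℤ] Lau :=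
  (Finsupp.lsum ℤ fun v => LinearMap.toSpanSingleton ℤ Lau (φ v)).comp
    (AddMonoidAlgebra.coeffLinearEquiv ℤ).toLinearMap

/-- Exchange of the slots `i`, `i + 1`. -/
def sw (i : ℕ) (v : Ex) : Ex := fun p => v (Equiv.swap i (i + 1) p)

/-- Exchange of the slots as an additive equivalence. -/
def swE (i : ℕ) : Ex ≃+ Ex where
  toFun := sw i
  invFun := sw i
  left_inv v := by
    funext p
    simp [sw]
  right_inv v := by
    funext p
    simp [sw]
  map_add' u v := rfl

/-- The exchange of the variables `x_i`, `x_{i+1}`. -/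
noncomputable def s (i : ℕ) : Lau ≃ₐ[ℤ] Lau := AddMonoidAlgebra.domCongr ℤ ℤ (swE i)

/-- The root `ε_i - ε_{i+1}`. -/
def al (i : ℕ) : Ex := Pi.single i 1 - Pi.single (i + 1) 1

/-- The Demazure operator on monomials. -/
noncomputable def piM (i : ℕ) (v : Ex) : Lau :=
  if v (i + 1) ≤ v i then ∑ k ∈ Finset.range ((v i - v (i + 1)).toNat + 1), mono (v - (k : ℤ) • al i)
  else -∑ k ∈ Finset.range ((v (i + 1) - v i).toNat - 1), mono (v + ((k : ℤ) + 1) • al i)

/-- The Demazure operator. -/
noncomputable def pi (i : ℕ) : Lau →ₗ[ℤ] Lau := lin (piM i)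

/-- The variable `x_i`. -/
noncomputable def X (i : ℕ) : Lau := mono (Pi.single i 1)

/-- The set operator which goes with `pi i`. -/
def So (i : ℕ) (Th : Set Ex) : Set Ex := Th ∪ sw i '' Th

/-- `W N D f Th`: `f` is a word of Demazure operators (slots `< N`) applied to the monomial `D`, and
`Th` is the set of exponents which can be reached by subwords. -/
inductive W (N : ℕ) (D : Ex) : Lau → Set Ex → Prop
  | base : W N D (mono D) {D}
  | step (i : ℕ) (hi : i + 1 < N) {f : Lau} {Th : Set Ex} : W N D f Th →
      W N D (pi i f) (So i Th)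

/-- `D` is decreasing on the slots `< N` and zero on the others. -/
def Dec (N : ℕ) (D : Ex) : Prop := (∀ p, p + 1 < N → D (p + 1) ≤ D p) ∧ ∀ p, N ≤ p → D p = 0

/-- The product of `1 - x_p / x_q` over `p < q < N` of the same colour. -/
noncomputable def Dl (N : ℕ) (I : ℕ → Bool) : Lau :=
  ∏ q ∈ Finset.range N, ∏ p ∈ Finset.range q,
    if I p = I q then 1 - mono (Pi.single p 1 - Pi.single q 1) else 1

/-- The constant term of `f * Dl N I`. -/
noncomputable def el (N : ℕ) (I : ℕ → Bool) : Lau →ₗ[ℤ] ℤ :=
  ((Finsupp.lapply (0 : Ex)).comp (AddMonoidAlgebra.coeffLinearEquiv ℤ).toLinearMap).comp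
    (LinearMap.mulRight ℤ (Dl N I))

/-- `th` is valid for the colouring `I`: there is an involution `m` of the slots `< N` such that `th` is zero on
the fixed points and `th p = - th q ≤ 0` if `m p = q > p`, and then `p`, `q` have different colours. -/
def Valid (N : ℕ) (I : ℕ → Bool) (th : Ex) : Prop :=
  ∃ m : ℕ → ℕ, ∀ p < N, m p < N ∧ m (m p) = p ∧ (m p = p → th p = 0) ∧
    (p < m p → I p ≠ I (m p) ∧ th p = -th (m p) ∧ th p ≤ 0)

/-- The shift: slot `0` gets the value `M`, slot `p + 1` the value `v p`. -/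
def cons (M : ℤ) (v : Ex) : Ex := fun p => Nat.casesOn p M v

/-- The shift of the variables `x_p ↦ x_{p+1}`. -/
noncomputable def shiftA : Lau →ₐ[ℤ] Lau :=
  AddMonoidAlgebra.mapDomainAlgHom ℤ ℤ
    { toFun := cons 0
      map_zero' := by
        funext p
        cases p <;> rfl
      map_add' := fun u v => by
        funext p
        cases p
        · rfl
        · rfl }

/-- `x_0 ^ M` times the shift. -/
noncomputable def consL (M : ℤ) (f : Lau) : Lau := mono (Pi.single 0 M) * shiftA f

/-- The reversal of the slots `< N` with a sign. -/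
def rv (N : ℕ) (v : Ex) : Ex := fun p => -v (if p < N then N - 1 - p else p)

/-- The reversal as an additive equivalence. -/
def rvE (N : ℕ) : Ex ≃+ Ex where
  toFun := rv N
  invFun := rv N
  left_inv v := by
    funext p
    unfold rv
    split_ifs with h1 h2
    · simp only [neg_neg]
      congr 1
      omega
    · omega
    · exact neg_neg _
  right_inv v := by
    funext p
    unfold rv
    split_ifs with h1 h2
    · simp only [neg_neg]
      congr 1
      omega
    · omega
    · exact neg_neg _
  map_add' u v := by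
    funext p
    exact neg_add _ _

/-- The reversal `x_p ↦ x_{N-1-p}⁻¹`. -/
noncomputable def rvA (N : ℕ) : Lau ≃ₐ[ℤ] Lau := AddMonoidAlgebra.domCongr ℤ ℤ (rvE N)

/-- The iterated operators `pi (j-1) ⋯ pi 1 (pi 0 f)`. -/
noncomputable def piUp : ℕ → Lau → Lau
  | 0, f => f
  | j + 1, f => pi j (piUp j f)

/-- The iterated set operators. -/
def swUp : ℕ → Set Ex → Set Ex
  | 0, Th => Th
  | j + 1, Th => So j (swUp j Th)

/-- The iterated operators `pi j (pi (j+1) ⋯ (pi (j+k-1) f))`. -/
noncomputable def piDn : ℕ → ℕ → Lau → Lau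
  | _, 0, f => f
  | j, k + 1, f => pi j (piDn (j + 1) k f)

/-- The iterated set operators. -/
def swDn : ℕ → ℕ → Set Ex → Set Ex
  | _, 0, Th => Th
  | j, k + 1, Th => So j (swDn (j + 1) k Th)

/-- Removal of the slot `0`. -/
def tl (v : Ex) : Ex := fun p => v (p + 1)

/-- Removal of the slot `i`. -/
def rem (i : ℕ) (v : Ex) : Ex := fun p => if p < i then v p else v (p + 1)

open Classical in
/-- The coefficient of `x_i ^ m`, with the slot `i` removed. -/
noncomputable def cf (i : ℕ) (m : ℤ) : Lau →ₗ[ℤ] Lau :=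
  lin fun v => if v i = m then mono (rem i v) else 0

/-- Exchange of the colours of the slots `i`, `i + 1`. -/
def cs (i : ℕ) (I : ℕ → Bool) : ℕ → Bool := fun p => I (Equiv.swap i (i + 1) p)

/-- The claim of the key lemma. -/
def Ok (N : ℕ) (I : ℕ → Bool) (f : Lau) (Th : Set Ex) : Prop :=
  el N I f ≤ 1 ∧ (0 < el N I f → ∃ th ∈ Th, Valid N I th)

end MP967.Cnt
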