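import Pool.Agent.Lib.MP_967fd7_co.Cnt.Hist

/-! The exponents of a history. -/

namespace MP967.Cnt

variable {X : Type}

/-- The exponent of a list of vectors: every move of a coordinate from `r` to `r - 1` in the step with
the number `j` (the last step has the number `0`) gives the variable `f j r`. -/
noncomputable def ex (K : ℕ) (f : ℕ → ℤ → X) : Ex → List Ex → X →₀ ℕ
  | _, [] => 0
  | v, z :: H => (∑ p ∈ Finset.range K,
      if v p = z p then 0 else Finsupp.single (f H.length (v p)) 1) + ex K f z H

/-- The moves of one step, grouped by the value. -/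
theorem c13_group {K : ℕ} (g : ℤ → X) (u u' : Ex) (R : Finset ℤ)
    (hR : ∀ p ∈ Finset.range K, u p ∈ R) :
    (∑ p ∈ Finset.range K, if u p = u' p then 0 else Finsupp.single (g (u p)) 1 : X →₀ ℕ) =
      ∑ r ∈ R, ((Finset.range K).filter (fun p => u p = r ∧ u' p ≠ r)).card •
        Finsupp.single (g r) 1 := by
  rw [← Finset.sum_fiberwise_of_maps_to hR]
  refine Finset.sum_congr rfl fun r _ => ?_
  rw [← Finset.sum_const, ← Finset.filter_filter, Finset.sum_filter (fun p => u' p ≠ r)]
  refine Finset.sum_congr rfl fun p hp => ?_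
  rw [Finset.mem_filter] at hp
  rw [hp.2]
  by_cases h : u' p = r
  · rw [if_pos h.symm, if_neg (not_not.2 h)]
  · rw [if_neg (Ne.symm h), if_pos h]

/-- The number of moves at the value `r`. -/
theorem c13_count {K : ℕ} {u u' : Ex} (h : ∀ p < K, u p = u' p ∨ u p = u' p + 1) (r : ℤ) :
    ((Finset.range K).filter (fun p => r ≤ u p)).card =
      ((Finset.range K).filter (fun p => r ≤ u' p)).card +
        ((Finset.range K).filter (fun p => u p = r ∧ u' p ≠ r)).card := by
  rw [← Finset.card_union_of_disjoint]
  · congr 1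
    ext p
    simp only [Finset.mem_union, Finset.mem_filter, Finset.mem_range]
    constructor
    · rintro ⟨hp, hr⟩
      rcases h p hp with h1 | h1
      · exact Or.inl ⟨hp, by omega⟩
      · by_cases h2 : r ≤ u' p
        · exact Or.inl ⟨hp, h2⟩
        · exact Or.inr ⟨hp, by omega, by omega⟩
    · rintro (⟨hp, hr⟩ | ⟨hp, hr, _⟩)
      · refine ⟨hp, ?_⟩
        rcases h p hp with h1 | h1 <;> omega
      · exact ⟨hp, by omega⟩
  · rw [Finset.disjoint_left]
    intro p hp hp'
    simp only [Finset.mem_filter, Finset.mem_range] at hp hp'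
    rcases h p hp.1 with h1 | h1
    · exact hp'.2.2 (by omega)
    · omega

/-- One step depends only on the entries. -/
theorem step_sim {K : ℕ} (g : ℤ → X) {u u' z z' : Ex} (hu : Sim K u z) (hu' : Sim K u' z')
    (h : ∀ p < K, u p = u' p ∨ u p = u' p + 1) (h' : ∀ p < K, z p = z' p ∨ z p = z' p + 1) :
    (∑ p ∈ Finset.range K, if u p = u' p then 0 else Finsupp.single (g (u p)) 1 : X →₀ ℕ) =
      ∑ p ∈ Finset.range K, if z p = z' p then 0 else Finsupp.single (g (z p)) 1 := by
  rw [c13_group g u u' ((Finset.range K).image u ∪ (Finset.range K).image z)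
    (fun p hp => Finset.mem_union_left _ (Finset.mem_image_of_mem u hp)),
    c13_group g z z' ((Finset.range K).image u ∪ (Finset.range K).image z)
    (fun p hp => Finset.mem_union_right _ (Finset.mem_image_of_mem z hp))]
  refine Finset.sum_congr rfl fun r _ => ?_
  have h1 := c13_count h r
  have h2 := c13_count h' r
  have h3 := hu r
  have h4 := hu' r
  rw [show ((Finset.range K).filter (fun p => u p = r ∧ u' p ≠ r)).card =
    ((Finset.range K).filter (fun p => z p = r ∧ z' p ≠ r)).card by omega]

theorem c13_ex_sim {K : ℕ} (f : ℕ → ℤ → X) {u θ : Ex} {L : List Ex} (hp : Pth K u L θ) :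
    ∀ {n : ℕ} {v : Ex} {H : List Ex}, Dec K v → Sim K u v → H ∈ hist K n v →
      List.Forall₂ (Sim K) L H → ex K f u L = ex K f v H := by
  induction hp with
  | nil u =>
    intro n v H hv hs hH hL
    cases hL
    rfl
  | @cons u u' θ L h h0 hL' ih =>
    intro n v H hv hs hH hL
    cases hL with
    | @cons _ z _ T hz hT =>
      cases n with
      | zero => exact absurd (mem_hist_zero.1 hH) (List.cons_ne_nil z T)
      | succ n =>
        obtain ⟨z₁, hz₁, H₁, hH₁, he⟩ := mem_hist_succ.1 hH
        rw [List.cons.injEq] at he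
        obtain ⟨rfl, rfl⟩ := he
        obtain ⟨hdz, hstep⟩ := (mem_steps hv).1 hz₁
        simp only [ex]
        rw [ih hdz hz hH₁ hT, hT.length_eq]
        congr 1
        exact step_sim (f T.length) hs hz h hstep

/-- The exponent of a labelled path is the exponent of the history. -/
theorem ex_sim {K n : ℕ} (f : ℕ → ℤ → X) {v θ : Ex} {L H : List Ex} (hv : Dec K v)
    (hH : H ∈ hist K n v) (hL : List.Forall₂ (Sim K) L H) (hp : Pth K v L θ) :
    ex K f v L = ex K f v H :=
  c13_ex_sim f hp hv (sim_refl K v) hH hL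

/-- The last vector of a history is below the first one. -/
theorem c13_lst_le {K n : ℕ} : ∀ {v : Ex} {H : List Ex}, Dec K v → H ∈ hist K n v →
    ∀ p < K, lst v H p ≤ v p := by
  induction n with
  | zero =>
    intro v H hv hH p hp
    rw [mem_hist_zero.1 hH]
    exact le_refl _
  | succ n ih =>
    intro v H hv hH p hp
    obtain ⟨z, hz, T, hT, rfl⟩ := mem_hist_succ.1 hH
    obtain ⟨hdz, hstep⟩ := (mem_steps hv).1 hz
    rw [lst_cons]
    have h1 := ih hdz hT p hp
    rcases hstep p hp with h2 | h2 <;> omega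

/-- The variables in the exponent of a history of length `n` have letters `< n` and positions between
the last vector and the first one. -/
theorem ex_support {K n : ℕ} (f : ℕ → ℤ → X) {v : Ex} {H : List Ex} (hv : Dec K v)
    (hH : H ∈ hist K n v) {x : X} (hx : ex K f v H x ≠ 0) :
    ∃ j < n, ∃ p < K, ∃ r : ℤ, lst v H p < r ∧ r ≤ v p ∧ f j r = x := by
  classical
  induction n generalizing v H with
  | zero =>
    rw [mem_hist_zero.1 hH] at hx
    exact absurd rfl hx
  | succ n ih =>
    obtain ⟨z, hz, T, hT, rfl⟩ := mem_hist_succ.1 hH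
    obtain ⟨hdz, hstep⟩ := (mem_steps hv).1 hz
    rw [lst_cons]
    simp only [ex, Finsupp.add_apply] at hx
    by_cases h2 : ex K f z T x = 0
    · rw [h2, add_zero, Finsupp.finsetSum_apply] at hx
      obtain ⟨p, hp, hp'⟩ := Finset.exists_ne_zero_of_sum_ne_zero hx
      rw [Finset.mem_range] at hp
      by_cases h3 : v p = z p
      · rw [if_pos h3] at hp'
        exact absurd rfl hp'
      · rw [if_neg h3, Finsupp.single_apply] at hp'
        have h4 : f T.length (v p) = x := by
          by_contra h4
          exact hp' (if_neg h4)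
        rw [hist_length hT] at h4
        refine ⟨n, Nat.lt_succ_self n, p, hp, v p, ?_, le_refl _, h4⟩
        have h5 := c13_lst_le hdz hT p hp
        rcases hstep p hp with h6 | h6
        · exact absurd h6 h3
        · omega
    · obtain ⟨j, hj, p, hp, r, h3, h4, h5⟩ := ih hdz hT h2
      refine ⟨j, by omega, p, hp, r, h3, ?_, h5⟩
      rcases hstep p hp with h6 | h6 <;> omega

theorem c14_anti {K : ℕ} {z : Ex} (hz : Dec K z) {p q : ℕ} (hpq : p ≤ q) (hq : q < K) :
    z q ≤ z p := by
  induction q, hpq using Nat.le_induction with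
  | base => exact le_refl _
  | succ q _ ih => exact (hz.1 q hq).trans (ih (by omega))

theorem c14_seg {K : ℕ} {z : Ex} (hz : Dec K z) {p : ℕ} (hp : p < K) (r : ℤ) :
    r ≤ z p ↔ p < ((Finset.range K).filter (fun q => r ≤ z q)).card := by
  constructor
  · intro h
    have h1 : Finset.range (p + 1) ⊆ (Finset.range K).filter (fun q => r ≤ z q) := by
      intro q hq
      rw [Finset.mem_range] at hq
      rw [Finset.mem_filter, Finset.mem_range]
      exact ⟨by omega, h.trans (c14_anti hz (by omega) hp)⟩
    have h2 := Finset.card_le_card h1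
    rw [Finset.card_range] at h2
    omega
  · intro h
    by_contra h1
    have h2 : (Finset.range K).filter (fun q => r ≤ z q) ⊆ Finset.range p := by
      intro q hq
      rw [Finset.mem_filter, Finset.mem_range] at hq
      rw [Finset.mem_range]
      by_contra h3
      have h4 := c14_anti hz (Nat.le_of_not_lt h3) hq.1
      omega
    have h3 := Finset.card_le_card h2
    rw [Finset.card_range] at h3
    omega

/-- Decreasing vectors are determined by the moves. -/
theorem step_inj {K : ℕ} {v z z' : Ex} (hv : Dec K v) (hz : z ∈ steps K v) (hz' : z' ∈ steps K v)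
    (h : ∀ r : ℤ, ((Finset.range K).filter (fun p => v p = r ∧ z p ≠ r)).card =
      ((Finset.range K).filter (fun p => v p = r ∧ z' p ≠ r)).card) : z = z' := by
  obtain ⟨hd, hs⟩ := (mem_steps hv).1 hz
  obtain ⟨hd', hs'⟩ := (mem_steps hv).1 hz'
  have hc : ∀ r : ℤ, ((Finset.range K).filter (fun p => r ≤ z p)).card =
      ((Finset.range K).filter (fun p => r ≤ z' p)).card := by
    intro r
    have h1 := c13_count hs r
    have h2 := c13_count hs' r
    have h3 := h r
    omega
  funext p
  by_cases hp : p < K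
  · refine le_antisymm ?_ ?_
    · rw [c14_seg hd' hp, ← hc, ← c14_seg hd hp]
    · rw [c14_seg hd hp, hc, ← c14_seg hd' hp]
  · rw [hd.2 p (Nat.le_of_not_lt hp), hd'.2 p (Nat.le_of_not_lt hp)]

/-- The coefficient of the exponent of a history at a variable of the first step. -/
theorem c14_coeff {K N : ℕ} (lo hi : ℤ) (f : ℕ → ℤ → X)
    (hf : ∀ i j r r', i < N + 1 → j < N + 1 → lo < r → r ≤ hi → lo < r' → r' ≤ hi →
      f i r = f j r' → i = j ∧ r = r') {v z : Ex} (hv : Dec K v) (hhi : ∀ p < K, v p ≤ hi)
    {T : List Ex} (hz : z ∈ steps K v) (hT : T ∈ hist K N z) (hlo : ∀ p < K, lo ≤ lst z T p)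
    {r : ℤ} (hr : lo < r) (hr' : r ≤ hi) :
    ex K f v (z :: T) (f N r) =
      ((Finset.range K).filter (fun p => v p = r ∧ z p ≠ r)).card := by
  classical
  obtain ⟨hdz, hstep⟩ := (mem_steps hv).1 hz
  have hlz : ∀ p < K, lo ≤ z p := fun p hp => (hlo p hp).trans (c13_lst_le hdz hT p hp)
  simp only [ex, Finsupp.add_apply]
  have h0 : ex K f z T (f N r) = 0 := by
    by_contra h0
    obtain ⟨j, hj, p, hp, r', h1, h2, h3⟩ := ex_support f hdz hT h0
    have h4 := hlo p hp
    have h5 := hhi p hp
    have h6 := hstep p hp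
    have h7 := hf j N r' r (by omega) (by omega) (by omega) (by omega) hr hr' h3
    omega
  rw [h0, add_zero, Finsupp.finsetSum_apply, Finset.card_filter]
  refine Finset.sum_congr rfl fun p hp => ?_
  rw [Finset.mem_range] at hp
  have h1 := hstep p hp
  have h2 := hlz p hp
  have h3 := hhi p hp
  by_cases h4 : v p = z p
  · rw [if_pos h4, if_neg (fun h => h.2 (h4.symm.trans h.1))]
    rfl
  · rw [if_neg h4, hist_length hT, Finsupp.single_apply]
    by_cases h5 : v p = r
    · rw [if_pos (by rw [h5]), if_pos ⟨h5, fun h => h4 (h5.trans h.symm)⟩]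
    · rw [if_neg (fun h => h5 (hf N N (v p) r (by omega) (by omega) (by omega) (by omega)
        hr hr' h).2), if_neg (fun h => h5 h.1)]

/-- There are no moves outside the range. -/
theorem c14_out {K N : ℕ} (lo hi : ℤ) {v z : Ex} (hv : Dec K v) (hhi : ∀ p < K, v p ≤ hi)
    {T : List Ex} (hz : z ∈ steps K v) (hT : T ∈ hist K N z) (hlo : ∀ p < K, lo ≤ lst z T p)
    {r : ℤ} (hr : r ≤ lo ∨ hi < r) :
    ((Finset.range K).filter (fun p => v p = r ∧ z p ≠ r)).card = 0 := by
  obtain ⟨hdz, hstep⟩ := (mem_steps hv).1 hz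
  rw [Finset.card_eq_zero, Finset.filter_eq_empty_iff]
  intro p hp hpr
  rw [Finset.mem_range] at hp
  have h1 := hstep p hp
  have h2 := (hlo p hp).trans (c13_lst_le hdz hT p hp)
  have h3 := hhi p hp
  obtain ⟨h4, h5⟩ := hpr
  omega

/-- A history is determined by its exponent, if `f` is injective on the relevant pairs. -/
theorem ex_inj {K N : ℕ} (lo hi : ℤ) (f : ℕ → ℤ → X)
    (hf : ∀ i j r r', i < N → j < N → lo < r → r ≤ hi → lo < r' → r' ≤ hi → f i r = f j r' →
      i = j ∧ r = r') {v : Ex} (hv : Dec K v) (hhi : ∀ p < K, v p ≤ hi) {H H' : List Ex}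
    (hH : H ∈ hist K N v) (hH' : H' ∈ hist K N v) (hlo : ∀ p < K, lo ≤ lst v H p)
    (hlo' : ∀ p < K, lo ≤ lst v H' p) (h : ex K f v H = ex K f v H') : H = H' := by
  induction N generalizing v H H' with
  | zero => rw [mem_hist_zero.1 hH, mem_hist_zero.1 hH']
  | succ N ih =>
    obtain ⟨z, hz, T, hT, rfl⟩ := mem_hist_succ.1 hH
    obtain ⟨z', hz', T', hT', rfl⟩ := mem_hist_succ.1 hH'
    rw [lst_cons] at hlo hlo'
    obtain ⟨hdz, hstep⟩ := (mem_steps hv).1 hz
    have hzz : z = z' := by
      refine step_inj hv hz hz' fun r => ?_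
      by_cases hr : lo < r ∧ r ≤ hi
      · rw [← c14_coeff lo hi f hf hv hhi hz hT hlo hr.1 hr.2,
          ← c14_coeff lo hi f hf hv hhi hz' hT' hlo' hr.1 hr.2, h]
      · rw [c14_out lo hi hv hhi hz hT hlo (by omega),
          c14_out lo hi hv hhi hz' hT' hlo' (by omega)]
    subst hzz
    simp only [ex] at h
    rw [hist_length hT, hist_length hT'] at h
    have h1 := add_left_cancel h
    rw [ih (fun i j r r' hi' hj' => hf i j r r' (by omega) (by omega)) hdz
      (fun p hp => by
        have h2 := hhi p hp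
        rcases hstep p hp with h3 | h3 <;> omega) hT hT' hlo hlo' h1]

theorem c14_pth_lst {K : ℕ} {u θ : Ex} {L : List Ex} (h : Pth K u L θ) : lst u L = θ := by
  induction h with
  | nil u => rfl
  | cons h h0 hL ih =>
    rw [lst_cons]
    exact ih

theorem c14_sim_lst {K : ℕ} {L H : List Ex} (h : List.Forall₂ (Sim K) L H) :
    ∀ {u v : Ex}, Sim K u v → Sim K (lst u L) (lst v H) := by
  induction h with
  | nil => intro u v h; exact h
  | cons h hL ih =>
    intro u v _
    rw [lst_cons, lst_cons]
    exact ih h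

/-- The bounds of a labelled path carry over to the last vector of the history. -/
theorem lst_bound {K n : ℕ} {v θ : Ex} {H : List Ex} (hv : Dec K v) (hH : H ∈ hist K n v)
    (h : Lab K v H θ) (lo : ℤ) (hlo : ∀ p < K, lo ≤ θ p) : ∀ p < K, lo ≤ lst v H p := by
  obtain ⟨L, hL, hP⟩ := h
  have h1 := c14_sim_lst hL (sim_refl K v) lo
  rw [c14_pth_lst hP, Finset.filter_true_of_mem (fun p hp => hlo p (Finset.mem_range.1 hp))] at h1
  have h2 := Finset.eq_of_subset_of_card_le (Finset.filter_subset (fun p => lo ≤ lst v H p)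
    (Finset.range K)) (le_of_eq h1)
  intro p hp
  have h3 : p ∈ (Finset.range K).filter (fun p => lo ≤ lst v H p) := by
    rw [h2]
    exact Finset.mem_range.2 hp
  exact (Finset.mem_filter.1 h3).2

/-- The exponent of one slot. -/
noncomputable def exs (f : ℕ → ℤ → X) (p : ℕ) : Ex → List Ex → X →₀ ℕ
  | _, [] => 0
  | v, z :: H => (if v p = z p then 0 else Finsupp.single (f H.length (v p)) 1) + exs f p z H

theorem ex_eq_sum (K : ℕ) (f : ℕ → ℤ → X) (v : Ex) (L : List Ex) :
    ex K f v L = ∑ p ∈ Finset.range K, exs f p v L := by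
  induction L generalizing v with
  | nil => simp only [ex, exs, Finset.sum_const_zero]
  | cons z H ih =>
    simp only [ex, exs]
    rw [ih z, Finset.sum_add_distrib]

theorem pth_le {K : ℕ} {v θ : Ex} {L : List Ex} (h : Pth K v L θ) {p : ℕ} (hp : p < K) :
    θ p ≤ v p ∧ v p ≤ θ p + L.length := by
  induction h with
  | nil u => simp
  | cons h h0 _ ih =>
    have h1 := h p hp
    rw [List.length_cons]
    push_cast
    omega

/-- The exponent of one slot: the moves in increasing order go to the consecutive positions. -/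
theorem exs_eq {K : ℕ} (f : ℕ → ℤ → X) {v θ : Ex} {L : List Ex} (h : Pth K v L θ) {p : ℕ}
    (hp : p < K) {k : ℕ} (hk : v p = θ p + k) :
    ∃ b : Fin k → ℕ, StrictMono b ∧ (∀ j, b j < L.length) ∧
      exs f p v L = ∑ j : Fin k, Finsupp.single (f (b j) (θ p + 1 + j)) 1 := by
  induction h generalizing k with
  | nil u =>
    have hk0 : k = 0 := by omega
    subst hk0
    exact ⟨fun j => 0, fun j => j.elim0, fun j => j.elim0, by simp [exs]⟩
  | @cons u u' θ L h h0 hL ih =>
    rcases h p hp with h1 | h1
    · obtain ⟨b, hb, hbL, hs⟩ := ih (k := k) (by omega)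
      refine ⟨b, hb, fun j => ?_, ?_⟩
      · rw [List.length_cons]
        exact Nat.lt_succ_of_lt (hbL j)
      · simp only [exs]
        rw [if_pos h1, zero_add, hs]
    · have h2 := (pth_le hL hp).1
      obtain ⟨k', rfl⟩ : ∃ k', k = k' + 1 := ⟨k - 1, by omega⟩
      obtain ⟨b, hb, hbL, hs⟩ := ih (k := k') (by push_cast at hk; omega)
      refine ⟨fun j => if h : (j : ℕ) < k' then b ⟨j, h⟩ else L.length, ?_, ?_, ?_⟩
      · intro i j hij
        have hij' : (i : ℕ) < (j : ℕ) := hij
        have hj := j.isLt
        dsimp only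
        rw [dif_pos (by omega : (i : ℕ) < k')]
        split_ifs with h3
        · exact hb hij'
        · exact hbL _
      · intro j
        rw [List.length_cons]
        dsimp only
        split_ifs with h3
        · exact Nat.lt_succ_of_lt (hbL _)
        · exact Nat.lt_succ_self _
      · simp only [exs]
        rw [if_neg (by omega), hs, Fin.sum_univ_castSucc, add_comm]
        have h4 : u p = θ p + 1 + (k' : ℤ) := by
          push_cast at hk
          omega
        congr 1
        · refine Finset.sum_congr rfl fun j _ => ?_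
          have hj : ((Fin.castSucc j : Fin (k' + 1)) : ℕ) < k' := by simp
          rw [dif_pos hj]
          rfl
        · rw [dif_neg (by simp), h4]
          simp

end MP967.Cnt
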