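/-
Laurent polynomials and Demazure operators, with an arbitrary index type.

`Lau ι` is the ring of Laurent polynomials in the variables `x_i`, `i : ι`; `mon e` is the
monomial with exponent vector `e`; `sw i j` exchanges the variables `x_i` and `x_j`; `dem i j` is
the Demazure operator `f ↦ (x_i f - x_j (sw i j f)) / (x_i - x_j)`.
-/
import Mathlib

namespace MP967.Cnt.Gen

open Finset

set_option linter.unusedSectionVars false

variable {ι : Type*} [DecidableEq ι]

/-- Laurent polynomials with integral coefficients in the variables indexed by `ι`. -/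
abbrev Lau (ι : Type*) := AddMonoidAlgebra ℤ (ι → ℤ)

/-- The monomial with exponent vector `e`. -/
noncomputable def mon (e : ι → ℤ) : Lau ι := AddMonoidAlgebra.single e 1

/-- The variable `x_i`. -/
noncomputable def xv (i : ι) : Lau ι := mon (Pi.single i 1)

/-- Exchange of two entries of an exponent vector, as an additive isomorphism. -/
def swv (i j : ι) : (ι → ℤ) ≃+ (ι → ℤ) where
  toFun e := fun k => e (Equiv.swap i j k)
  invFun e := fun k => e (Equiv.swap i j k)
  left_inv e := by funext k; simp
  right_inv e := by funext k; simp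
  map_add' e e' := by funext k; simp

theorem swv_apply (i j : ι) (e : ι → ℤ) (k : ι) : swv i j e k = e (Equiv.swap i j k) := rfl

theorem swv_single (i j k : ι) (c : ℤ) :
    swv i j (Pi.single k c) = Pi.single (Equiv.swap i j k) c := by
  funext l
  rw [swv_apply]
  by_cases h : l = Equiv.swap i j k
  · subst h
    simp
  · have h' : Equiv.swap i j l ≠ k := by
      intro h2
      exact h (by rw [← h2, Equiv.swap_apply_self])
    simp [h, h']

/-- Exchange of two variables. -/
noncomputable def sw (i j : ι) : Lau ι →+* Lau ι :=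
  AddMonoidAlgebra.mapDomainRingHom ℤ (swv i j).toAddMonoidHom

theorem mon_mul (e e' : ι → ℤ) : mon e * mon e' = mon (e + e') := by
  simp [mon, AddMonoidAlgebra.single_mul_single]

theorem mon_zero : (mon 0 : Lau ι) = 1 := rfl

theorem sw_mon (i j : ι) (e : ι → ℤ) : sw i j (mon e) = mon (swv i j e) := by
  simp [sw, mon]

/-- Two linear maps on Laurent polynomials agree if they agree on monomials. -/
theorem lau_lin_ext {M : Type*} [AddCommGroup M] {F G : Lau ι →ₗ[ℤ] M}
    (h : ∀ e, F (mon e) = G (mon e)) : F = G := by
  apply AddMonoidAlgebra.lhom_ext'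
  intro e
  ext
  exact h e

/-- Induction on Laurent polynomials: it is enough to treat monomials, sums and negatives. -/
theorem lau_induction {p : Lau ι → Prop} (f : Lau ι) (hm : ∀ e, p (mon e)) (h0 : p 0)
    (ha : ∀ f g, p f → p g → p (f + g)) (hn : ∀ f, p f → p (-f)) : p f := by
  have hs : ∀ (e : ι → ℤ) (c : ℤ), p (AddMonoidAlgebra.single e c) := by
    intro e c
    have hc : (AddMonoidAlgebra.single e c : Lau ι) = c • mon e := by
      simp [mon]
    rw [hc]
    clear hc
    induction c using Int.induction_on with
    | zero => simpa using h0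
    | succ n ih => rw [add_smul, one_smul]; exact ha _ _ ih (hm e)
    | pred n ih => rw [sub_smul, one_smul, sub_eq_add_neg]; exact ha _ _ ih (hn _ (hm e))
  induction f using AddMonoidAlgebra.induction_linear with
  | zero => exact h0
  | add f g hf hg => exact ha f g hf hg
  | single e c => exact hs e c

/-- Coordinate `i` minus coordinate `j`. -/
def rt (i j : ι) : ι → ℤ := Pi.single i 1 - Pi.single j 1

/-- The Demazure operator on a monomial. -/
noncomputable def demMon (i j : ι) (e : ι → ℤ) : Lau ι :=
  ∑ k ∈ Icc (0 : ℤ) (e i - e j), mon (e - k • rt i j)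
    - ∑ k ∈ Icc (e i - e j + 1) (-1 : ℤ), mon (e - k • rt i j)

/-- The Demazure operator. -/
noncomputable def dem (i j : ι) : Lau ι →ₗ[ℤ] Lau ι :=
  Finsupp.linearCombination ℤ (demMon i j) ∘ₗ
    (AddMonoidAlgebra.coeffLinearEquiv ℤ).toLinearMap

theorem dem_mon (i j : ι) (e : ι → ℤ) : dem i j (mon e) = demMon i j e := by
  simp [dem, mon]

/-- Telescoping over a possibly reversed integer interval. -/
theorem tele {A : Type*} [AddCommGroup A] (F : ℤ → A) (m : ℤ) :
    ∑ k ∈ Icc (0 : ℤ) m, (F k - F (k + 1)) - ∑ k ∈ Icc (m + 1) (-1 : ℤ), (F k - F (k + 1))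
      = F 0 - F (m + 1) := by
  induction m using Int.induction_on with
  | zero =>
    have h1 : Icc (0 : ℤ) 0 = {0} := by simp
    have h2 : Icc (0 + 1 : ℤ) (-1) = ∅ := by
      apply Finset.Icc_eq_empty; omega
    rw [h1, h2]
    simp
  | succ n ih =>
    have h1 : Icc (0 : ℤ) ((n : ℤ) + 1) = insert ((n : ℤ) + 1) (Icc (0 : ℤ) n) := by
      ext x; simp only [mem_Icc, mem_insert]; omega
    have h2 : Icc ((n : ℤ) + 1) (-1 : ℤ) = ∅ := by
      apply Finset.Icc_eq_empty; omega
    have h3 : Icc ((n : ℤ) + 1 + 1) (-1 : ℤ) = ∅ := by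
      apply Finset.Icc_eq_empty; omega
    rw [h2] at ih
    rw [h1, h3, Finset.sum_insert (by simp)]
    simp only [Finset.sum_empty, sub_zero] at ih ⊢
    rw [ih]
    abel
  | pred n ih =>
    have h1 : Icc (-(n : ℤ) - 1 + 1) (-1 : ℤ) = insert (-(n : ℤ) - 1 + 1 - 0) (Icc (-(n : ℤ) + 1) (-1 : ℤ))
        ∨ n = 0 := by
      rcases Nat.eq_zero_or_pos n with h | h
      · right; exact h
      · left; ext x; simp only [mem_Icc, mem_insert]; omega
    rcases h1 with h1 | h1
    · have h2 : Icc (0 : ℤ) (-(n : ℤ) - 1) = ∅ := by
        apply Finset.Icc_eq_empty; omega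
      rw [h1, h2, Finset.sum_insert (by simp)]
      rcases Nat.eq_zero_or_pos n with h | h
      · subst h
        exfalso
        have := Finset.ext_iff.1 h1 0
        simp at this
      · have h3 : Icc (0 : ℤ) (-(n : ℤ)) = ∅ := by
          apply Finset.Icc_eq_empty; omega
        rw [h3] at ih
        simp only [Finset.sum_empty, zero_sub] at ih ⊢
        have e1 : -(n : ℤ) - 1 + 1 - 0 = -(n : ℤ) := by ring
        have e2 : -(n : ℤ) - 1 + 1 = -(n : ℤ) := by ring
        rw [e1, e2, neg_add, ih]
        abel
    · subst h1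
      simp

theorem xv_mul_mon (i : ι) (e : ι → ℤ) : xv i * mon e = mon (Pi.single i 1 + e) := by
  rw [xv, mon_mul]

/-- The defining property of the Demazure operator, on monomials. -/
theorem demMon_spec (i j : ι) (e : ι → ℤ) :
    (xv i - xv j) * demMon i j e = xv i * mon e - xv j * mon (swv i j e) := by
  have key : ∀ k : ℤ, (xv i - xv j) * mon (e - k • rt i j)
      = mon (Pi.single i 1 + (e - k • rt i j)) - mon (Pi.single i 1 + (e - (k + 1) • rt i j)) := by
    intro k
    rw [sub_mul, xv_mul_mon, xv_mul_mon]
    congr 2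
    rw [add_smul, one_smul, rt]
    abel
  rw [demMon, mul_sub, Finset.mul_sum, Finset.mul_sum]
  simp only [key]
  have ht := tele (fun k : ℤ => (mon (Pi.single i 1 + (e - k • rt i j)) : Lau ι)) (e i - e j)
  rw [ht]
  rw [xv_mul_mon, xv_mul_mon]
  congr 2
  · simp
  · funext k
    by_cases hij : i = j
    · subst hij
      simp [swv_apply, rt]
    · by_cases h1 : k = i
      · subst h1
        have hj : k ≠ j := hij
        simp [swv_apply, rt, hj]
        ring
      · by_cases h2 : k = j
        · subst h2
          simp [swv_apply, rt, h1]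
          ring
        · simp [swv_apply, rt, h1, h2, Equiv.swap_apply_of_ne_of_ne h1 h2]

/-- The defining property of the Demazure operator. -/
theorem dem_spec (i j : ι) (f : Lau ι) :
    (xv i - xv j) * dem i j f = xv i * f - xv j * sw i j f := by
  induction f using lau_induction with
  | hm e => rw [dem_mon, demMon_spec, sw_mon]
  | h0 => simp
  | ha f g hf hg =>
    rw [map_add, map_add, mul_add, hf, hg]
    ring
  | hn f hf =>
    rw [map_neg, map_neg, mul_neg, hf]
    ring

theorem xv_sub_ne (i j : ι) (h : i ≠ j) : xv i - xv j ≠ (0 : Lau ι) := by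
  intro h0
  rw [sub_eq_zero, xv, xv, mon, mon] at h0
  have h1 : (Pi.single i 1 : ι → ℤ) = Pi.single j 1 := by
    have := (AddMonoidAlgebra.single_left_inj (R := ℤ) (one_ne_zero)).1 h0
    exact this
  have h2 := congrFun h1 i
  simp [h] at h2

/-- Cancellation. -/
theorem xv_cancel (i j : ι) (h : i ≠ j) {f g : Lau ι}
    (hfg : (xv i - xv j) * f = (xv i - xv j) * g) : f = g :=
  mul_left_cancel₀ (xv_sub_ne i j h) hfg

theorem sw_xv (i j k : ι) : sw i j (xv k) = xv (Equiv.swap i j k) := by
  rw [xv, sw_mon, swv_single, xv]

theorem sw_sw (i j : ι) (f : Lau ι) : sw i j (sw i j f) = f := by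
  induction f using lau_induction with
  | hm e =>
    rw [sw_mon, sw_mon]
    congr 1
    funext k
    simp [swv_apply]
  | h0 => simp
  | ha f g hf hg => rw [map_add, map_add, hf, hg]
  | hn f hf => rw [map_neg, map_neg, hf]

theorem sw_comm (i j k l : ι) (hik : i ≠ k) (hil : i ≠ l) (hjk : j ≠ k) (hjl : j ≠ l)
    (f : Lau ι) : sw i j (sw k l f) = sw k l (sw i j f) := by
  induction f using lau_induction with
  | hm e =>
    rw [sw_mon, sw_mon, sw_mon, sw_mon]
    congr 1
    funext t
    rw [swv_apply, swv_apply, swv_apply, swv_apply]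
    congr 1
    have hd : Equiv.Perm.Disjoint (Equiv.swap i j) (Equiv.swap k l) := by
      intro x
      by_cases h1 : x = i
      · right; rw [h1]; exact Equiv.swap_apply_of_ne_of_ne hik hil
      · by_cases h2 : x = j
        · right; rw [h2]; exact Equiv.swap_apply_of_ne_of_ne hjk hjl
        · left; exact Equiv.swap_apply_of_ne_of_ne h1 h2
    have := congrArg (fun p : Equiv.Perm ι => p t) hd.commute.eq
    simpa using this.symm
  | h0 => simp
  | ha f g hf hg => simp only [map_add, hf, hg]
  | hn f hf => simp only [map_neg, hf]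

/-- Images of the Demazure operator are symmetric. -/
theorem sw_dem (i j : ι) (f : Lau ι) : sw i j (dem i j f) = dem i j f := by
  by_cases hij : i = j
  · subst hij
    induction f using lau_induction with
    | hm e =>
      have : ∀ g : Lau ι, sw i i g = g := by
        intro g
        induction g using lau_induction with
        | hm e =>
          rw [sw_mon]
          congr 1
          funext k
          simp [swv_apply]
        | h0 => simp
        | ha f g hf hg => rw [map_add, hf, hg]
        | hn f hf => rw [map_neg, hf]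
      exact this _
    | h0 => simp
    | ha f g hf hg => simp only [map_add, hf, hg]
    | hn f hf => simp only [map_neg, hf]
  · apply xv_cancel i j hij
    have h1 := congrArg (sw i j) (dem_spec i j f)
    have h2 := dem_spec i j f
    simp only [map_mul, map_sub, sw_xv, Equiv.swap_apply_left, Equiv.swap_apply_right,
      sw_sw] at h1
    linear_combination (-1 : Lau ι) * h1 - h2

/-- The Demazure operator is idempotent. -/
theorem dem_dem (i j : ι) (hij : i ≠ j) (f : Lau ι) : dem i j (dem i j f) = dem i j f := by
  apply xv_cancel i j hij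
  rw [dem_spec, sw_dem]
  ring

/-- The Demazure operator fixes symmetric Laurent polynomials. -/
theorem dem_of_sw (i j : ι) (hij : i ≠ j) (f : Lau ι) (h : sw i j f = f) :
    dem i j f = f := by
  apply xv_cancel i j hij
  rw [dem_spec, h]
  ring

/-- The Demazure operator is linear over symmetric Laurent polynomials. -/
theorem dem_mul (i j : ι) (hij : i ≠ j) (f g : Lau ι) (h : sw i j g = g) :
    dem i j (g * f) = g * dem i j f := by
  apply xv_cancel i j hij
  have h1 := dem_spec i j f
  rw [dem_spec, map_mul, h]
  linear_combination (-1 : Lau ι) * g * h1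

/-- Symmetric Laurent polynomials are exactly the fixed points. -/
theorem dem_eq_self_iff (i j : ι) (hij : i ≠ j) (f : Lau ι) :
    dem i j f = f ↔ sw i j f = f := by
  constructor
  · intro h
    rw [← h, sw_dem]
  · exact dem_of_sw i j hij f

/-- Demazure operators with disjoint indices commute. -/
theorem dem_comm (i j k l : ι) (hij : i ≠ j) (hkl : k ≠ l) (hik : i ≠ k) (hil : i ≠ l)
    (hjk : j ≠ k) (hjl : j ≠ l) (f : Lau ι) :
    dem i j (dem k l f) = dem k l (dem i j f) := by
  apply xv_cancel i j hij
  apply xv_cancel k l hkl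
  have a1 := dem_spec i j (dem k l f)
  have a2 := dem_spec k l f
  have a3 := congrArg (sw i j) a2
  have b1 := dem_spec k l (dem i j f)
  have b2 := dem_spec i j f
  have b3 := congrArg (sw k l) b2
  have s1 : Equiv.swap i j k = k := Equiv.swap_apply_of_ne_of_ne hik.symm hjk.symm
  have s2 : Equiv.swap i j l = l := Equiv.swap_apply_of_ne_of_ne hil.symm hjl.symm
  have s3 : Equiv.swap k l i = i := Equiv.swap_apply_of_ne_of_ne hik hil
  have s4 : Equiv.swap k l j = j := Equiv.swap_apply_of_ne_of_ne hjk hjl
  simp only [map_mul, map_sub, sw_xv, s1, s2, s3, s4] at a3 b3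
  rw [sw_comm k l i j hik.symm hjk.symm hil.symm hjl.symm] at b3
  generalize hA : dem i j (dem k l f) = A at *
  generalize hB : dem k l (dem i j f) = B at *
  generalize sw i j (dem k l f) = C at *
  generalize sw k l (dem i j f) = D at *
  linear_combination (xv k - xv l) * a1 - (xv i - xv j) * b1 + xv i * a2 - xv j * a3
    - xv k * b2 + xv l * b3

/-- The braid relation for the exchanges. -/
theorem sw_braid (i j k : ι) (hij : i ≠ j) (hjk : j ≠ k) (hik : i ≠ k) (f : Lau ι) :
    sw i j (sw j k (sw i j f)) = sw j k (sw i j (sw j k f)) := by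
  induction f using lau_induction with
  | hm e =>
    simp only [sw_mon]
    congr 1
    funext t
    simp only [swv_apply]
    congr 1
    have e1 := Equiv.swap_mul_swap_mul_swap (x := i) (y := j) (z := k) hij hik
    have e2 := Equiv.swap_mul_swap_mul_swap (x := k) (y := j) (z := i) hjk.symm hik.symm
    rw [Equiv.swap_comm j i, Equiv.swap_comm k j, Equiv.swap_comm i k, ← e1] at e2
    have := congrArg (fun p : Equiv.Perm ι => p t) e2
    simpa using this
  | h0 => simp
  | ha f g hf hg => simp only [map_add, hf, hg]
  | hn f hf => simp only [map_neg, hf]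

/-- The braid relation. -/
theorem dem_braid (i j k : ι) (hij : i ≠ j) (hjk : j ≠ k) (hik : i ≠ k) (f : Lau ι) :
    dem i j (dem j k (dem i j f)) = dem j k (dem i j (dem j k f)) := by
  have t1 : Equiv.swap i j k = k := Equiv.swap_apply_of_ne_of_ne hik.symm hjk.symm
  have t2 : Equiv.swap j k i = i := Equiv.swap_apply_of_ne_of_ne hij hik
  apply xv_cancel i j hij
  apply xv_cancel j k hjk
  apply xv_cancel i k hik
  have a1 := dem_spec i j f
  have a2 := dem_spec j k (dem i j f)
  have a3 := dem_spec i j (dem j k (dem i j f))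
  have a4 := congrArg (sw j k) a1
  have a5 := congrArg (sw i j) a2
  have a6 := congrArg (sw i j) a4
  have b1 := dem_spec j k f
  have b2 := dem_spec i j (dem j k f)
  have b3 := dem_spec j k (dem i j (dem j k f))
  have b4 := congrArg (sw i j) b1
  have b5 := congrArg (sw j k) b2
  have b6 := congrArg (sw j k) b4
  have c1 := sw_dem i j f
  have c2 := sw_dem j k f
  have c3 := sw_braid i j k hij hjk hik f
  simp only [map_mul, map_sub, sw_xv, t1, t2, Equiv.swap_apply_left, Equiv.swap_apply_right, c1, c2]
    at a4 a5 a6 b4 b5 b6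
  rw [c3] at a6
  generalize dem i j (dem j k (dem i j f)) = H1 at *
  generalize dem j k (dem i j (dem j k f)) = H2 at *
  generalize sw i j (dem j k (dem i j f)) = K1 at *
  generalize sw j k (dem i j (dem j k f)) = K2 at *
  generalize dem j k (dem i j f) = U1 at *
  generalize dem i j (dem j k f) = U2 at *
  generalize sw i j (sw j k (dem i j f)) = X1 at *
  generalize sw j k (sw i j (dem j k f)) = X2 at *
  generalize sw j k (dem i j f) = W1 at *
  generalize sw i j (dem j k f) = W2 at *
  generalize dem i j f = V1 at *
  generalize dem j k f = V2 at *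
  generalize sw j k (sw i j (sw j k f)) = F5 at *
  generalize sw j k (sw i j f) = F3 at *
  generalize sw i j (sw j k f) = F4 at *
  generalize sw i j f = F1 at *
  generalize sw j k f = F2 at *
  generalize xv i = x at *
  generalize xv j = y at *
  generalize xv k = z at *
  linear_combination (y - z) * (x - z) * a3 + x * (x - z) * a2 - y * (y - z) * a5
    + x * y * a1 - x * z * a4 + y * z * a6
    - ((x - y) * (x - z) * b3 + y * (x - z) * b2 - z * (x - y) * b5
    + x ^ 2 * b1 - y ^ 2 * b4 + z ^ 2 * b6)

end MP967.Cnt.Gen
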