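import Pool.Agent.Lib.MP_967fd7_co.Cnt.Defs

/-! Words in a monoid with the relations of the `0`-Hecke algebra. -/

namespace MP967.Cnt

/-- The word `s, s + 1, …, j - 1`, where `s` is the least number with `J s, …, J (j-1)`. -/
def chn (J : ℕ → Bool) : ℕ → List ℕ
  | 0 => []
  | j + 1 => if J j then chn J j ++ [j] else []

/-- The word of the longest element of the parabolic subgroup generated by the `i < n` with `J i`. -/
def wrd (J : ℕ → Bool) : ℕ → List ℕ
  | 0 => []
  | j + 1 => chn J (j + 1) ++ wrd J j

theorem mem_chn (J : ℕ → Bool) {n i : ℕ} (h : i ∈ chn J n) : i < n ∧ J i = true := by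
  induction n with
  | zero => exact absurd h List.not_mem_nil
  | succ n ih =>
    rw [chn] at h
    by_cases hJ : J n = true
    · rw [if_pos hJ, List.mem_append, List.mem_singleton] at h
      rcases h with h | rfl
      · exact ⟨(ih h).1.trans (Nat.lt_succ_self n), (ih h).2⟩
      · exact ⟨Nat.lt_succ_self i, hJ⟩
    · rw [if_neg hJ] at h
      exact absurd h List.not_mem_nil

theorem mem_wrd (J : ℕ → Bool) {n i : ℕ} (h : i ∈ wrd J n) : i < n ∧ J i = true := by
  induction n with
  | zero => exact absurd h List.not_mem_nil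
  | succ n ih =>
    rw [wrd, List.mem_append] at h
    rcases h with h | h
    · exact mem_chn J h
    · exact ⟨(ih h).1.trans (Nat.lt_succ_self n), (ih h).2⟩

variable {M : Type*} [Monoid M] (p : ℕ → M)

/-- The product of a word. -/
def pr (w : List ℕ) : M := (w.map p).prod

/-- The relations. -/
structure Rel (p : ℕ → M) : Prop where
  idem : ∀ i, p i * p i = p i
  comm : ∀ i j, i + 1 < j → p i * p j = p j * p i
  braid : ∀ i, p i * p (i + 1) * p i = p (i + 1) * p i * p (i + 1)

theorem c1_cons (p : ℕ → M) (i : ℕ) (w : List ℕ) : pr p (i :: w) = p i * pr p w := by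
  rw [pr, pr, List.map_cons, List.prod_cons]

theorem c1_append (p : ℕ → M) (w w' : List ℕ) : pr p (w ++ w') = pr p w * pr p w' := by
  rw [pr, pr, pr, List.map_append, List.prod_append]

theorem c1_single (p : ℕ → M) (i : ℕ) : pr p [i] = p i := by
  rw [c1_cons, pr, List.map_nil, List.prod_nil, mul_one]

theorem c1_nil (p : ℕ → M) : pr p [] = 1 := by
  rw [pr, List.map_nil, List.prod_nil]

theorem c1_chn {J : ℕ → Bool} {j : ℕ} (hj : J j = true) : chn J (j + 1) = chn J j ++ [j] := by
  rw [chn, if_pos hj]

theorem c1_chain (J : ℕ → Bool) {n i : ℕ} (h : i ∈ chn J n) : ∀ k, i ≤ k → k < n → J k = true := by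
  induction n with
  | zero => exact absurd h List.not_mem_nil
  | succ n ih =>
    intro k hk hkn
    rw [chn] at h
    by_cases hJ : J n = true
    · rw [if_pos hJ, List.mem_append, List.mem_singleton] at h
      rcases Nat.lt_succ_iff_lt_or_eq.1 hkn with h1 | h1
      · rcases h with h | h
        · exact ih h k hk h1
        · omega
      · rw [h1]
        exact hJ
    · rw [if_neg hJ] at h
      exact absurd h List.not_mem_nil

/-- `p j` commutes with words in letters `< j - 1`. -/
theorem pr_comm {p : ℕ → M} (h : Rel p) (j : ℕ) (w : List ℕ) (hw : ∀ i ∈ w, i + 1 < j) :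
    pr p w * p j = p j * pr p w := by
  induction w with
  | nil => rw [c1_nil, one_mul, mul_one]
  | cons i w ih =>
    have h1 := ih fun k hk => hw k (List.mem_cons_of_mem _ hk)
    have h2 := h.comm i j (hw i List.mem_cons_self)
    rw [c1_cons, mul_assoc, h1, ← mul_assoc, h2, mul_assoc]

/-- `(p_s ⋯ p_j) p_i = p_{i+1} (p_s ⋯ p_j)` for `s ≤ i < j`. -/
theorem chn_mul {p : ℕ → M} (h : Rel p) (J : ℕ → Bool) (j i : ℕ) (hi : i < j)
    (hJ : ∀ k, i ≤ k → k ≤ j → J k = true) :
    pr p (chn J (j + 1)) * p i = p (i + 1) * pr p (chn J (j + 1)) := by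
  induction j generalizing i with
  | zero => exact absurd hi (Nat.not_lt_zero i)
  | succ j ih =>
    have hj : J (j + 1) = true := hJ (j + 1) hi.le le_rfl
    rw [c1_chn hj, c1_append, c1_single]
    rcases Nat.lt_succ_iff_lt_or_eq.1 hi with h1 | h1
    · have h2 := ih i h1 fun k hk hkj => hJ k hk (hkj.trans (Nat.le_succ j))
      have h3 := h.comm i (j + 1) (Nat.succ_lt_succ h1)
      rw [mul_assoc, ← h3, ← mul_assoc, h2, mul_assoc]
    · subst h1
      have hi' : J i = true := hJ i le_rfl (Nat.le_succ i)
      have h2 := pr_comm h (i + 1) (chn J i) fun k hk =>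
        Nat.succ_lt_succ (mem_chn J hk).1
      rw [c1_chn hi', c1_append, c1_single]
      calc pr p (chn J i) * p i * p (i + 1) * p i
          = pr p (chn J i) * (p i * p (i + 1) * p i) := by simp only [mul_assoc]
        _ = pr p (chn J i) * (p (i + 1) * p i * p (i + 1)) := by rw [h.braid]
        _ = pr p (chn J i) * p (i + 1) * (p i * p (i + 1)) := by simp only [mul_assoc]
        _ = p (i + 1) * pr p (chn J i) * (p i * p (i + 1)) := by rw [h2]
        _ = p (i + 1) * (pr p (chn J i) * p i * p (i + 1)) := by simp only [mul_assoc]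

/-- `C_{j+1} C_j = X C_{j+1}` for some `X`. -/
theorem chn_chn {p : ℕ → M} (h : Rel p) (J : ℕ → Bool) (j : ℕ) (hj : J j = true) :
    ∃ x : M, pr p (chn J (j + 1)) * pr p (chn J j) = x * pr p (chn J (j + 1)) := by
  have key : ∀ w : List ℕ, (∀ i ∈ w, i < j ∧ ∀ k, i ≤ k → k ≤ j → J k = true) →
      ∃ x : M, pr p (chn J (j + 1)) * pr p w = x * pr p (chn J (j + 1)) := by
    intro w
    induction w with
    | nil =>
      intro _
      exact ⟨1, by rw [c1_nil, mul_one, one_mul]⟩
    | cons i w ih =>
      intro hw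
      obtain ⟨x, hx⟩ := ih fun k hk => hw k (List.mem_cons_of_mem _ hk)
      have h1 := hw i List.mem_cons_self
      have h2 := chn_mul h J j i h1.1 h1.2
      refine ⟨p (i + 1) * x, ?_⟩
      rw [c1_cons, ← mul_assoc, h2, mul_assoc, hx, mul_assoc]
  refine key (chn J j) fun i hi => ⟨(mem_chn J hi).1, fun k hk hkj => ?_⟩
  rcases Nat.lt_or_eq_of_le hkj with h1 | h1
  · exact c1_chain J hi k hk h1
  · rw [h1]
    exact hj

/-- The word of the longest element absorbs the letters on the right. -/
theorem wrd_mul {p : ℕ → M} (h : Rel p) (J : ℕ → Bool) (n i : ℕ) (hi : i < n) (hJ : J i = true) :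
    pr p (wrd J n) * p i = pr p (wrd J n) := by
  induction n generalizing i with
  | zero => exact absurd hi (Nat.not_lt_zero i)
  | succ n ih =>
    rw [wrd, c1_append]
    rcases Nat.lt_succ_iff_lt_or_eq.1 hi with h1 | h1
    · rw [mul_assoc, ih i h1 hJ]
    · subst h1
      have habs : pr p (chn J (i + 1)) * p i = pr p (chn J (i + 1)) := by
        rw [c1_chn hJ, c1_append, c1_single, mul_assoc, h.idem]
      rcases i with _ | m
      · rw [wrd, c1_nil, mul_one, habs]
      · obtain ⟨x, hx⟩ := chn_chn h J (m + 1) hJ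
        have h2 := pr_comm h (m + 1) (wrd J m) fun k hk =>
          Nat.succ_lt_succ (mem_wrd J hk).1
        rw [wrd, c1_append]
        calc pr p (chn J (m + 1 + 1)) * (pr p (chn J (m + 1)) * pr p (wrd J m)) * p (m + 1)
            = pr p (chn J (m + 1 + 1)) * pr p (chn J (m + 1)) * (pr p (wrd J m) * p (m + 1)) := by
              simp only [mul_assoc]
          _ = x * pr p (chn J (m + 1 + 1)) * (p (m + 1) * pr p (wrd J m)) := by rw [hx, h2]
          _ = x * (pr p (chn J (m + 1 + 1)) * p (m + 1)) * pr p (wrd J m) := by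
              simp only [mul_assoc]
          _ = pr p (chn J (m + 1 + 1)) * pr p (chn J (m + 1)) * pr p (wrd J m) := by
              rw [habs, hx]
          _ = pr p (chn J (m + 1 + 1)) * (pr p (chn J (m + 1)) * pr p (wrd J m)) := by
              rw [mul_assoc]

end MP967.Cnt
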