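import Pool.Agent.Lib.MP_967fd7_co.Cnt.Step

/-! Histories and labelled paths. -/

namespace MP967.Cnt

open Classical in
/-- Histories: the decreasing vectors at the times `n-1, …, 0`; the vector at the time `n` is `v`. -/
noncomputable def hist (K : ℕ) : ℕ → Ex → Finset (List Ex)
  | 0, _ => {[]}
  | n + 1, v => (steps K v).biUnion fun z => (hist K n z).image (List.cons z)

theorem mem_hist_zero {K : ℕ} {v : Ex} {H : List Ex} : H ∈ hist K 0 v ↔ H = [] := by
  unfold hist
  exact Finset.mem_singleton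

theorem mem_hist_succ {K n : ℕ} {v : Ex} {H : List Ex} :
    H ∈ hist K (n + 1) v ↔ ∃ z ∈ steps K v, ∃ H' ∈ hist K n z, H = z :: H' := by
  classical
  rw [hist, Finset.mem_biUnion]
  constructor
  · rintro ⟨z, hz, h⟩
    obtain ⟨H', hH', rfl⟩ := Finset.mem_image.1 h
    exact ⟨z, hz, H', hH', rfl⟩
  · rintro ⟨z, hz, H', hH', rfl⟩
    exact ⟨z, hz, Finset.mem_image.2 ⟨H', hH', rfl⟩⟩

/-- Sums over the histories. -/
theorem sum_hist_succ {K n : ℕ} {v : Ex} {A : Type*} [AddCommMonoid A] (f : List Ex → A) :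
    ∑ H ∈ hist K (n + 1) v, f H = ∑ z ∈ steps K v, ∑ H ∈ hist K n z, f (z :: H) := by
  classical
  rw [hist, Finset.sum_biUnion]
  · refine Finset.sum_congr rfl fun z _ => ?_
    rw [Finset.sum_image]
    intro H _ H' _ h
    exact (List.cons.inj h).2
  · intro z _ z' _ hne
    rw [Function.onFun, Finset.disjoint_left]
    intro L hL hL'
    obtain ⟨H, _, rfl⟩ := Finset.mem_image.1 hL
    obtain ⟨H', _, h⟩ := Finset.mem_image.1 hL'
    exact hne (List.cons.inj h).1.symm

theorem hist_length {K n : ℕ} {v : Ex} {H : List Ex} (h : H ∈ hist K n v) : H.length = n := by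
  induction n generalizing v H with
  | zero =>
    rw [mem_hist_zero] at h
    rw [h]
    rfl
  | succ n ih =>
    obtain ⟨z, _, H', hH', rfl⟩ := mem_hist_succ.1 h
    rw [List.length_cons, ih hH']

/-- The vector at the time `0`. -/
def lst (v : Ex) (H : List Ex) : Ex := H.getLastD v

theorem lst_cons (v z : Ex) (H : List Ex) : lst v (z :: H) = lst z H := by
  unfold lst
  exact List.getLastD_cons

/-- Labelled paths from `u` to `θ`: the coordinates go down by `0` or `1`. -/
inductive Pth (K : ℕ) : Ex → List Ex → Ex → Prop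
  | nil (u : Ex) : Pth K u [] u
  | cons {u u' θ : Ex} {L : List Ex} (h : ∀ p < K, u p = u' p ∨ u p = u' p + 1)
      (h0 : ∀ p, K ≤ p → u' p = 0) (hL : Pth K u' L θ) : Pth K u (u' :: L) θ

/-- `u` and `z` have the same entries in the slots `< K` up to the order. -/
def Sim (K : ℕ) (u z : Ex) : Prop :=
  ∀ r : ℤ, ((Finset.range K).filter (fun p => r ≤ u p)).card =
    ((Finset.range K).filter (fun p => r ≤ z p)).card

/-- `θ` is the end of a labelled path with the history `H`. -/
def Lab (K : ℕ) (v : Ex) (H : List Ex) (θ : Ex) : Prop :=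
  ∃ L, List.Forall₂ (Sim K) L H ∧ Pth K v L θ

theorem sim_refl (K : ℕ) (u : Ex) : Sim K u u := fun _ => rfl

theorem sim_sw {K i : ℕ} (hi : i + 1 < K) {u z : Ex} (h : Sim K u z) : Sim K (sw i u) z := by
  intro r
  rw [← h r]
  have hlt : ∀ p, p < K → Equiv.swap i (i + 1) p < K := by
    intro p hp
    rw [Equiv.swap_apply_def]
    split_ifs <;> omega
  refine Finset.card_bij (fun p _ => Equiv.swap i (i + 1) p) ?_ ?_ ?_
  · intro p hp
    rw [Finset.mem_filter, Finset.mem_range] at hp ⊢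
    exact ⟨hlt p hp.1, hp.2⟩
  · intro a _ b _ hab
    exact (Equiv.swap i (i + 1)).injective hab
  · intro b hb
    rw [Finset.mem_filter, Finset.mem_range] at hb
    refine ⟨Equiv.swap i (i + 1) b, ?_, Equiv.swap_apply_self _ _ _⟩
    rw [Finset.mem_filter, Finset.mem_range]
    refine ⟨hlt b hb.1, ?_⟩
    unfold sw
    rw [Equiv.swap_apply_self]
    exact hb.2

theorem pth_sw {K i : ℕ} (hi : i + 1 < K) {u θ : Ex} {L : List Ex} (h : Pth K u L θ) :
    Pth K (sw i u) (L.map (sw i)) (sw i θ) := by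
  have hlt : ∀ p, p < K → Equiv.swap i (i + 1) p < K := by
    intro p hp
    rw [Equiv.swap_apply_def]
    split_ifs <;> omega
  induction h with
  | nil u => exact Pth.nil _
  | cons h h0 _ ih =>
    refine Pth.cons (fun p hp => h _ (hlt p hp)) (fun p hp => ?_) ih
    unfold sw
    rw [Equiv.swap_apply_of_ne_of_ne (by omega) (by omega)]
    exact h0 p hp

theorem lab_nil (K : ℕ) (v : Ex) : Lab K v [] v := ⟨[], List.Forall₂.nil, Pth.nil v⟩

theorem lab_sw {K i : ℕ} (hi : i + 1 < K) {v θ : Ex} {H : List Ex} (hv : v i = v (i + 1))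
    (h : Lab K v H θ) : Lab K v H (sw i θ) := by
  obtain ⟨L, hL, hP⟩ := h
  have h1 : sw i v = v := by
    funext p
    unfold sw
    rw [Equiv.swap_apply_def]
    split_ifs with h2 h3
    · rw [h2, hv]
    · rw [h3, hv]
    · rfl
  refine ⟨L.map (sw i), ?_, ?_⟩
  · rw [List.forall₂_map_left_iff]
    exact hL.imp fun u z h => sim_sw hi h
  · have h2 := pth_sw hi hP
    rwa [h1] at h2

theorem lab_cons {K : ℕ} {v z θ : Ex} {H : List Ex} (hv : Dec K v) (hz : z ∈ steps K v)
    (h : Lab K z H θ) : Lab K v (z :: H) θ := by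
  obtain ⟨L, hL, hP⟩ := h
  have h1 := (mem_steps hv).1 hz
  exact ⟨z :: L, List.Forall₂.cons (sim_refl K z) hL, Pth.cons h1.2 h1.1.2 hP⟩

theorem lab_opS {K : ℕ} {v θ : Ex} {H : List Ex} {Th : Set Ex} (w : List ℕ)
    (hw : ∀ i ∈ w, i + 1 < K ∧ v i = v (i + 1)) (h : ∀ θ ∈ Th, Lab K v H θ)
    (hθ : θ ∈ opS w Th) : Lab K v H θ := by
  induction w generalizing θ with
  | nil => exact h θ hθ
  | cons i w ih =>
    have hw' : ∀ i ∈ w, i + 1 < K ∧ v i = v (i + 1) := fun j hj =>
      hw j (List.mem_cons_of_mem i hj)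
    have hi := hw i List.mem_cons_self
    rcases hθ with hθ | ⟨θ', hθ', rfl⟩
    · exact ih hw' hθ
    · exact lab_sw hi.1 hi.2 (ih hw' hθ')

/-- `x^v ∏ (1 + 1/x_p)^n` is the sum over the histories of words applied to `x^(last vector)`. -/
theorem hist_sum (K n : ℕ) {v : Ex} (hv : Dec K v) :
    ∃ f : List Ex → Lau, mono v * EE K ^ n = ∑ H ∈ hist K n v, f H ∧
      ∀ H ∈ hist K n v, Dec K (lst v H) ∧
        ∃ Th, W K (lst v H) (f H) Th ∧ ∀ θ ∈ Th, Lab K v H θ := by
  classical
  induction n generalizing v with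
  | zero =>
    refine ⟨fun _ => mono v, ?_, ?_⟩
    · rw [pow_zero, mul_one, hist, Finset.sum_singleton]
    · intro H hH
      rw [mem_hist_zero] at hH
      subst hH
      refine ⟨hv, {v}, W.base, ?_⟩
      rintro θ rfl
      exact lab_nil K _
  | succ n ih =>
    obtain ⟨w, hw, hsum⟩ := step_sum hv
    have hw' : ∀ i ∈ w, i + 1 < K := fun i hi => (hw i hi).1
    have h1 : ∀ z, ∃ f : List Ex → Lau, z ∈ steps K v →
        (mono z * EE K ^ n = ∑ H ∈ hist K n z, f H ∧
          ∀ H ∈ hist K n z, Dec K (lst z H) ∧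
            ∃ Th, W K (lst z H) (f H) Th ∧ ∀ θ ∈ Th, Lab K z H θ) := by
      intro z
      by_cases hz : z ∈ steps K v
      · obtain ⟨f, hf⟩ := ih ((mem_steps hv).1 hz).1
        exact ⟨f, fun _ => hf⟩
      · exact ⟨fun _ => 0, fun h => absurd h hz⟩
    choose F hF using h1
    refine ⟨fun L => match L with
      | [] => 0
      | z :: H => opL w (F z H), ?_, ?_⟩
    · rw [sum_hist_succ, pow_succ', ← mul_assoc, hsum, Finset.sum_mul]
      refine Finset.sum_congr rfl fun z hz => ?_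
      rw [opL_mul w hw', (hF z hz).1, opL_sum]
    · intro H hH
      obtain ⟨z, hz, H', hH', rfl⟩ := mem_hist_succ.1 hH
      obtain ⟨h2, Th, h3, h4⟩ := (hF z hz).2 H' hH'
      rw [lst_cons]
      refine ⟨h2, opS w Th, W_op h3 w hw', fun θ hθ => ?_⟩
      exact lab_opS w hw (fun θ hθ => lab_cons hv hz (h4 θ hθ)) hθ

end MP967.Cnt
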