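import Pool.Agent.Lib.MP_967fd7_co.Cnt.Defs
import Pool.Agent.Lib.MP_967fd7_co.Cnt.Gen

/-!
The Demazure operators `pi i` (paper: `/team-store/h69_count.md`): basic properties, braid
relation, shift, reversal.
-/

namespace MP967.Cnt

open Finset

theorem lau_induction {p : Lau → Prop} (f : Lau) (hm : ∀ v, p (mono v)) (h0 : p 0)
    (ha : ∀ f g, p f → p g → p (f + g)) (hn : ∀ f, p f → p (-f)) : p f :=
  Gen.lau_induction f hm h0 ha hn

theorem mono_mul (u v : Ex) : mono u * mono v = mono (u + v) := Gen.mon_mul u v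

theorem mono_zero : mono 0 = 1 := rfl

theorem lin_mono (φ : Ex → Lau) (v : Ex) : lin φ (mono v) = φ v := by
  simp [lin, mono]

theorem pi_mono (i : ℕ) (v : Ex) : pi i (mono v) = piM i v := lin_mono _ v

theorem s_mono (i : ℕ) (v : Ex) : s i (mono v) = mono (sw i v) := by
  simp only [s, mono, AddMonoidAlgebra.domCongr_single]
  rfl

theorem s_eq (i : ℕ) (f : Lau) : s i f = Gen.sw i (i + 1) f := by
  induction f using lau_induction with
  | hm v =>
    rw [s_mono]
    exact (Gen.sw_mon i (i + 1) v).symm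
  | h0 => simp
  | ha f g hf hg => rw [map_add, map_add, hf, hg]
  | hn f hf => rw [map_neg, map_neg, hf]

theorem piM_eq (i : ℕ) (v : Ex) : piM i v = Gen.demMon i (i + 1) v := by
  unfold piM Gen.demMon
  split_ifs with h
  · have h2 : Icc (v i - v (i + 1) + 1) (-1 : ℤ) = ∅ := by
      apply Finset.Icc_eq_empty; omega
    rw [h2, Finset.sum_empty, sub_zero]
    symm
    apply Finset.sum_bij (fun (k : ℤ) _ => k.toNat)
    · intro k hk
      simp only [mem_Icc, mem_range] at hk ⊢
      omega
    · intro a ha b hb hab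
      simp only [mem_Icc] at ha hb hab
      omega
    · intro b hb
      simp only [mem_range] at hb
      exact ⟨(b : ℤ), by simp only [mem_Icc]; omega, by simp⟩
    · intro k hk
      simp only [mem_Icc] at hk
      have : ((k.toNat : ℕ) : ℤ) = k := Int.toNat_of_nonneg hk.1
      rw [this]
      rfl
  · have h2 : Icc (0 : ℤ) (v i - v (i + 1)) = ∅ := by
      apply Finset.Icc_eq_empty; omega
    rw [h2, Finset.sum_empty, zero_sub]
    congr 1
    symm
    apply Finset.sum_bij (fun (k : ℤ) _ => (-k - 1).toNat)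
    · intro k hk
      simp only [mem_Icc, mem_range] at hk ⊢
      omega
    · intro a ha b hb hab
      simp only [mem_Icc] at ha hb hab
      omega
    · intro b hb
      simp only [mem_range] at hb
      exact ⟨-(b : ℤ) - 1, by simp only [mem_Icc]; omega, by simp⟩
    · intro k hk
      simp only [mem_Icc] at hk
      have : (((-k - 1).toNat : ℕ) : ℤ) = -k - 1 := Int.toNat_of_nonneg (by omega)
      rw [this]
      have h3 : v + (-k - 1 + 1) • al i = v - k • Gen.rt i (i + 1) := by
        rw [al, Gen.rt]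
        module
      rw [h3]
      rfl

theorem pi_eq (i : ℕ) (f : Lau) : pi i f = Gen.dem i (i + 1) f := by
  induction f using lau_induction with
  | hm v =>
    rw [pi_mono, piM_eq]
    exact (Gen.dem_mon i (i + 1) v).symm
  | h0 => simp
  | ha f g hf hg => rw [map_add, map_add, hf, hg]
  | hn f hf => rw [map_neg, map_neg, hf]

theorem X_eq (i : ℕ) : X i = Gen.xv i := rfl

private theorem ne1 (i : ℕ) : i ≠ i + 1 := by omega

theorem X_cancel (i j : ℕ) (h : i ≠ j) {f g : Lau} (hfg : (X i - X j) * f = (X i - X j) * g) :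
    f = g := Gen.xv_cancel i j h hfg

theorem pi_spec (i : ℕ) (f : Lau) :
    (X i - X (i + 1)) * pi i f = X i * f - X (i + 1) * s i f := by
  rw [pi_eq, s_eq]
  exact Gen.dem_spec i (i + 1) f

theorem s_s (i : ℕ) (f : Lau) : s i (s i f) = f := by
  rw [s_eq, s_eq]
  exact Gen.sw_sw i (i + 1) f

theorem s_X (i k : ℕ) : s i (X k) = X (Equiv.swap i (i + 1) k) := by
  rw [s_eq]
  exact Gen.sw_xv i (i + 1) k

theorem s_comm (i j : ℕ) (h : i + 1 < j) (f : Lau) : s i (s j f) = s j (s i f) := by
  rw [s_eq, s_eq, s_eq, s_eq]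
  exact Gen.sw_comm i (i + 1) j (j + 1) (by omega) (by omega) (by omega) (by omega) f

theorem s_braid (i : ℕ) (f : Lau) : s i (s (i + 1) (s i f)) = s (i + 1) (s i (s (i + 1) f)) := by
  rw [s_eq, s_eq, s_eq, s_eq, s_eq, s_eq]
  exact Gen.sw_braid i (i + 1) (i + 1 + 1) (by omega) (by omega) (by omega) f

theorem s_pi (i : ℕ) (f : Lau) : s i (pi i f) = pi i f := by
  rw [pi_eq, s_eq]
  exact Gen.sw_dem i (i + 1) f

theorem pi_pi (i : ℕ) (f : Lau) : pi i (pi i f) = pi i f := by
  rw [pi_eq, pi_eq]
  exact Gen.dem_dem i (i + 1) (ne1 i) f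

theorem pi_of_s (i : ℕ) (f : Lau) (h : s i f = f) : pi i f = f := by
  rw [s_eq] at h
  rw [pi_eq]
  exact Gen.dem_of_sw i (i + 1) (ne1 i) f h

theorem pi_eq_self_iff (i : ℕ) (f : Lau) : pi i f = f ↔ s i f = f :=
  ⟨fun h => by rw [← h, s_pi], pi_of_s i f⟩

theorem pi_mul_of_s (i : ℕ) (f g : Lau) (h : s i g = g) : pi i (g * f) = g * pi i f := by
  rw [s_eq] at h
  rw [pi_eq, pi_eq]
  exact Gen.dem_mul i (i + 1) (ne1 i) f g h

theorem pi_comm (i j : ℕ) (h : i + 1 < j) (f : Lau) : pi i (pi j f) = pi j (pi i f) := by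
  rw [pi_eq, pi_eq, pi_eq, pi_eq]
  exact Gen.dem_comm i (i + 1) j (j + 1) (by omega) (by omega) (by omega) (by omega) (by omega)
    (by omega) f

theorem pi_braid (i : ℕ) (f : Lau) :
    pi i (pi (i + 1) (pi i f)) = pi (i + 1) (pi i (pi (i + 1) f)) := by
  rw [pi_eq, pi_eq, pi_eq, pi_eq, pi_eq, pi_eq]
  exact Gen.dem_braid i (i + 1) (i + 1 + 1) (by omega) (by omega) (by omega) f

theorem mono_inj {u v : Ex} (h : mono u = mono v) : u = v :=
  (AddMonoidAlgebra.single_left_inj (R := ℤ) one_ne_zero).1 h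

/-- The Demazure operator is linear over monomials in the other variables. -/
theorem pi_mul_mono (i : ℕ) (u : Ex) (h : u i = u (i + 1)) (f : Lau) :
    pi i (mono u * f) = mono u * pi i f := by
  apply pi_mul_of_s
  rw [s_mono]
  congr 1
  funext p
  rw [sw, Equiv.swap_apply_def]
  split_ifs with h1 h2
  · subst h1; exact h.symm
  · subst h2; exact h
  · rfl

/-- Equal entries: the monomial is fixed. -/
theorem pi_mono_eq (i : ℕ) (v : Ex) (h : v i = v (i + 1)) : pi i (mono v) = mono v := by
  have := pi_mul_mono i v h 1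
  rw [mul_one] at this
  rw [this, pi_of_s i 1 (map_one _), mul_one]

/-- Entries `a`, `a + 1`: the monomial is killed. -/
theorem pi_mono_up (i : ℕ) (v : Ex) (h : v (i + 1) = v i + 1) : pi i (mono v) = 0 := by
  rw [pi_mono, piM, if_neg (by omega), h]
  simp

/-- Entries `a + 1`, `a`: the sum of the monomial and the exchanged monomial. -/
theorem pi_mono_down (i : ℕ) (v : Ex) (h : v i = v (i + 1) + 1) :
    pi i (mono v) = mono v + mono (sw i v) := by
  rw [pi_mono, piM, if_pos (by omega), h]
  have e1 : (v (i + 1) + 1 - v (i + 1)).toNat + 1 = 2 := by omega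
  rw [e1, Finset.sum_range_succ, Finset.sum_range_one]
  congr 1
  · simp
  · congr 1
    funext p
    simp only [al, sw, Pi.sub_apply, Pi.smul_apply, smul_eq_mul, Equiv.swap_apply_def,
      Pi.single_apply, Nat.cast_one, one_mul]
    by_cases h1 : p = i
    · subst h1
      simp
      omega
    · by_cases h2 : p = i + 1
      · subst h2
        simp
        omega
      · simp [h1, h2]

/-! ### Exponents and sets of exponents -/

theorem sw_sw (i : ℕ) (v : Ex) : sw i (sw i v) = v := by
  funext p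
  simp [sw]

theorem sw_comm (i j : ℕ) (h : i + 1 < j) (v : Ex) : sw i (sw j v) = sw j (sw i v) := by
  have h1 := s_comm i j h (mono v)
  simp only [s_mono] at h1
  exact (AddMonoidAlgebra.single_left_inj (R := ℤ) one_ne_zero).1 h1

theorem sw_braid (i : ℕ) (v : Ex) : sw i (sw (i + 1) (sw i v)) = sw (i + 1) (sw i (sw (i + 1) v)) := by
  have h1 := s_braid i (mono v)
  simp only [s_mono] at h1
  exact (AddMonoidAlgebra.single_left_inj (R := ℤ) one_ne_zero).1 h1

/-- The set operator which goes with `pi i`. -/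
theorem S_S (i : ℕ) (T : Set Ex) :
    (T ∪ sw i '' T) ∪ sw i '' (T ∪ sw i '' T) = T ∪ sw i '' T := by
  ext v
  simp only [Set.mem_union, Set.mem_image]
  constructor
  · rintro (h | ⟨u, (hu | ⟨w, hw, rfl⟩), rfl⟩)
    · exact h
    · exact Or.inr ⟨u, hu, rfl⟩
    · rw [sw_sw]; exact Or.inl hw
  · intro h
    exact Or.inl h

theorem S_comm (i j : ℕ) (h : i + 1 < j) (T : Set Ex) :
    (T ∪ sw j '' T) ∪ sw i '' (T ∪ sw j '' T) = (T ∪ sw i '' T) ∪ sw j '' (T ∪ sw i '' T) := by
  have h1 : sw i '' (sw j '' T) = sw j '' (sw i '' T) := by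
    rw [Set.image_image, Set.image_image]
    exact Set.image_congr fun v _ => sw_comm i j h v
  rw [Set.image_union, Set.image_union, h1]
  ext v
  simp only [Set.mem_union]
  tauto

theorem S_braid (i : ℕ) (T : Set Ex) :
    (((T ∪ sw i '' T) ∪ sw (i + 1) '' (T ∪ sw i '' T)) ∪
      sw i '' ((T ∪ sw i '' T) ∪ sw (i + 1) '' (T ∪ sw i '' T)))
    = (((T ∪ sw (i + 1) '' T) ∪ sw i '' (T ∪ sw (i + 1) '' T)) ∪
      sw (i + 1) '' ((T ∪ sw (i + 1) '' T) ∪ sw i '' (T ∪ sw (i + 1) '' T))) := by
  have h1 : sw i '' (sw (i + 1) '' (sw i '' T)) = sw (i + 1) '' (sw i '' (sw (i + 1) '' T)) := by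
    simp only [Set.image_image]
    exact Set.image_congr fun v _ => sw_braid i v
  have h2 : ∀ k, sw k '' (sw k '' T) = T := by
    intro k
    rw [Set.image_image]
    simp [sw_sw]
  simp only [Set.image_union, h1, h2]
  ext v
  simp only [Set.mem_union]
  tauto

/-! ### The shift -/

theorem cons_zero (M : ℤ) (v : Ex) : cons M v 0 = M := rfl

theorem cons_succ (M : ℤ) (v : Ex) (p : ℕ) : cons M v (p + 1) = v p := rfl

theorem sw_cons (i : ℕ) (M : ℤ) (v : Ex) : sw (i + 1) (cons M v) = cons M (sw i v) := by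
  funext p
  cases p with
  | zero =>
    rw [sw, Equiv.swap_apply_of_ne_of_ne (by omega) (by omega)]
    rfl
  | succ p =>
    rw [cons_succ, sw, sw]
    have : Equiv.swap (i + 1) (i + 1 + 1) (p + 1) = Equiv.swap i (i + 1) p + 1 := by
      rw [Equiv.swap_apply_def, Equiv.swap_apply_def]
      split_ifs <;> omega
    rw [this, cons_succ]

theorem shiftA_mono (v : Ex) : shiftA (mono v) = mono (cons 0 v) := by
  simp [shiftA, mono]

theorem consL_mono (M : ℤ) (v : Ex) : consL M (mono v) = mono (cons M v) := by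
  rw [consL, shiftA_mono, mono_mul]
  congr 1
  funext p
  cases p with
  | zero => simp [cons_zero]
  | succ p => simp [cons_succ]

theorem shiftA_s (i : ℕ) (f : Lau) : shiftA (s i f) = s (i + 1) (shiftA f) := by
  induction f using lau_induction with
  | hm v => rw [s_mono, shiftA_mono, shiftA_mono, s_mono, sw_cons]
  | h0 => simp
  | ha f g hf hg => simp only [map_add, hf, hg]
  | hn f hf => simp only [map_neg, hf]

theorem shiftA_X (i : ℕ) : shiftA (X i) = X (i + 1) := by
  rw [X, shiftA_mono, X]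
  congr 1
  funext p
  cases p with
  | zero => simp [cons_zero]
  | succ p => simp [cons_succ, Pi.single_apply]

theorem shiftA_pi (i : ℕ) (f : Lau) : shiftA (pi i f) = pi (i + 1) (shiftA f) := by
  apply X_cancel (i + 1) (i + 1 + 1) (by omega)
  have h1 := congrArg shiftA (pi_spec i f)
  simp only [map_mul, map_sub, shiftA_X, shiftA_s] at h1
  rw [pi_spec, h1]

theorem consL_add (M : ℤ) (f g : Lau) : consL M (f + g) = consL M f + consL M g := by
  simp only [consL, map_add, mul_add]

theorem consL_neg (M : ℤ) (f : Lau) : consL M (-f) = -consL M f := by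
  simp only [consL, map_neg, mul_neg]

theorem consL_zero (M : ℤ) : consL M 0 = 0 := by
  simp [consL]

theorem consL_pi (M : ℤ) (i : ℕ) (f : Lau) : consL M (pi i f) = pi (i + 1) (consL M f) := by
  rw [consL, consL, shiftA_pi, pi_mul_of_s]
  rw [s_mono]
  congr 1
  funext p
  rw [sw]
  by_cases hp : p = 0
  · subst hp
    rw [Equiv.swap_apply_of_ne_of_ne (by omega) (by omega)]
  · have h : Equiv.swap (i + 1) (i + 1 + 1) p ≠ 0 := by
      rw [Equiv.swap_apply_def]
      split_ifs <;> omega
    rw [Pi.single_apply, Pi.single_apply, if_neg hp, if_neg h]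

/-! ### The reversal -/

theorem rvA_mono (N : ℕ) (v : Ex) : rvA N (mono v) = mono (rv N v) := by
  simp only [rvA, mono, AddMonoidAlgebra.domCongr_single]
  rfl

theorem rv_rv (N : ℕ) (v : Ex) : rv N (rv N v) = v := (rvE N).left_inv v

theorem rvA_rvA (N : ℕ) (f : Lau) : rvA N (rvA N f) = f := by
  induction f using lau_induction with
  | hm v => rw [rvA_mono, rvA_mono, rv_rv]
  | h0 => simp
  | ha f g hf hg => simp only [map_add, hf, hg]
  | hn f hf => simp only [map_neg, hf]

theorem rv_sw (N i : ℕ) (hi : i + 1 < N) (v : Ex) : rv N (sw i v) = sw (N - 2 - i) (rv N v) := by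
  funext p
  simp only [rv, sw]
  congr 2
  rw [Equiv.swap_apply_def, Equiv.swap_apply_def]
  split_ifs <;> omega

theorem rvA_s (N i : ℕ) (hi : i + 1 < N) (f : Lau) :
    rvA N (s i f) = s (N - 2 - i) (rvA N f) := by
  induction f using lau_induction with
  | hm v => rw [s_mono, rvA_mono, rvA_mono, s_mono, rv_sw N i hi]
  | h0 => simp
  | ha f g hf hg => simp only [map_add, hf, hg]
  | hn f hf => simp only [map_neg, hf]

theorem rvA_X (N i : ℕ) (hi : i < N) : X (N - 1 - i) * rvA N (X i) = 1 := by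
  rw [X, X, rvA_mono, mono_mul, ← mono_zero]
  congr 1
  funext p
  simp only [Pi.add_apply, rv, Pi.single_apply, Pi.zero_apply]
  split_ifs <;> omega

theorem rvA_pi (N i : ℕ) (hi : i + 1 < N) (f : Lau) :
    rvA N (pi i f) = pi (N - 2 - i) (rvA N f) := by
  apply X_cancel (N - 2 - i) (N - 2 - i + 1) (by omega)
  have h1 := congrArg (rvA N) (pi_spec i f)
  have h2 := rvA_X N i (by omega)
  have h3 := rvA_X N (i + 1) (by omega)
  have e1 : N - 1 - i = N - 2 - i + 1 := by omega
  have e2 : N - 1 - (i + 1) = N - 2 - i := by omega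
  rw [e1] at h2
  rw [e2] at h3
  simp only [map_mul, map_sub, rvA_s N i hi] at h1
  rw [pi_spec]
  generalize rvA N (pi i f) = A at *
  generalize s (N - 2 - i) (rvA N f) = B at *
  generalize rvA N f = C at *
  generalize rvA N (X i) = u at *
  generalize rvA N (X (i + 1)) = w at *
  generalize X (N - 2 - i) = x at *
  generalize X (N - 2 - i + 1) = y at *
  linear_combination x * y * h1 - x * A * h2 + y * A * h3 + x * C * h2 - y * B * h3

end MP967.Cnt
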