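import Pool.Agent.Lib.MP_967fd7_co.Cnt.Supp

/-! The mirror image: words (`rv_rv`, `rvA_mono`, `rv_sw`, `rvA_pi` are in `Lau`). -/

namespace MP967.Cnt

theorem So_rv {N i : ℕ} (hi : i + 1 < N) (T : Set Ex) :
    rv N '' So i T = So (N - 2 - i) (rv N '' T) := by
  unfold So
  rw [Set.image_union, Set.image_image, Set.image_image]
  refine congrArg (rv N '' T ∪ ·) (Set.image_congr fun v _ => ?_)
  exact rv_sw N i hi v

theorem W_rv {N : ℕ} {D : Ex} {f : Lau} {T : Set Ex} (h : W N D f T) :
    W N (rv N D) (rvA N f) (rv N '' T) := by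
  induction h with
  | base =>
    rw [rvA_mono, Set.image_singleton]
    exact W.base
  | step i hi _ ih =>
    rw [rvA_pi N i hi, So_rv hi]
    exact W.step (N - 2 - i) (by omega) ih

theorem Dec_rv {N : ℕ} {D : Ex} (h : Dec N D) : Dec N (rv N D) := by
  refine ⟨fun p hp => ?_, fun p hp => ?_⟩
  · have h1 := h.1 (N - 2 - p) (by omega)
    unfold rv
    rw [if_pos hp, if_pos (by omega : p < N), show N - 1 - (p + 1) = N - 2 - p by omega,
      show N - 1 - p = N - 2 - p + 1 by omega]
    exact neg_le_neg h1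
  · unfold rv
    rw [if_neg (by omega), h.2 p hp, neg_zero]

end MP967.Cnt
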