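import Pool.Agent.Lib.MP_967fd7_co.Cnt.Supp

/-! The iterated operators `piUp`, `swUp`. -/

namespace MP967.Cnt

/-! `pi i` and `piUp j = pi (j-1) ⋯ pi 0`: four cases, the same for the sets. -/

theorem pi_piUp_gt {i j : ℕ} (h : j < i) (f : Lau) : pi i (piUp j f) = piUp j (pi i f) := by
  induction j with
  | zero => rfl
  | succ j ih =>
    change pi i (pi j (piUp j f)) = pi j (piUp j (pi i f))
    rw [← ih (Nat.lt_of_succ_lt h), pi_comm _ _ h]

theorem pi_piUp_last (j : ℕ) (f : Lau) : pi j (piUp (j + 1) f) = piUp (j + 1) f :=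
  pi_pi j (piUp j f)

/-- Proof: commute to `pi i (pi (i+1) (pi i _))`, braid. -/
theorem pi_piUp_lt {i j : ℕ} (h : i + 1 < j) (f : Lau) :
    pi i (piUp j f) = piUp j (pi (i + 1) f) := by
  induction j with
  | zero => exact absurd h (Nat.not_lt_zero _)
  | succ j ih =>
    change pi i (pi j (piUp j f)) = pi j (piUp j (pi (i + 1) f))
    rcases Nat.lt_or_eq_of_le (Nat.le_of_lt_succ h) with h1 | h1
    · rw [← ih h1, pi_comm _ _ h1]
    · subst h1
      change pi i (pi (i + 1) (pi i (piUp i f))) = pi (i + 1) (pi i (piUp i (pi (i + 1) f)))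
      rw [← pi_piUp_gt (Nat.lt_succ_self i), pi_braid]

theorem So_swUp_gt {i j : ℕ} (h : j < i) (T : Set Ex) : So i (swUp j T) = swUp j (So i T) := by
  induction j with
  | zero => rfl
  | succ j ih =>
    change So i (So j (swUp j T)) = So j (swUp j (So i T))
    rw [← ih (Nat.lt_of_succ_lt h), So_comm _ _ h]

theorem So_swUp_last (j : ℕ) (T : Set Ex) : So j (swUp (j + 1) T) = swUp (j + 1) T :=
  So_So j (swUp j T)

theorem So_swUp_lt {i j : ℕ} (h : i + 1 < j) (T : Set Ex) :
    So i (swUp j T) = swUp j (So (i + 1) T) := by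
  induction j with
  | zero => exact absurd h (Nat.not_lt_zero _)
  | succ j ih =>
    change So i (So j (swUp j T)) = So j (swUp j (So (i + 1) T))
    rcases Nat.lt_or_eq_of_le (Nat.le_of_lt_succ h) with h1 | h1
    · rw [← ih h1, So_comm _ _ h1]
    · subst h1
      change So i (So (i + 1) (So i (swUp i T))) = So (i + 1) (So i (swUp i (So (i + 1) T)))
      rw [← So_swUp_gt (Nat.lt_succ_self i), So_braid]

end MP967.Cnt
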