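import Pool.Agent.Lib.MP_967fd7_co.Cnt.Supp

/-! Valid exponents, moves. -/

namespace MP967.Cnt

private theorem vld_lt {i a b : ℕ} (h : Equiv.swap i (i + 1) a < Equiv.swap i (i + 1) b)
    (hab : ¬ a < b) : a = i + 1 ∧ b = i := by
  rw [Equiv.swap_apply_def, Equiv.swap_apply_def] at h
  split_ifs at h <;> omega

private theorem vld_swap_lt {N i : ℕ} (hi : i + 1 < N) {p : ℕ} (hp : p < N) :
    Equiv.swap i (i + 1) p < N := by
  rw [Equiv.swap_apply_def]
  split_ifs <;> omega

/-- Conjugation of the involution. -/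
private theorem vld_conj {N i : ℕ} (hi : i + 1 < N) {I : ℕ → Bool} {th : Ex} {m : ℕ → ℕ}
    (hm : ∀ p < N, m p < N ∧ m (m p) = p ∧ (m p = p → th p = 0) ∧
      (p < m p → cs i I p ≠ cs i I (m p) ∧ th p = -th (m p) ∧ th p ≤ 0))
    (hne : m i ≠ i + 1) : Valid N I (sw i th) := by
  refine ⟨fun p => Equiv.swap i (i + 1) (m (Equiv.swap i (i + 1) p)), ?_⟩
  intro p hp
  obtain ⟨a, ha⟩ : ∃ a, a = Equiv.swap i (i + 1) p := ⟨_, rfl⟩
  have haN : a < N := by
    rw [ha]
    exact vld_swap_lt hi hp
  have hpa : Equiv.swap i (i + 1) a = p := by rw [ha, Equiv.swap_apply_self]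
  obtain ⟨h1, h2, h3, h4⟩ := hm a haN
  simp only []
  rw [← ha]
  refine ⟨vld_swap_lt hi h1, ?_, ?_, ?_⟩
  · rw [Equiv.swap_apply_self, h2, hpa]
  · intro h
    have h5 : m a = a := by
      have h6 := congrArg (Equiv.swap i (i + 1)) h
      rw [Equiv.swap_apply_self, ← ha] at h6
      exact h6
    change th (Equiv.swap i (i + 1) p) = 0
    rw [← ha]
    exact h3 h5
  · intro h
    have hlt : a < m a := by
      by_contra hcon
      rw [← hpa] at h
      obtain ⟨h5, h6⟩ := vld_lt h hcon
      have h7 : m i = a := by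
        rw [h6] at h2
        exact h2
      exact hne (h7.trans h5)
    obtain ⟨h5, h6, h7⟩ := h4 hlt
    refine ⟨?_, ?_, ?_⟩
    · have e1 : cs i I a = I p := by
        change I (Equiv.swap i (i + 1) a) = I p
        rw [hpa]
      have e2 : cs i I (m a) = I (Equiv.swap i (i + 1) (m a)) := rfl
      rw [← e1, ← e2]
      exact h5
    · change th (Equiv.swap i (i + 1) p)
        = -th (Equiv.swap i (i + 1) (Equiv.swap i (i + 1) (m a)))
      rw [← ha, Equiv.swap_apply_self]
      exact h6
    · change th (Equiv.swap i (i + 1) p) ≤ 0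
      rw [← ha]
      exact h7

/-- Adjacent slots of the same colour. Proof: conjugate the involution with the exchange of `i`, `i + 1`. -/
theorem Valid_same {N i : ℕ} (hi : i + 1 < N) {I : ℕ → Bool} (hI : I i = I (i + 1)) {th : Ex}
    (h : Valid N I th) : Valid N I (sw i th) := by
  obtain ⟨m, hm⟩ := h
  have hcs : cs i I = I := by
    funext p
    change I (Equiv.swap i (i + 1) p) = I p
    rw [Equiv.swap_apply_def]
    split_ifs with h1 h2
    · rw [h1, hI]
    · rw [h2, hI]
    · rfl
  apply vld_conj hi (m := m)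
  · rw [hcs]
    exact hm
  · intro hmi
    obtain ⟨_, _, _, h4⟩ := hm i (by omega)
    rw [hmi] at h4
    exact (h4 (by omega)).1 hI

/-- Adjacent slots of different colour. Proof: if `m i ≠ i + 1`, conjugate the involution (left); if `m i = i + 1`, the same involution
(right). -/
theorem Valid_cs {N i : ℕ} (hi : i + 1 < N) {I : ℕ → Bool} {th : Ex}
    (h : Valid N (cs i I) th) : Valid N I (sw i th) ∨ Valid N I th := by
  obtain ⟨m, hm⟩ := h
  by_cases hmi : m i = i + 1
  · right
    have hmi' : m (i + 1) = i := by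
      have := (hm i (by omega)).2.1
      rwa [hmi] at this
    refine ⟨m, fun p hp => ?_⟩
    obtain ⟨h1, h2, h3, h4⟩ := hm p hp
    refine ⟨h1, h2, h3, fun hlt => ?_⟩
    obtain ⟨h5, h6, h7⟩ := h4 hlt
    refine ⟨?_, h6, h7⟩
    by_cases hp1 : p = i
    · subst hp1
      rw [hmi] at h5 ⊢
      change I (Equiv.swap p (p + 1) p) ≠ I (Equiv.swap p (p + 1) (p + 1)) at h5
      rw [Equiv.swap_apply_left, Equiv.swap_apply_right] at h5
      exact h5.symm
    · by_cases hp2 : p = i + 1
      · subst hp2
        rw [hmi'] at hlt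
        omega
      · have hq1 : m p ≠ i := by
          intro h8
          apply hp2
          rw [h8, hmi] at h2
          exact h2.symm
        have hq2 : m p ≠ i + 1 := by
          intro h8
          apply hp1
          rw [h8, hmi'] at h2
          exact h2.symm
        change I (Equiv.swap i (i + 1) p) ≠ I (Equiv.swap i (i + 1) (m p)) at h5
        rw [Equiv.swap_apply_of_ne_of_ne hp1 hp2, Equiv.swap_apply_of_ne_of_ne hq1 hq2] at h5
        exact h5
  · left
    exact vld_conj hi hm hmi

end MP967.Cnt
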