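import Pool.Agent.Lib.MP_967fd7_co.Cnt.CtB
import Pool.Agent.Lib.MP_967fd7_co.Cnt.VldA
import Pool.Agent.Lib.MP_967fd7_co.Cnt.Up

/-! The moves for `Ok`, and the reduction (3). -/

namespace MP967.Cnt

theorem Ok_same {N i : ℕ} (hi : i + 1 < N) {I : ℕ → Bool} (hI : I i = I (i + 1)) {f : Lau}
    {T : Set Ex} : Ok N I (pi i f) (So i T) ↔ Ok N I f T := by
  unfold Ok
  rw [el_pi_same hi hI]
  refine and_congr Iff.rfl (imp_congr Iff.rfl ⟨?_, ?_⟩)
  · rintro ⟨th, hth, hv⟩
    rcases hth with h | ⟨u, hu, rfl⟩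
    · exact ⟨th, h, hv⟩
    · refine ⟨u, hu, ?_⟩
      have := Valid_same hi hI hv
      rwa [sw_sw] at this
  · rintro ⟨th, hth, hv⟩
    exact ⟨th, Or.inl hth, hv⟩

theorem Ok_symm {N i : ℕ} (hi : i + 1 < N) {I : ℕ → Bool} {f : Lau} {T : Set Ex}
    (hf : pi i f = f) (hT : So i T = T) (h : Ok N (cs i I) f T) : Ok N I f T := by
  have hs : s i f = f := by
    rw [← hf]; exact s_pi i f
  have he := el_symm hi I hs
  obtain ⟨h1, h2⟩ := h
  rw [he] at h1 h2
  refine ⟨h1, fun h0 => ?_⟩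
  obtain ⟨th, hth, hv⟩ := h2 h0
  rcases Valid_cs hi hv with h | h
  · refine ⟨sw i th, ?_, h⟩
    rw [← hT]
    exact Or.inr ⟨th, hth, rfl⟩
  · exact ⟨th, hth, h⟩

/-- Paper (3), one step: the colours of the slots `k`, `k + 1`, `k + 2`. If the last two are equal: `Ok_same` (down). Otherwise by
`Ok_symm` at `k + 1` we may assume that the first two are equal, `Ok_same` at `k` (up) and
`pi k (piUp (k+2) F) = piUp (k+2) (pi (k+1) F)`; this is fixed by `pi k` and `pi (k+1)`, so the colours may be permuted until the last two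
are equal. -/
theorem red {N k : ℕ} (hN : k + 2 < N) {F : Lau} {T : Set Ex}
    (h1 : ∀ I, Ok N I (piUp (k + 1) F) (swUp (k + 1) T))
    (h2 : ∀ I, Ok N I (piUp (k + 1) (pi (k + 1) F)) (swUp (k + 1) (So (k + 1) T)))
    (I : ℕ → Bool) : Ok N I (piUp (k + 2) F) (swUp (k + 2) T) := by
  -- the values of the exchanged colouring
  have c0 : ∀ (i : ℕ) (J : ℕ → Bool), cs i J i = J (i + 1) := fun i J => by
    rw [cs, Equiv.swap_apply_left]
  have c1 : ∀ (i : ℕ) (J : ℕ → Bool), cs i J (i + 1) = J i := fun i J => by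
    rw [cs, Equiv.swap_apply_right]
  have c2 : ∀ (i p : ℕ) (J : ℕ → Bool), p ≠ i → p ≠ i + 1 → cs i J p = J p := fun i p J h h' => by
    rw [cs, Equiv.swap_apply_of_ne_of_ne h h']
  -- the last two colours are equal
  have A : ∀ J : ℕ → Bool, J (k + 1) = J (k + 2) → Ok N J (piUp (k + 2) F) (swUp (k + 2) T) := by
    intro J hJ
    exact (Ok_same (i := k + 1) hN hJ).2 (h1 J)
  have A' : ∀ J : ℕ → Bool, J (k + 1) = J (k + 2) →
      Ok N J (piUp (k + 2) (pi (k + 1) F)) (swUp (k + 2) (So (k + 1) T)) := by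
    intro J hJ
    exact (Ok_same (i := k + 1) hN hJ).2 (h2 J)
  -- the element `pi k (piUp (k+2) F)`
  have e1 : pi k (piUp (k + 2) F) = piUp (k + 2) (pi (k + 1) F) := pi_piUp_lt (by omega) F
  have e2 : So k (swUp (k + 2) T) = swUp (k + 2) (So (k + 1) T) := So_swUp_lt (by omega) T
  have f1 : pi k (piUp (k + 2) (pi (k + 1) F)) = piUp (k + 2) (pi (k + 1) F) := by
    rw [← e1, pi_pi]
  have f2 : So k (swUp (k + 2) (So (k + 1) T)) = swUp (k + 2) (So (k + 1) T) := by
    rw [← e2, So_So]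
  have g1 : pi (k + 1) (piUp (k + 2) (pi (k + 1) F)) = piUp (k + 2) (pi (k + 1) F) :=
    pi_piUp_last (k + 1) _
  have g2 : So (k + 1) (swUp (k + 2) (So (k + 1) T)) = swUp (k + 2) (So (k + 1) T) :=
    So_swUp_last (k + 1) _
  -- all colourings for this element
  have B : ∀ J : ℕ → Bool, Ok N J (piUp (k + 2) (pi (k + 1) F)) (swUp (k + 2) (So (k + 1) T)) := by
    intro J
    by_cases h : J (k + 1) = J (k + 2)
    · exact A' J h
    · by_cases h' : J k = J (k + 2)
      · -- exchange `k`, `k + 1`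
        refine Ok_symm (i := k) (by omega) f1 f2 (A' _ ?_)
        rw [c1, c2 k (k + 2) J (by omega) (by omega)]
        exact h'
      · -- `J k = J (k + 1) ≠ J (k + 2)`: exchange `k + 1`, `k + 2`, then `k`, `k + 1`
        have h3 : J k = J (k + 1) := by
          cases hk : J k <;> cases hk1 : J (k + 1) <;> cases hk2 : J (k + 2) <;> simp_all
        refine Ok_symm (i := k + 1) hN g1 g2 (Ok_symm (i := k) (by omega) f1 f2 (A' _ ?_))
        rw [c1, c2 k (k + 2) _ (by omega) (by omega), c1 (k + 1) J,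
          c2 (k + 1) k J (by omega) (by omega)]
        exact h3
  -- the first two colours are equal
  have C : ∀ J : ℕ → Bool, J k = J (k + 1) → Ok N J (piUp (k + 2) F) (swUp (k + 2) T) := by
    intro J hJ
    refine (Ok_same (i := k) (by omega) hJ).1 ?_
    rw [e1, e2]
    exact B J
  by_cases h : I (k + 1) = I (k + 2)
  · exact A I h
  · by_cases h' : I k = I (k + 1)
    · exact C I h'
    · have h3 : I k = I (k + 2) := by
        cases hk : I k <;> cases hk1 : I (k + 1) <;> cases hk2 : I (k + 2) <;> simp_all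
      refine Ok_symm (i := k + 1) hN (pi_piUp_last (k + 1) _) (So_swUp_last (k + 1) _) (C _ ?_)
      rw [c0, c2 (k + 1) k I (by omega) (by omega)]
      exact h3

end MP967.Cnt
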