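import Pool.Agent.Lib.MP_967fd7_co.Cnt.Hecke
import Pool.Agent.Lib.MP_967fd7_co.Cnt.Lau

/-! One step of the histories: the product of a monomial with `∏ (1 + 1 / x_p)`. -/

namespace MP967.Cnt

/-- `v` minus the indicator of `A`. -/
def sub (v : Ex) (A : Finset ℕ) : Ex := fun p => if p ∈ A then v p - 1 else v p

/-- The product of the `1 + 1 / x_p`, `p < K`. -/
noncomputable def EE (K : ℕ) : Lau := ∏ p ∈ Finset.range K, (1 + mono (-Pi.single p 1))

theorem c2_prod (A : Finset ℕ) :
    ∏ p ∈ A, mono (-Pi.single p 1) = mono (fun p => if p ∈ A then -1 else 0) := by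
  classical
  induction A using Finset.induction_on with
  | empty =>
    rw [Finset.prod_empty, ← mono_zero]
    congr 1
  | insert a A ha ih =>
    rw [Finset.prod_insert ha, ih, mono_mul]
    congr 1
    funext p
    simp only [Pi.add_apply, Pi.neg_apply, Pi.single_apply, Finset.mem_insert]
    by_cases h1 : p = a
    · subst h1
      simp [ha]
    · simp [h1]

theorem mono_mul_EE (K : ℕ) (v : Ex) :
    mono v * EE K = ∑ A ∈ (Finset.range K).powerset, mono (sub v A) := by
  classical
  unfold EE
  rw [Finset.prod_one_add, Finset.mul_sum]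
  refine Finset.sum_congr rfl fun A _ => ?_
  rw [c2_prod, mono_mul]
  congr 1
  funext p
  simp only [Pi.add_apply, sub]
  split_ifs <;> ring

theorem c2_swap_mem {K i p : ℕ} (hi : i + 1 < K) (hp : p < K) : Equiv.swap i (i + 1) p < K := by
  rw [Equiv.swap_apply_def]
  split_ifs <;> omega

theorem s_EE {K i : ℕ} (hi : i + 1 < K) : s i (EE K) = EE K := by
  unfold EE
  rw [map_prod]
  refine Finset.prod_bij (fun p _ => Equiv.swap i (i + 1) p) ?_ ?_ ?_ ?_
  · intro p hp
    rw [Finset.mem_range] at hp ⊢
    exact c2_swap_mem hi hp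
  · intro a _ b _ h
    exact (Equiv.swap i (i + 1)).injective h
  · intro b hb
    refine ⟨Equiv.swap i (i + 1) b, ?_, Equiv.swap_apply_self _ _ _⟩
    rw [Finset.mem_range] at hb ⊢
    exact c2_swap_mem hi hb
  · intro p _
    rw [map_add, map_one, s_mono]
    congr 2
    funext q
    simp only [sw, Pi.neg_apply, Pi.single_apply]
    have h : Equiv.swap i (i + 1) q = p ↔ q = Equiv.swap i (i + 1) p := by
      constructor
      · intro h
        rw [← h, Equiv.swap_apply_self]
      · intro h
        rw [h, Equiv.swap_apply_self]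
    simp only [h]

/-- The operators of a word, applied from the right to the left. -/
noncomputable def opL (w : List ℕ) (f : Lau) : Lau := w.foldr (fun i g => pi i g) f

/-- The set operators of a word. -/
def opS (w : List ℕ) (Th : Set Ex) : Set Ex := w.foldr (fun i T => T ∪ sw i '' T) Th

theorem opL_eq (w : List ℕ) (f : Lau) :
    opL w f = (pr (fun i => (pi i : Module.End ℤ Lau)) w) f := by
  induction w with
  | nil => rfl
  | cons i w ih =>
    have h : opL (i :: w) f = pi i (opL w f) := rfl
    rw [h, ih]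
    rfl

theorem W_op {K : ℕ} {D : Ex} {f : Lau} {Th : Set Ex} (h : W K D f Th) (w : List ℕ)
    (hw : ∀ i ∈ w, i + 1 < K) : W K D (opL w f) (opS w Th) := by
  induction w with
  | nil => exact h
  | cons i w ih =>
    exact W.step i (hw i List.mem_cons_self) (ih fun j hj => hw j (List.mem_cons_of_mem i hj))

/-- The decreasing vectors `v - 1_A`. -/
noncomputable def steps (K : ℕ) (v : Ex) : Finset Ex := by
  classical
  exact ((Finset.range K).powerset.image (sub v)).filter (Dec K)

theorem mem_steps {K : ℕ} {v z : Ex} (hv : Dec K v) :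
    z ∈ steps K v ↔ Dec K z ∧ ∀ p, p < K → v p = z p ∨ v p = z p + 1 := by
  classical
  unfold steps
  rw [Finset.mem_filter, Finset.mem_image]
  constructor
  · rintro ⟨⟨A, _, rfl⟩, h⟩
    refine ⟨h, fun p _ => ?_⟩
    unfold sub
    split_ifs
    · right
      ring
    · left
      rfl
  · rintro ⟨h1, h2⟩
    refine ⟨⟨(Finset.range K).filter (fun p => v p = z p + 1), ?_, ?_⟩, h1⟩
    · exact Finset.mem_powerset.mpr (Finset.filter_subset _ _)
    · funext p
      unfold sub
      by_cases hp : p < K
      · rcases h2 p hp with h3 | h3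
        · rw [if_neg]
          · exact h3
          · simp only [Finset.mem_filter, not_and]
            intro _
            omega
        · rw [if_pos]
          · omega
          · exact Finset.mem_filter.mpr ⟨Finset.mem_range.mpr hp, h3⟩
      · rw [if_neg]
        · rw [hv.2 p (by omega), h1.2 p (by omega)]
        · simp only [Finset.mem_filter, Finset.mem_range, not_and]
          intro h
          exact absurd h hp

theorem c3_rel : Rel (fun i => (pi i : Module.End ℤ Lau)) where
  idem i := LinearMap.ext fun f => pi_pi i f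
  comm i j h := LinearMap.ext fun f => pi_comm i j h f
  braid i := LinearMap.ext fun f => pi_braid i f

theorem c3_sub_inj (v : Ex) : Function.Injective (sub v) := by
  intro A B h
  ext p
  have hp := congrFun h p
  unfold sub at hp
  split_ifs at hp with h1 h2 h2
  · exact ⟨fun _ => h2, fun _ => h1⟩
  · omega
  · omega
  · exact ⟨fun h => absurd h h1, fun h => absurd h h2⟩

theorem c3_sw (i : ℕ) (v : Ex) (h : v i = v (i + 1)) : sw i v = v := by
  funext p
  unfold sw
  by_cases h1 : p = i
  · subst h1
    rw [Equiv.swap_apply_left]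
    exact h.symm
  · by_cases h2 : p = i + 1
    · subst h2
      rw [Equiv.swap_apply_right]
      exact h
    · rw [Equiv.swap_apply_of_ne_of_ne h1 h2]

theorem c3_fix {K : ℕ} (v : Ex) (w : List ℕ) (hw : ∀ i ∈ w, i + 1 < K ∧ v i = v (i + 1)) :
    opL w (mono v * EE K) = mono v * EE K := by
  induction w with
  | nil => rfl
  | cons i w ih =>
    have h1 : opL (i :: w) (mono v * EE K) = pi i (opL w (mono v * EE K)) := rfl
    rw [h1, ih (fun j hj => hw j (List.mem_cons_of_mem i hj))]
    obtain ⟨h2, h3⟩ := hw i List.mem_cons_self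
    apply pi_of_s
    rw [map_mul, s_mono, s_EE h2, c3_sw i v h3]

theorem c3_dead {K : ℕ} {v : Ex} (hv : Dec K v) {A : Finset ℕ} (hA : A ⊆ Finset.range K)
    (h : ¬Dec K (sub v A)) :
    ∃ i, i + 1 < K ∧ v i = v (i + 1) ∧ pi i (mono (sub v A)) = 0 := by
  have h2 : ∀ p, K ≤ p → sub v A p = 0 := by
    intro p hp
    have h3 : p ∉ A := by
      intro h4
      have h5 := Finset.mem_range.mp (hA h4)
      omega
    unfold sub
    rw [if_neg h3]
    exact hv.2 p hp
  have h3 : ∃ i, i + 1 < K ∧ ¬(sub v A (i + 1) ≤ sub v A i) := by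
    by_contra h4
    apply h
    refine ⟨fun p hp => ?_, h2⟩
    by_contra h5
    exact h4 ⟨p, hp, h5⟩
  obtain ⟨i, hi, h4⟩ := h3
  have h5 := hv.1 i hi
  have h6 : v i = v (i + 1) ∧ sub v A i = v i - 1 ∧ sub v A (i + 1) = v (i + 1) := by
    unfold sub at h4 ⊢
    split_ifs at h4 ⊢ with h7 h8 h8
    all_goals first
      | omega
      | exact ⟨by omega, rfl, rfl⟩
  refine ⟨i, hi, h6.1, ?_⟩
  rw [pi_mono]
  unfold piM
  rw [h6.2.1, h6.2.2, if_neg (by omega)]
  have h7 : (v (i + 1) - (v i - 1)).toNat - 1 = 0 := by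
    have := h6.1
    omega
  rw [h7, Finset.range_zero, Finset.sum_empty, neg_zero]

/-- `x^v ∏ (1 + 1/x_p)` is the sum of the `opL w x^z` over the decreasing `z`. -/
theorem step_sum {K : ℕ} {v : Ex} (hv : Dec K v) :
    ∃ w : List ℕ, (∀ i ∈ w, i + 1 < K ∧ v i = v (i + 1)) ∧
      mono v * EE K = ∑ z ∈ steps K v, opL w (mono z) := by
  classical
  let J : ℕ → Bool := fun i => decide (i + 1 < K ∧ v i = v (i + 1))
  have hJ : ∀ i, J i = true ↔ (i + 1 < K ∧ v i = v (i + 1)) := fun i => decide_eq_true_iff
  have hw : ∀ i ∈ wrd J K, i + 1 < K ∧ v i = v (i + 1) := fun i hi => (hJ i).mp (mem_wrd J hi).2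
  refine ⟨wrd J K, hw, ?_⟩
  have h0 : ∀ A ∈ (Finset.range K).powerset, ¬Dec K (sub v A) → opL (wrd J K) (mono (sub v A)) = 0 := by
    intro A hA hD
    obtain ⟨i, hi, h1, h2⟩ := c3_dead hv (Finset.mem_powerset.mp hA) hD
    have h3 := wrd_mul c3_rel J K i (by omega) ((hJ i).mpr ⟨hi, h1⟩)
    have h4 := LinearMap.congr_fun h3 (mono (sub v A))
    rw [Module.End.mul_apply, h2, map_zero] at h4
    rw [opL_eq]
    exact h4.symm
  calc mono v * EE K = opL (wrd J K) (mono v * EE K) := (c3_fix v _ hw).symm
    _ = opL (wrd J K) (∑ A ∈ (Finset.range K).powerset, mono (sub v A)) := by rw [mono_mul_EE]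
    _ = ∑ A ∈ (Finset.range K).powerset, opL (wrd J K) (mono (sub v A)) := by
        rw [opL_eq, map_sum]
        exact Finset.sum_congr rfl fun A _ => (opL_eq _ _).symm
    _ = ∑ A ∈ (Finset.range K).powerset,
          if Dec K (sub v A) then opL (wrd J K) (mono (sub v A)) else 0 := by
        refine Finset.sum_congr rfl fun A hA => ?_
        split_ifs with h1
        · rfl
        · exact h0 A hA h1
    _ = ∑ z ∈ (Finset.range K).powerset.image (sub v),
          if Dec K z then opL (wrd J K) (mono z) else 0 := by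
        rw [Finset.sum_image fun A _ B _ h => c3_sub_inj v h]
    _ = ∑ z ∈ steps K v, opL (wrd J K) (mono z) := by
        unfold steps
        rw [Finset.sum_filter]

/-- The operators commute with the multiplication by powers of `EE K`. -/
theorem opL_mul {K : ℕ} (w : List ℕ) (hw : ∀ i ∈ w, i + 1 < K) (f : Lau) (n : ℕ) :
    opL w f * EE K ^ n = opL w (f * EE K ^ n) := by
  induction w with
  | nil => rfl
  | cons i w ih =>
    have h1 : opL (i :: w) f = pi i (opL w f) := rfl
    have h2 : opL (i :: w) (f * EE K ^ n) = pi i (opL w (f * EE K ^ n)) := rfl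
    have h3 : s i (EE K ^ n) = EE K ^ n := by
      rw [map_pow, s_EE (hw i List.mem_cons_self)]
    rw [h1, h2, ← ih (fun j hj => hw j (List.mem_cons_of_mem i hj)), mul_comm (opL w f),
      pi_mul_of_s i _ _ h3, mul_comm]

theorem opL_sum {ι : Type*} (w : List ℕ) (S : Finset ι) (f : ι → Lau) :
    opL w (∑ i ∈ S, f i) = ∑ i ∈ S, opL w (f i) := by
  rw [opL_eq, map_sum]
  exact Finset.sum_congr rfl fun i _ => (opL_eq w (f i)).symm

end MP967.Cnt
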